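import Pool.Agent.Lib_helper78.PI.Cover2

/-!
Base covers from weights on the types `(i, j)`.
-/

set_option autoImplicit false

namespace Pool.Agent.Lib_helper78.PI

open Finset

/-- number of functions `Fin i → Fin g` hitting both `u` and `u'` -/
theorem two_hits (i g : ℕ) (u u' : Fin g) (h : u ≠ u') :
    ((univ.filter (fun f : Fin i → Fin g => u ∈ Set.range f ∧ u' ∈ Set.range f)).card) * g ^ 2 ≤
      i * (i - 1) * g ^ i := by
  classical
  have hone : ∀ s t : Fin i, s ≠ t →
      (univ.filter (fun f : Fin i → Fin g => f s = u ∧ f t = u')).card * g ^ 2 = g ^ i := by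
    intro s t hst
    have h1 : (univ.filter (fun f : Fin i → Fin g => f s = u ∧ f t = u')) =
        Fintype.piFinset (fun r => if r = s then {u} else if r = t then {u'} else univ) := by
      ext f
      simp only [Finset.mem_filter, Finset.mem_univ, true_and, Fintype.mem_piFinset]
      constructor
      · rintro ⟨h1, h2⟩ r
        split_ifs with h3 h4
        · subst h3; simp [h1]
        · subst h4; simp [h2]
        · simp
      · intro hr
        refine ⟨?_, ?_⟩
        · have := hr s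
          simpa using this
        · have := hr t
          rw [if_neg (Ne.symm hst), if_pos rfl] at this
          simpa using this
    rw [h1, Fintype.card_piFinset]
    have h2 : ∀ r, (if r = s then ({u} : Finset (Fin g)) else if r = t then {u'} else univ).card =
        if r = s then 1 else if r = t then 1 else g := by
      intro r
      split_ifs <;> simp
    rw [Finset.prod_congr rfl (fun r _ => h2 r)]
    have h3 : ∏ r : Fin i, (if r = s then 1 else if r = t then 1 else g) = g ^ (i - 2) := by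
      rw [← Finset.prod_erase (a := s) univ (by simp), ← Finset.prod_erase (a := t) _ (by
        rw [if_neg (Ne.symm hst), if_pos rfl])]
      have h4 : ∀ r ∈ (univ.erase s).erase t,
          (if r = s then 1 else if r = t then 1 else g) = g := by
        intro r hr
        rw [Finset.mem_erase, Finset.mem_erase] at hr
        rw [if_neg hr.2.1, if_neg hr.1]
      rw [Finset.prod_congr rfl h4, Finset.prod_const, Finset.card_erase_of_mem, Finset.card_erase_of_mem
        (Finset.mem_univ _)]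
      · simp
        congr 1
      · rw [Finset.mem_erase]; exact ⟨Ne.symm hst, Finset.mem_univ _⟩
    have hi : 2 ≤ i := by
      have hs := s.2
      have ht := t.2
      have : (s : ℕ) ≠ t := fun h => hst (Fin.ext h)
      omega
    rw [h3, ← pow_add]
    congr 1
    omega
  have hsub : (univ.filter (fun f : Fin i → Fin g => u ∈ Set.range f ∧ u' ∈ Set.range f)) ⊆
      (univ : Finset (Fin i)).offDiag.biUnion (fun st =>
        univ.filter (fun f : Fin i → Fin g => f st.1 = u ∧ f st.2 = u')) := by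
    intro f hf
    rw [Finset.mem_filter] at hf
    obtain ⟨_, ⟨s, hs⟩, ⟨t, ht⟩⟩ := hf
    rw [Finset.mem_biUnion]
    refine ⟨(s, t), ?_, ?_⟩
    · rw [Finset.mem_offDiag]
      refine ⟨Finset.mem_univ _, Finset.mem_univ _, ?_⟩
      intro hst
      have hst' : s = t := hst
      exact h (by rw [← hs, ← ht, hst'])
    · rw [Finset.mem_filter]; exact ⟨Finset.mem_univ _, hs, ht⟩
  calc _ ≤ (∑ st ∈ (univ : Finset (Fin i)).offDiag,
        (univ.filter (fun f : Fin i → Fin g => f st.1 = u ∧ f st.2 = u')).card) * g ^ 2 :=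
        Nat.mul_le_mul_right _ (le_trans (Finset.card_le_card hsub) Finset.card_biUnion_le)
    _ = ∑ st ∈ (univ : Finset (Fin i)).offDiag, g ^ i := by
        rw [Finset.sum_mul]
        refine Finset.sum_congr rfl (fun st hst => ?_)
        rw [Finset.mem_offDiag] at hst
        exact hone st.1 st.2 hst.2.2
    _ = i * (i - 1) * g ^ i := by
        rw [Finset.sum_const, Finset.offDiag_card]
        simp
        left
        rw [Nat.mul_sub, mul_one]

theorem bern (h i : ℕ) : h ^ i * (h + i) ≤ h * (h + 1) ^ i := by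
  induction i with
  | zero => simp
  | succ i ih =>
    have h1 : h ^ i ≤ (h + 1) ^ i := Nat.pow_le_pow_left (Nat.le_succ h) i
    calc h ^ (i + 1) * (h + (i + 1)) = h * (h ^ i * (h + i)) + h * h ^ i := by ring
      _ ≤ h * (h * (h + 1) ^ i) + h * (h + 1) ^ i :=
          Nat.add_le_add (Nat.mul_le_mul_left _ ih) (Nat.mul_le_mul_left _ h1)
      _ = h * (h + 1) ^ (i + 1) := by ring

/-- number of functions `Fin i → Fin g` hitting `u` -/
theorem one_hit (i g : ℕ) (u : Fin g) :
    i * g ^ i ≤ ((univ.filter (fun f : Fin i → Fin g => u ∈ Set.range f)).card) * (g + i) := by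
  classical
  obtain ⟨h, rfl⟩ : ∃ h, g = h + 1 := ⟨g - 1, by have := u.2; omega⟩
  have h1 : (univ.filter (fun f : Fin i → Fin (h + 1) => ¬ u ∈ Set.range f)) =
      Fintype.piFinset (fun _ => univ.erase u) := by
    ext f
    simp only [Finset.mem_filter, Finset.mem_univ, true_and, Fintype.mem_piFinset,
      Finset.mem_erase, and_true, Set.mem_range, not_exists]
  have h2 : (univ.filter (fun f : Fin i → Fin (h + 1) => ¬ u ∈ Set.range f)).card = h ^ i := by
    rw [h1, Fintype.card_piFinset]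
    simp
  have h3 := Finset.card_filter_add_card_filter_not (s := (univ : Finset (Fin i → Fin (h + 1))))
    (fun f => u ∈ Set.range f)
  rw [h2, Finset.card_univ, Fintype.card_fun, Fintype.card_fin, Fintype.card_fin] at h3
  set c := (univ.filter (fun f : Fin i → Fin (h + 1) => u ∈ Set.range f)).card with hc
  have h4 := bern h i
  have h5 : h ^ i ≤ (h + 1) ^ i := Nat.pow_le_pow_left (Nat.le_succ h) i
  -- `(c + h^i) = (h+1)^i`
  have h6 : c * (h + 1 + i) + h ^ i * (h + 1 + i) = (h + 1) ^ i * (h + 1 + i) := by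
    rw [← h3]; ring
  have h7 : h ^ i * (h + 1 + i) ≤ (h + 1) ^ i * (h + 1) := by
    calc h ^ i * (h + 1 + i) = h ^ i * (h + i) + h ^ i := by ring
      _ ≤ h * (h + 1) ^ i + (h + 1) ^ i := Nat.add_le_add h4 h5
      _ = (h + 1) ^ i * (h + 1) := by ring
  have h8 : (h + 1) ^ i * (h + 1 + i) = (h + 1) ^ i * (h + 1) + i * (h + 1) ^ i := by ring
  omega

/-- index type of the base cover -/
abbrev BIx (s : Finset (ℕ × ℕ)) (μ : ℕ × ℕ → ℕ) (g g' : ℕ) : Type :=
  Σ x : s, (Fin (μ x.1) × (Fin x.1.1 → Fin g) × (Fin x.1.2 → Fin g'))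

theorem count_sigma (s : Finset (ℕ × ℕ)) (μ : ℕ × ℕ → ℕ) (g g' : ℕ)
    (φ : (x : ℕ × ℕ) → (Fin x.1 → Fin g) → ℕ) (ψ : (x : ℕ × ℕ) → (Fin x.2 → Fin g') → ℕ) :
    ∑ k : BIx s μ g g', φ k.1.1 k.2.2.1 * ψ k.1.1 k.2.2.2 =
      ∑ x ∈ s, μ x * ((∑ f, φ x f) * (∑ f, ψ x f)) := by
  rw [Fintype.sum_sigma, ← Finset.sum_coe_sort s]
  refine Finset.sum_congr rfl (fun x _ => ?_)
  rw [Fintype.sum_prod_type]
  simp only [Finset.sum_const, Finset.card_univ, Fintype.card_fin, smul_eq_mul]
  congr 1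
  rw [Fintype.sum_prod_type, Finset.sum_mul_sum]

theorem count_filter (s : Finset (ℕ × ℕ)) (μ : ℕ × ℕ → ℕ) (g g' : ℕ)
    (P : (x : ℕ × ℕ) → (Fin x.1 → Fin g) → Prop) (Q : (x : ℕ × ℕ) → (Fin x.2 → Fin g') → Prop)
    [∀ x f, Decidable (P x f)] [∀ x f, Decidable (Q x f)]
    [DecidablePred (fun k : BIx s μ g g' => P k.1.1 k.2.2.1 ∧ Q k.1.1 k.2.2.2)] :
    (univ.filter (fun k : BIx s μ g g' => P k.1.1 k.2.2.1 ∧ Q k.1.1 k.2.2.2)).card =
      ∑ x ∈ s, μ x * ((univ.filter (fun f => P x f)).card * (univ.filter (fun f => Q x f)).card) := by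
  have h := count_sigma s μ g g' (fun x f => if P x f then 1 else 0)
    (fun x f => if Q x f then 1 else 0)
  simp only [Finset.card_filter]
  rw [← h]
  refine Finset.sum_congr rfl (fun k _ => ?_)
  by_cases hP : P k.1.1 k.2.2.1 <;> by_cases hQ : Q k.1.1 k.2.2.2 <;> simp [hP, hQ]

/-- Base cover for given multiplicities. -/
theorem base_cover (s : Finset (ℕ × ℕ)) (μ : ℕ × ℕ → ℕ) (g g' m r : ℕ) (hg : 0 < g) (hg' : 0 < g')
    (h1 : ∑ x ∈ s, ((μ x : ℝ) * ((x.1 : ℝ) * ((x.1 : ℝ) - 1)) * (g : ℝ) ^ x.1 * (g' : ℝ) ^ x.2 /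
      (g : ℝ) ^ 2 : ℝ) ≤ (m : ℝ))
    (h2 : ∑ x ∈ s, ((μ x : ℝ) * ((x.2 : ℝ) * ((x.2 : ℝ) - 1)) * (g : ℝ) ^ x.1 * (g' : ℝ) ^ x.2 /
      (g' : ℝ) ^ 2 : ℝ) ≤ (m : ℝ))
    (h3 : (r : ℝ) ≤ ∑ x ∈ s, ((μ x : ℝ) * ((x.1 : ℝ) * (x.2 : ℝ)) * (g : ℝ) ^ x.1 *
      (g' : ℝ) ^ x.2 / (((g : ℝ) + (x.1 : ℝ)) * ((g' : ℝ) + (x.2 : ℝ))) : ℝ)) :
    CovN g g' (∑ x ∈ s, μ x * (g ^ x.1 * g' ^ x.2)) m r := by
  classical
  let F : BIx s μ g g' → Finset (Fin g ⊕ Fin g') := fun k =>
    univ.filter (fun y => Sum.elim (fun u => u ∈ Set.range k.2.2.1) (fun w => w ∈ Set.range k.2.2.2) y)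
  have hFl : ∀ (k : BIx s μ g g') (u : Fin g), Sum.inl u ∈ F k ↔ u ∈ Set.range k.2.2.1 := by
    intro k u; simp [F]
  have hFr : ∀ (k : BIx s μ g g') (w : Fin g'), Sum.inr w ∈ F k ↔ w ∈ Set.range k.2.2.2 := by
    intro k w; simp [F]
  have hgR : (0 : ℝ) < g := by exact_mod_cast hg
  have hgR' : (0 : ℝ) < g' := by exact_mod_cast hg'
  have cast_mul_pred : ∀ i : ℕ, ((i * (i - 1) : ℕ) : ℝ) = (i : ℝ) * ((i : ℝ) - 1) := by
    intro i
    rcases Nat.eq_zero_or_pos i with h0 | h0
    · subst h0; simp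
    · push_cast [Nat.cast_sub (show 1 ≤ i from h0)]; ring
  have hAA : ∀ u u' : Fin g, u ≠ u' → cnt F (Sum.inl u) (Sum.inl u') ≤ m := by
    intro u u' huu
    have e1 : cnt F (Sum.inl u) (Sum.inl u') =
        (univ.filter (fun k : BIx s μ g g' => (u ∈ Set.range k.2.2.1 ∧ u' ∈ Set.range k.2.2.1) ∧ True)).card := by
      unfold cnt
      congr 1
      ext k
      simp only [Finset.mem_filter, Finset.mem_univ, true_and, hFl, and_true]
    rw [e1, count_filter s μ g g' (fun x f => u ∈ Set.range f ∧ u' ∈ Set.range f) (fun x f => True)]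
    have : ((∑ x ∈ s, μ x * ((univ.filter (fun f : Fin x.1 → Fin g =>
        u ∈ Set.range f ∧ u' ∈ Set.range f)).card * (univ.filter (fun f : Fin x.2 → Fin g' =>
        True)).card) : ℕ) : ℝ) ≤ m := by
      refine le_trans ?_ h1
      push_cast
      apply Finset.sum_le_sum
      intro x _
      have h4 := two_hits x.1 g u u' huu
      have h5 : ((univ.filter (fun f : Fin x.1 → Fin g =>
          u ∈ Set.range f ∧ u' ∈ Set.range f)).card : ℝ) * (g : ℝ) ^ 2 ≤
          ((x.1 : ℝ) * ((x.1 : ℝ) - 1)) * (g : ℝ) ^ x.1 := by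
        rw [← cast_mul_pred]
        exact_mod_cast h4
      have h6 : ((univ.filter (fun f : Fin x.2 → Fin g' => True)).card : ℝ) = (g' : ℝ) ^ x.2 := by
        simp
      rw [h6, le_div_iff₀ (by positivity)]
      calc (μ x : ℝ) * (((univ.filter (fun f : Fin x.1 → Fin g =>
          u ∈ Set.range f ∧ u' ∈ Set.range f)).card : ℝ) * (g' : ℝ) ^ x.2) * (g : ℝ) ^ 2
          = (μ x : ℝ) * (g' : ℝ) ^ x.2 * (((univ.filter (fun f : Fin x.1 → Fin g =>
          u ∈ Set.range f ∧ u' ∈ Set.range f)).card : ℝ) * (g : ℝ) ^ 2) := by ring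
        _ ≤ (μ x : ℝ) * (g' : ℝ) ^ x.2 * (((x.1 : ℝ) * ((x.1 : ℝ) - 1)) * (g : ℝ) ^ x.1) :=
            mul_le_mul_of_nonneg_left h5 (by positivity)
        _ = _ := by ring
    exact_mod_cast this
  have hBB : ∀ w w' : Fin g', w ≠ w' → cnt F (Sum.inr w) (Sum.inr w') ≤ m := by
    intro u u' huu
    have e1 : cnt F (Sum.inr u) (Sum.inr u') =
        (univ.filter (fun k : BIx s μ g g' => True ∧ (u ∈ Set.range k.2.2.2 ∧ u' ∈ Set.range k.2.2.2))).card := by
      unfold cnt
      congr 1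
      ext k
      simp only [Finset.mem_filter, Finset.mem_univ, true_and, hFr]
    rw [e1, count_filter s μ g g' (fun x f => True) (fun x f => u ∈ Set.range f ∧ u' ∈ Set.range f)]
    have : ((∑ x ∈ s, μ x * ((univ.filter (fun f : Fin x.1 → Fin g => True)).card *
        (univ.filter (fun f : Fin x.2 → Fin g' =>
        u ∈ Set.range f ∧ u' ∈ Set.range f)).card) : ℕ) : ℝ) ≤ m := by
      refine le_trans ?_ h2
      push_cast
      apply Finset.sum_le_sum
      intro x _
      have h4 := two_hits x.2 g' u u' huu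
      have h5 : ((univ.filter (fun f : Fin x.2 → Fin g' =>
          u ∈ Set.range f ∧ u' ∈ Set.range f)).card : ℝ) * (g' : ℝ) ^ 2 ≤
          ((x.2 : ℝ) * ((x.2 : ℝ) - 1)) * (g' : ℝ) ^ x.2 := by
        rw [← cast_mul_pred]
        exact_mod_cast h4
      have h6 : ((univ.filter (fun f : Fin x.1 → Fin g => True)).card : ℝ) = (g : ℝ) ^ x.1 := by
        simp
      rw [h6, le_div_iff₀ (by positivity)]
      calc (μ x : ℝ) * ((g : ℝ) ^ x.1 * ((univ.filter (fun f : Fin x.2 → Fin g' =>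
          u ∈ Set.range f ∧ u' ∈ Set.range f)).card : ℝ)) * (g' : ℝ) ^ 2
          = (μ x : ℝ) * (g : ℝ) ^ x.1 * (((univ.filter (fun f : Fin x.2 → Fin g' =>
          u ∈ Set.range f ∧ u' ∈ Set.range f)).card : ℝ) * (g' : ℝ) ^ 2) := by ring
        _ ≤ (μ x : ℝ) * (g : ℝ) ^ x.1 * (((x.2 : ℝ) * ((x.2 : ℝ) - 1)) * (g' : ℝ) ^ x.2) :=
            mul_le_mul_of_nonneg_left h5 (by positivity)
        _ = _ := by ring
    exact_mod_cast this
  have hAB : ∀ (u : Fin g) (w : Fin g'), r ≤ cnt F (Sum.inl u) (Sum.inr w) := by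
    intro u w
    have e1 : cnt F (Sum.inl u) (Sum.inr w) =
        (univ.filter (fun k : BIx s μ g g' => (u ∈ Set.range k.2.2.1) ∧ (w ∈ Set.range k.2.2.2))).card := by
      unfold cnt
      congr 1
      ext k
      simp only [Finset.mem_filter, Finset.mem_univ, true_and, hFl, hFr]
    rw [e1, count_filter s μ g g' (fun x f => u ∈ Set.range f) (fun x f => w ∈ Set.range f)]
    have : (r : ℝ) ≤ ((∑ x ∈ s, μ x * ((univ.filter (fun f : Fin x.1 → Fin g =>
        u ∈ Set.range f)).card * (univ.filter (fun f : Fin x.2 → Fin g' =>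
        w ∈ Set.range f)).card) : ℕ) : ℝ) := by
      refine le_trans h3 ?_
      push_cast
      apply Finset.sum_le_sum
      intro x _
      have h4 := one_hit x.1 g u
      have h5 := one_hit x.2 g' w
      set c := (univ.filter (fun f : Fin x.1 → Fin g => u ∈ Set.range f)).card
      set c' := (univ.filter (fun f : Fin x.2 → Fin g' => w ∈ Set.range f)).card
      have h4' : (x.1 : ℝ) * (g : ℝ) ^ x.1 ≤ (c : ℝ) * (g + x.1) := by exact_mod_cast h4
      have h5' : (x.2 : ℝ) * (g' : ℝ) ^ x.2 ≤ (c' : ℝ) * (g' + x.2) := by exact_mod_cast h5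
      rw [div_le_iff₀ (by positivity)]
      calc (μ x : ℝ) * (x.1 * x.2) * (g : ℝ) ^ x.1 * (g' : ℝ) ^ x.2
          = (μ x : ℝ) * (((x.1 : ℝ) * (g : ℝ) ^ x.1) * ((x.2 : ℝ) * (g' : ℝ) ^ x.2)) := by ring
        _ ≤ (μ x : ℝ) * (((c : ℝ) * (g + x.1)) * ((c' : ℝ) * (g' + x.2))) := by
            apply mul_le_mul_of_nonneg_left _ (by positivity)
            exact mul_le_mul h4' h5' (by positivity) (by positivity)
        _ = _ := by ring
    exact_mod_cast this
  refine ⟨BIx s μ g g', inferInstance, F, ?_, ?_⟩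
  · rw [Fintype.card_sigma, ← Finset.sum_coe_sort s]
    apply le_of_eq
    refine Finset.sum_congr rfl (fun x _ => ?_)
    rw [Fintype.card_prod, Fintype.card_prod, Fintype.card_fun, Fintype.card_fun]
    simp
  · rintro (x | x) (y | y) hxy
    · exact ⟨fun _ => hAA x y (fun h => hxy (by rw [h])), fun h => absurd rfl h⟩
    · refine ⟨fun h => ?_, fun _ => hAB x y⟩
      simp at h
    · refine ⟨fun h => ?_, fun _ => ?_⟩
      · simp at h
      · rw [cnt_comm]; exact hAB y x
    · exact ⟨fun _ => hBB x y (fun h => hxy (by rw [h])), fun h => absurd rfl h⟩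

end Pool.Agent.Lib_helper78.PI
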