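import Pool.Agent.Lib_helper78.PI.Limit

/-!
Reduction of the linear program to a finite box of types.
-/

set_option autoImplicit false

namespace Pool.Agent.Lib_helper78.PI

open Finset Filter Topology

/-- linear functional given by values on the types -/
noncomputable def lin (β : ℕ × ℕ → ℝ) : (ℕ × ℕ →₀ ℝ) →ₗ[ℝ] ℝ := Finsupp.linearCombination ℝ β

theorem lin_eq (β : ℕ × ℕ → ℝ) (w : ℕ × ℕ →₀ ℝ) : lin β w = w.sum fun x c => c * β x := by
  rw [lin, Finsupp.linearCombination_apply]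
  rfl

theorem lin_single (β : ℕ × ℕ → ℝ) (x : ℕ × ℕ) (c : ℝ) : lin β (Finsupp.single x c) = c * β x := by
  rw [lin_eq, fsum_single]

/-- `i j` -/
def fP : ℕ × ℕ → ℝ := fun x => (x.1 : ℝ) * (x.2 : ℝ)
/-- `i (i - 1)` -/
def fI : ℕ × ℕ → ℝ := fun x => (x.1 : ℝ) * ((x.1 : ℝ) - 1)
/-- `j (j - 1)` -/
def fJ : ℕ × ℕ → ℝ := fun x => (x.2 : ℝ) * ((x.2 : ℝ) - 1)
/-- `1` -/
def fT : ℕ × ℕ → ℝ := fun _ => 1

theorem nat_consec_nonneg (i : ℕ) : (0 : ℝ) ≤ (i : ℝ) * ((i : ℝ) - 1) := by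
  rcases Nat.eq_zero_or_pos i with h0 | h0
  · subst h0; simp
  · have : (1 : ℝ) ≤ i := by exact_mod_cast h0
    exact mul_nonneg (by linarith) (by linarith)

theorem lin_nonneg {β : ℕ × ℕ → ℝ} (hβ : ∀ x, 0 ≤ β x) {w : ℕ × ℕ →₀ ℝ} (hw : ∀ x, 0 ≤ w x) :
    0 ≤ lin β w := by
  rw [lin_eq, Finsupp.sum]
  exact Finset.sum_nonneg (fun x _ => mul_nonneg (hw x) (hβ x))

/-- halving identities -/
theorem half_consec (i : ℕ) (hi : 1 ≤ i) :
    2 * ((((i + 1) / 2 : ℕ) : ℝ) * ((((i + 1) / 2 : ℕ) : ℝ) - 1) +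
      (((i / 2 : ℕ) : ℝ) * (((i / 2 : ℕ) : ℝ) - 1))) ≤ (i : ℝ) * ((i : ℝ) - 1) - ((i : ℝ) - 1) := by
  rcases Nat.even_or_odd' i with ⟨c, rfl | rfl⟩
  · have h1 : (2 * c + 1) / 2 = c := by omega
    have h2 : (2 * c) / 2 = c := by omega
    rw [h1, h2]
    have : (1 : ℝ) ≤ c := by
      have : 1 ≤ c := by omega
      exact_mod_cast this
    push_cast
    nlinarith
  · have h1 : (2 * c + 1 + 1) / 2 = c + 1 := by omega
    have h2 : (2 * c + 1) / 2 = c := by omega
    rw [h1, h2]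
    push_cast
    nlinarith

theorem half_consec' (i : ℕ) :
    2 * ((((i + 1) / 2 : ℕ) : ℝ) * ((((i + 1) / 2 : ℕ) : ℝ) - 1) +
      (((i / 2 : ℕ) : ℝ) * (((i / 2 : ℕ) : ℝ) - 1))) ≤ (i : ℝ) * ((i : ℝ) - 1) := by
  rcases Nat.eq_zero_or_pos i with h0 | h0
  · subst h0; simp
  · have h1 := half_consec i h0
    have : (1 : ℝ) ≤ i := by exact_mod_cast h0
    linarith

theorem half_prod (i j : ℕ) :
    (i : ℝ) * (j : ℝ) ≤ 2 * ((((i + 1) / 2 : ℕ) : ℝ) * (((j + 1) / 2 : ℕ) : ℝ) +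
      ((i / 2 : ℕ) : ℝ) * ((j / 2 : ℕ) : ℝ)) := by
  rcases Nat.even_or_odd' i with ⟨c, rfl | rfl⟩ <;> rcases Nat.even_or_odd' j with ⟨d, rfl | rfl⟩
  · have h1 : (2 * c + 1) / 2 = c := by omega
    have h2 : (2 * c) / 2 = c := by omega
    have h3 : (2 * d + 1) / 2 = d := by omega
    have h4 : (2 * d) / 2 = d := by omega
    rw [h1, h2, h3, h4]
    push_cast
    nlinarith
  · have h1 : (2 * c + 1) / 2 = c := by omega
    have h2 : (2 * c) / 2 = c := by omega
    have h3 : (2 * d + 1 + 1) / 2 = d + 1 := by omega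
    have h4 : (2 * d + 1) / 2 = d := by omega
    rw [h1, h2, h3, h4]
    push_cast
    nlinarith
  · have h1 : (2 * c + 1 + 1) / 2 = c + 1 := by omega
    have h2 : (2 * c + 1) / 2 = c := by omega
    have h3 : (2 * d + 1) / 2 = d := by omega
    have h4 : (2 * d) / 2 = d := by omega
    rw [h1, h2, h3, h4]
    push_cast
    nlinarith
  · have h1 : (2 * c + 1 + 1) / 2 = c + 1 := by omega
    have h2 : (2 * c + 1) / 2 = c := by omega
    have h3 : (2 * d + 1 + 1) / 2 = d + 1 := by omega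
    have h4 : (2 * d + 1) / 2 = d := by omega
    rw [h1, h2, h3, h4]
    push_cast
    nlinarith

/-- Every type can be replaced by types in the box. -/
theorem split_type (B : ℕ) (hB : 1 ≤ B) (κ : ℝ) (hκ : 0 ≤ κ) (hκB : 3 ≤ κ * B) :
    ∀ (n : ℕ) (x : ℕ × ℕ), x.1 + x.2 ≤ n → ∃ h : ℕ × ℕ →₀ ℝ, (∀ y, 0 ≤ h y) ∧
      (∀ y, h y ≠ 0 → y.1 ≤ B ∧ y.2 ≤ B) ∧ fP x ≤ lin fP h ∧ lin fI h ≤ fI x ∧ lin fJ h ≤ fJ x ∧
      lin fT h + κ * (lin fI h + lin fJ h) ≤ 1 + κ * (fI x + fJ x) := by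
  intro n
  induction n with
  | zero =>
    intro x hx
    refine ⟨Finsupp.single x 1, ?_, ?_, ?_, ?_, ?_, ?_⟩
    · intro y
      rw [Finsupp.single_apply]; split_ifs <;> norm_num
    · intro y hy
      rw [Finsupp.single_apply] at hy
      split_ifs at hy with h
      · subst h; omega
      · exact absurd rfl hy
    all_goals simp [lin_single, fT]
  | succ n ih =>
    intro x hx
    by_cases hin : x.1 ≤ B ∧ x.2 ≤ B
    · refine ⟨Finsupp.single x 1, ?_, ?_, ?_, ?_, ?_, ?_⟩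
      · intro y
        rw [Finsupp.single_apply]; split_ifs <;> norm_num
      · intro y hy
        rw [Finsupp.single_apply] at hy
        split_ifs at hy with h
        · subst h; exact hin
        · exact absurd rfl hy
      all_goals simp [lin_single, fT]
    · have hout : B < x.1 ∨ B < x.2 := by omega
      obtain ⟨i, j⟩ := x
      simp only at hx hin hout
      obtain ⟨h₁, h₁n, h₁s, h₁P, h₁I, h₁J, h₁T⟩ := ih ((i + 1) / 2, (j + 1) / 2) (by simp only; omega)
      obtain ⟨h₂, h₂n, h₂s, h₂P, h₂I, h₂J, h₂T⟩ := ih (i / 2, j / 2) (by simp only; omega)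
      refine ⟨(2 : ℝ) • (h₁ + h₂), ?_, ?_, ?_, ?_, ?_, ?_⟩
      · intro y
        have e1 := h₁n y
        have e2 := h₂n y
        simp only [Finsupp.smul_apply, Finsupp.add_apply, smul_eq_mul]
        linarith
      · intro y hy
        by_cases hy1 : h₁ y = 0
        · by_cases hy2 : h₂ y = 0
          · exact absurd (by simp [hy1, hy2]) hy
          · exact h₂s y hy2
        · exact h₁s y hy1
      · rw [map_smul, map_add, smul_eq_mul]
        have := half_prod i j
        simp only [fP] at h₁P h₂P ⊢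
        linarith
      · rw [map_smul, map_add, smul_eq_mul]
        have := half_consec' i
        simp only [fI] at h₁I h₂I ⊢
        linarith
      · rw [map_smul, map_add, smul_eq_mul]
        have := half_consec' j
        simp only [fJ] at h₁J h₂J ⊢
        linarith
      · rw [map_smul, map_add, map_smul, map_add, map_smul, map_add]
        simp only [smul_eq_mul]
        have key : κ * (2 * (fI ((i + 1) / 2, (j + 1) / 2) + fI (i / 2, j / 2)) +
            2 * (fJ ((i + 1) / 2, (j + 1) / 2) + fJ (i / 2, j / 2))) + 3 ≤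
            κ * (fI (i, j) + fJ (i, j)) := by
          have a1 := half_consec' i
          have a2 := half_consec' j
          simp only [fI, fJ]
          rcases hout with h | h
          · have a3 := half_consec i (by omega)
            have h' : ((B : ℕ) : ℝ) ≤ (i : ℝ) - 1 := by
              have : B + 1 ≤ i := h
              have : ((B + 1 : ℕ) : ℝ) ≤ i := by exact_mod_cast this
              push_cast at this
              linarith
            have a4 : κ * B ≤ κ * ((i : ℝ) - 1) := mul_le_mul_of_nonneg_left h' hκ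
            have a5 : κ * (2 * ((((i + 1) / 2 : ℕ) : ℝ) * ((((i + 1) / 2 : ℕ) : ℝ) - 1) +
              (((i / 2 : ℕ) : ℝ) * (((i / 2 : ℕ) : ℝ) - 1))) +
              2 * ((((j + 1) / 2 : ℕ) : ℝ) * ((((j + 1) / 2 : ℕ) : ℝ) - 1) +
              (((j / 2 : ℕ) : ℝ) * (((j / 2 : ℕ) : ℝ) - 1)))) ≤
              κ * ((i : ℝ) * ((i : ℝ) - 1) - ((i : ℝ) - 1) + (j : ℝ) * ((j : ℝ) - 1)) :=
              mul_le_mul_of_nonneg_left (by linarith) hκ
            nlinarith
          · have a3 := half_consec j (by omega)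
            have h' : ((B : ℕ) : ℝ) ≤ (j : ℝ) - 1 := by
              have : B + 1 ≤ j := h
              have : ((B + 1 : ℕ) : ℝ) ≤ j := by exact_mod_cast this
              push_cast at this
              linarith
            have a4 : κ * B ≤ κ * ((j : ℝ) - 1) := mul_le_mul_of_nonneg_left h' hκ
            have a5 : κ * (2 * ((((i + 1) / 2 : ℕ) : ℝ) * ((((i + 1) / 2 : ℕ) : ℝ) - 1) +
              (((i / 2 : ℕ) : ℝ) * (((i / 2 : ℕ) : ℝ) - 1))) +
              2 * ((((j + 1) / 2 : ℕ) : ℝ) * ((((j + 1) / 2 : ℕ) : ℝ) - 1) +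
              (((j / 2 : ℕ) : ℝ) * (((j / 2 : ℕ) : ℝ) - 1)))) ≤
              κ * ((i : ℝ) * ((i : ℝ) - 1) + ((j : ℝ) * ((j : ℝ) - 1) - ((j : ℝ) - 1))) :=
              mul_le_mul_of_nonneg_left (by linarith) hκ
            nlinarith
        linarith

end Pool.Agent.Lib_helper78.PI
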