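import Pool.Agent.Lib_helper78.PI.Box
import Mathlib.Topology.Order.Compact

/-!
Reduction of the linear program to a finite box of types, continued.
-/

set_option autoImplicit false

namespace Pool.Agent.Lib_helper78.PI

open Finset Filter Topology

/-- the auxiliary size -/
noncomputable def auxSize (p : ℕ) (lam : ℝ) : ℕ := ⌈2 * (p : ℝ) ^ 2 * (1 + lam) * (1 + 1 / lam)⌉₊

theorem auxSize_ge (p : ℕ) (lam : ℝ) :
    2 * (p : ℝ) ^ 2 * (1 + lam) * (1 + 1 / lam) ≤ auxSize p lam := Nat.le_ceil _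

theorem auxSize_spec {p : ℕ} (hp : 1 ≤ p) {lam : ℝ} (hl : 0 < lam) :
    2 * (p : ℝ) / auxSize p lam ≤ lpValue p lam ∧ lam + 1 / lam + 4 ≤ auxSize p lam := by
  have hpR : (1 : ℝ) ≤ p := by exact_mod_cast hp
  have hm := auxSize_ge p lam
  set m : ℝ := (auxSize p lam : ℝ) with hmdef
  have hinv : 0 < 1 / lam := by positivity
  have h0 : 2 * (p : ℝ) ^ 2 * (1 + lam) * (1 + 1 / lam) =
      2 * (p : ℝ) ^ 2 * (2 + lam + 1 / lam) := by
    field_simp
    ring
  have h1 : 2 * (2 + lam + 1 / lam) ≤ 2 * (p : ℝ) ^ 2 * (2 + lam + 1 / lam) := by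
    have : (1 : ℝ) ≤ (p : ℝ) ^ 2 := one_le_pow₀ hpR
    have h2 : (0 : ℝ) ≤ 2 + lam + 1 / lam := by positivity
    nlinarith
  have hm4 : lam + 1 / lam + 4 ≤ m := by
    linarith
  have hmpos : 0 < m := by linarith
  refine ⟨?_, hm4⟩
  refine le_trans ?_ (lpValue_lower hp hl)
  have hA : (p : ℝ) + (p - 1) * lam ≤ p * (1 + lam) := by nlinarith
  have hB : (p : ℝ) + (p - 1) / lam ≤ p * (1 + 1 / lam) := by
    have : ((p : ℝ) - 1) / lam = (p - 1) * (1 / lam) := by ring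
    rw [this]; nlinarith
  have hA0 : 0 < (p : ℝ) + (p - 1) * lam := by
    have : 0 ≤ ((p : ℝ) - 1) * lam := mul_nonneg (by linarith) hl.le
    linarith
  have hB0 : 0 < (p : ℝ) + (p - 1) / lam := by
    have : 0 ≤ ((p : ℝ) - 1) / lam := div_nonneg (by linarith) hl.le
    linarith
  rw [div_le_div_iff₀ hmpos (by positivity)]
  calc 2 * (p : ℝ) * (p * (p + (p - 1) * lam) * (p + (p - 1) / lam))
      = 2 * (p : ℝ) ^ 2 * ((p + (p - 1) * lam) * (p + (p - 1) / lam)) := by ring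
    _ ≤ 2 * (p : ℝ) ^ 2 * ((p * (1 + lam)) * (p * (1 + 1 / lam))) := by
        apply mul_le_mul_of_nonneg_left _ (by positivity)
        exact mul_le_mul hA hB hB0.le (by positivity)
    _ = (p : ℝ) ^ 2 * (2 * (p : ℝ) ^ 2 * (1 + lam) * (1 + 1 / lam)) := by ring
    _ ≤ (p : ℝ) ^ 2 * m := mul_le_mul_of_nonneg_left hm (by positivity)
    _ ≤ (2 * p - 1) ^ 2 * m := by
        apply mul_le_mul_of_nonneg_right _ hmpos.le
        nlinarith

theorem feasible_iff {p : ℕ} {lam : ℝ} {w : ℕ × ℕ →₀ ℝ} : Feasible p lam w ↔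
    (∀ x, 0 ≤ w x) ∧ (p : ℝ) ≤ lin fP w ∧ lin fI w ≤ ((p : ℝ) - 1) * lam ∧
      lin fJ w ≤ ((p : ℝ) - 1) / lam := by
  rw [lin_eq, lin_eq, lin_eq]
  constructor
  · intro h
    exact ⟨h.nonneg, h.cross, h.left, h.right⟩
  · rintro ⟨h1, h2, h3, h4⟩
    exact ⟨h1, h2, h3, h4⟩

theorem total_eq (w : ℕ × ℕ →₀ ℝ) : (w.sum fun _ c => c) = lin fT w := by
  rw [lin_eq]
  simp [fT]

/-- Every feasible point can be replaced by one in the box which is at least as good. -/
theorem to_box {p : ℕ} (hp : 1 ≤ p) {lam : ℝ} (hl : 0 < lam) (B : ℕ)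
    (hB : 3 * auxSize p lam ^ 2 ≤ B) {w : ℕ × ℕ →₀ ℝ} (hw : Feasible p lam w) :
    ∃ w' : ℕ × ℕ →₀ ℝ, Feasible p lam w' ∧ (∀ y, w' y ≠ 0 → y.1 ≤ B ∧ y.2 ≤ B) ∧
      lin fT w' ≤ lin fT w := by
  obtain ⟨hm1, hm2⟩ := auxSize_spec hp hl
  have hpR : (1 : ℝ) ≤ p := by exact_mod_cast hp
  set m : ℕ := auxSize p lam with hm
  have hinv : 0 < 1 / lam := by positivity
  have hmR : (4 : ℝ) ≤ m := by linarith
  have hm0 : (0 : ℝ) < m := by linarith
  have hm4 : 4 ≤ m := by exact_mod_cast hmR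
  set κ : ℝ := 1 / ((m : ℝ) * (m - 1)) with hκ
  have hmm : (0 : ℝ) < (m : ℝ) * (m - 1) := mul_pos hm0 (by linarith)
  have hκ0 : 0 < κ := by positivity
  have hB1 : 1 ≤ B := by nlinarith
  have hBm : m ≤ B := by nlinarith
  have hκB : 3 ≤ κ * B := by
    have h1 : 3 * (m : ℝ) ^ 2 ≤ B := by exact_mod_cast hB
    rw [hκ, one_div, inv_mul_eq_div, le_div_iff₀ hmm]
    nlinarith
  have hsp : ∀ x : ℕ × ℕ, ∃ h : ℕ × ℕ →₀ ℝ, (∀ y, 0 ≤ h y) ∧
      (∀ y, h y ≠ 0 → y.1 ≤ B ∧ y.2 ≤ B) ∧ fP x ≤ lin fP h ∧ lin fI h ≤ fI x ∧ lin fJ h ≤ fJ x ∧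
      lin fT h + κ * (lin fI h + lin fJ h) ≤ 1 + κ * (fI x + fJ x) := fun x =>
    split_type B hB1 κ hκ0.le hκB (x.1 + x.2) x le_rfl
  choose h hn hs hP hI hJ hT using hsp
  rw [feasible_iff] at hw
  obtain ⟨hw0, hwP, hwI, hwJ⟩ := hw
  -- the first replacement
  let w1 : ℕ × ℕ →₀ ℝ := ∑ x ∈ w.support, w x • h x
  have hlin : ∀ β : ℕ × ℕ → ℝ, lin β w1 = ∑ x ∈ w.support, w x * lin β (h x) := by
    intro β
    simp only [w1]
    rw [map_sum]
    refine Finset.sum_congr rfl (fun x _ => ?_)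
    rw [map_smul, smul_eq_mul]
  have hlinw : ∀ β : ℕ × ℕ → ℝ, lin β w = ∑ x ∈ w.support, w x * β x := by
    intro β
    rw [lin_eq, Finsupp.sum]
  have hw1n : ∀ y, 0 ≤ w1 y := by
    intro y
    simp only [w1, Finsupp.finsetSum_apply, Finsupp.smul_apply, smul_eq_mul]
    exact Finset.sum_nonneg (fun x _ => mul_nonneg (hw0 x) (hn x y))
  have hw1s : ∀ y, w1 y ≠ 0 → y.1 ≤ B ∧ y.2 ≤ B := by
    intro y hy
    by_contra hcon
    apply hy
    simp only [w1, Finsupp.finsetSum_apply, Finsupp.smul_apply, smul_eq_mul]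
    apply Finset.sum_eq_zero
    intro x _
    by_cases h0 : h x y = 0
    · rw [h0, mul_zero]
    · exact absurd (hs x y h0) hcon
  have hP1 : lin fP w ≤ lin fP w1 := by
    rw [hlin, hlinw]
    exact Finset.sum_le_sum (fun x _ => mul_le_mul_of_nonneg_left (hP x) (hw0 x))
  have hI1 : lin fI w1 ≤ lin fI w := by
    rw [hlin, hlinw]
    exact Finset.sum_le_sum (fun x _ => mul_le_mul_of_nonneg_left (hI x) (hw0 x))
  have hJ1 : lin fJ w1 ≤ lin fJ w := by
    rw [hlin, hlinw]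
    exact Finset.sum_le_sum (fun x _ => mul_le_mul_of_nonneg_left (hJ x) (hw0 x))
  have hT1 : lin fT w1 + κ * (lin fI w1 + lin fJ w1) ≤ lin fT w + κ * (lin fI w + lin fJ w) := by
    rw [hlin, hlin, hlin, hlinw, hlinw, hlinw, ← Finset.sum_add_distrib, ← Finset.sum_add_distrib,
      Finset.mul_sum, Finset.mul_sum, ← Finset.sum_add_distrib, ← Finset.sum_add_distrib]
    refine Finset.sum_le_sum (fun x _ => ?_)
    have := mul_le_mul_of_nonneg_left (hT x) (hw0 x)
    simp only [fT]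
    nlinarith
  have hI0 : 0 ≤ lin fI w1 := lin_nonneg (fun x => nat_consec_nonneg _) hw1n
  have hJ0 : 0 ≤ lin fJ w1 := lin_nonneg (fun x => nat_consec_nonneg _) hw1n
  -- the savings
  set σI : ℝ := lin fI w - lin fI w1 with hσI
  set σJ : ℝ := lin fJ w - lin fJ w1 with hσJ
  have hσI0 : 0 ≤ σI := by linarith
  have hσJ0 : 0 ≤ σJ := by linarith
  have hfeas1 : Feasible p lam w1 := by
    rw [feasible_iff]
    exact ⟨hw1n, by linarith, by linarith, by linarith⟩
  have htot1 : 2 * (p : ℝ) / m ≤ lin fT w1 := by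
    refine le_trans hm1 ?_
    rw [← total_eq]
    exact lpValue_le hfeas1
  set ε₁ : ℝ := κ * σI with hε₁
  set ε₂ : ℝ := κ * σJ with hε₂
  have hε₁0 : 0 ≤ ε₁ := mul_nonneg hκ0.le hσI0
  have hε₂0 : 0 ≤ ε₂ := mul_nonneg hκ0.le hσJ0
  set θ : ℝ := (ε₁ + ε₂) * m / p with hθ
  have hθ0 : 0 ≤ θ := by positivity
  have hθ1 : θ ≤ 1 := by
    rw [hθ, div_le_one (by linarith)]
    have h1 : σI + σJ ≤ (p - 1) * (lam + 1 / lam) := by
      have : ((p : ℝ) - 1) / lam = (p - 1) * (1 / lam) := by ring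
      rw [this] at hwJ
      linarith
    have h2 : (ε₁ + ε₂) * m = (σI + σJ) / (m - 1) := by
      have hm1' : (m : ℝ) - 1 ≠ 0 := by linarith
      rw [hε₁, hε₂, hκ]
      field_simp
    rw [h2, div_le_iff₀ (by linarith)]
    calc σI + σJ ≤ (p - 1) * (lam + 1 / lam) := h1
      _ ≤ (p : ℝ) * (m - 1) := by
          apply mul_le_mul (by linarith) (by linarith) (by positivity) (by linarith)
  refine ⟨(1 - θ) • w1 + Finsupp.single (m, 1) ε₁ + Finsupp.single (1, m) ε₂, ?_, ?_, ?_⟩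
  · rw [feasible_iff]
    refine ⟨?_, ?_, ?_, ?_⟩
    · intro x
      have e1 : 0 ≤ (1 - θ) * w1 x := mul_nonneg (by linarith) (hw1n x)
      have e2 : (0 : ℝ) ≤ Finsupp.single ((m, 1) : ℕ × ℕ) ε₁ x := by
        rw [Finsupp.single_apply]; split_ifs
        · exact hε₁0
        · exact le_rfl
      have e3 : (0 : ℝ) ≤ Finsupp.single ((1, m) : ℕ × ℕ) ε₂ x := by
        rw [Finsupp.single_apply]; split_ifs
        · exact hε₂0
        · exact le_rfl
      simp only [Finsupp.add_apply, Finsupp.smul_apply, smul_eq_mul]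
      linarith
    · rw [map_add, map_add, map_smul, lin_single, lin_single, smul_eq_mul]
      simp only [fP, Nat.cast_one, mul_one, one_mul]
      have h1 : (1 - θ) * p ≤ (1 - θ) * lin fP w1 :=
        mul_le_mul_of_nonneg_left (by linarith) (by linarith)
      have h2 : θ * p = (ε₁ + ε₂) * m := by
        rw [hθ, div_mul_cancel₀ _ (by linarith)]
      linarith
    · rw [map_add, map_add, map_smul, lin_single, lin_single, smul_eq_mul]
      have h1 : (1 - θ) * lin fI w1 ≤ lin fI w1 := by nlinarith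
      have h2 : ε₁ * fI (m, 1) = σI := by
        have hm1' : (m : ℝ) - 1 ≠ 0 := by linarith
        rw [hε₁, hκ]
        simp only [fI]
        field_simp
      have h3 : ε₂ * fI (1, m) = 0 := by simp [fI]
      rw [h2, h3]
      linarith
    · rw [map_add, map_add, map_smul, lin_single, lin_single, smul_eq_mul]
      have h1 : (1 - θ) * lin fJ w1 ≤ lin fJ w1 := by nlinarith
      have h2 : ε₂ * fJ (1, m) = σJ := by
        have hm1' : (m : ℝ) - 1 ≠ 0 := by linarith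
        rw [hε₂, hκ]
        simp only [fJ]
        field_simp
      have h3 : ε₁ * fJ (m, 1) = 0 := by simp [fJ]
      rw [h2, h3]
      linarith
  · intro y hy
    simp only [Finsupp.add_apply, Finsupp.smul_apply, smul_eq_mul] at hy
    by_cases h1 : w1 y = 0
    · rw [h1, mul_zero, zero_add, Finsupp.single_apply, Finsupp.single_apply] at hy
      by_cases h2 : (m, 1) = y
      · rw [← h2]; exact ⟨hBm, hB1⟩
      · by_cases h3 : (1, m) = y
        · rw [← h3]; exact ⟨hB1, hBm⟩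
        · rw [if_neg h2, if_neg h3] at hy
          simp at hy
    · exact hw1s y h1
  · rw [map_add, map_add, map_smul, lin_single, lin_single, smul_eq_mul]
    simp only [fT, mul_one]
    have h1 : 2 * (ε₁ + ε₂) ≤ θ * lin fT w1 := by
      have h2 : θ * (2 * (p : ℝ) / m) = 2 * (ε₁ + ε₂) := by
        rw [hθ]; field_simp
      rw [← h2]
      exact mul_le_mul_of_nonneg_left htot1 hθ0
    have h3 : lin fT w1 + (ε₁ + ε₂) * (-1) ≤ lin fT w := by
      rw [hε₁, hε₂, hσI, hσJ]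
      linarith
    linarith

end Pool.Agent.Lib_helper78.PI
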