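import Pool.Agent.Lib_helper78.PI.Limit

/-!
Closed forms of the value of the linear program.
-/

set_option autoImplicit false

namespace Pool.Agent.Lib_helper78.PI

open Finset Filter Topology

/-- weak duality -/
theorem dual_bound {p : ℕ} (hp : 1 ≤ p) {lam : ℝ} (hl : 0 < lam) (y u v : ℝ) (hy : 0 ≤ y)
    (hu : 0 ≤ u) (hv : 0 ≤ v)
    (hf : ∀ i j : ℕ, y * ((i : ℝ) * (j : ℝ)) ≤
      1 + u * ((i : ℝ) * ((i : ℝ) - 1)) + v * ((j : ℝ) * ((j : ℝ) - 1))) :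
    p * y - ((p : ℝ) - 1) * (u * lam + v / lam) ≤ lpValue p lam := by
  refine le_lpValue hp hl (fun w hw => ?_)
  have hcross := hw.cross
  have hleft := hw.left
  have hright := hw.right
  rw [fsum_eq w w.support subset_rfl (fun x => (x.1 : ℝ) * (x.2 : ℝ))] at hcross
  rw [fsum_eq w w.support subset_rfl (fun x => (x.1 : ℝ) * ((x.1 : ℝ) - 1))] at hleft
  rw [fsum_eq w w.support subset_rfl (fun x => (x.2 : ℝ) * ((x.2 : ℝ) - 1))] at hright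
  rw [fsum_one w w.support subset_rfl]
  have hsum : y * ∑ x ∈ w.support, w x * ((x.1 : ℝ) * (x.2 : ℝ)) ≤
      ∑ x ∈ w.support, w x +
      u * ∑ x ∈ w.support, w x * ((x.1 : ℝ) * ((x.1 : ℝ) - 1)) +
      v * ∑ x ∈ w.support, w x * ((x.2 : ℝ) * ((x.2 : ℝ) - 1)) := by
    rw [Finset.mul_sum, Finset.mul_sum, Finset.mul_sum, ← Finset.sum_add_distrib,
      ← Finset.sum_add_distrib]
    refine Finset.sum_le_sum (fun x _ => ?_)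
    have := mul_le_mul_of_nonneg_left (hf x.1 x.2) (hw.nonneg x)
    linarith
  have h1 : y * p ≤ y * ∑ x ∈ w.support, w x * ((x.1 : ℝ) * (x.2 : ℝ)) :=
    mul_le_mul_of_nonneg_left hcross hy
  have h2 : u * ∑ x ∈ w.support, w x * ((x.1 : ℝ) * ((x.1 : ℝ) - 1)) ≤
      u * (((p : ℝ) - 1) * lam) := mul_le_mul_of_nonneg_left hleft hu
  have h3 : v * ∑ x ∈ w.support, w x * ((x.2 : ℝ) * ((x.2 : ℝ) - 1)) ≤
      v * (((p : ℝ) - 1) / lam) := mul_le_mul_of_nonneg_left hright hv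
  have h4 : ((p : ℝ) - 1) * (u * lam + v / lam) =
      u * (((p : ℝ) - 1) * lam) + v * (((p : ℝ) - 1) / lam) := by ring
  linarith

/-- four types -/
theorem primal_bound {p : ℕ} {lam : ℝ} (P₁ P₂ P₃ P₄ : ℕ × ℕ) (c₁ c₂ c₃ c₄ : ℝ)
    (h₁ : 0 ≤ c₁) (h₂ : 0 ≤ c₂) (h₃ : 0 ≤ c₃) (h₄ : 0 ≤ c₄)
    (hc : (p : ℝ) ≤ c₁ * ((P₁.1 : ℝ) * P₁.2) + c₂ * ((P₂.1 : ℝ) * P₂.2) +
      c₃ * ((P₃.1 : ℝ) * P₃.2) + c₄ * ((P₄.1 : ℝ) * P₄.2))
    (hL : c₁ * ((P₁.1 : ℝ) * (P₁.1 - 1)) + c₂ * ((P₂.1 : ℝ) * (P₂.1 - 1)) +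
      c₃ * ((P₃.1 : ℝ) * (P₃.1 - 1)) + c₄ * ((P₄.1 : ℝ) * (P₄.1 - 1)) ≤ ((p : ℝ) - 1) * lam)
    (hR : c₁ * ((P₁.2 : ℝ) * (P₁.2 - 1)) + c₂ * ((P₂.2 : ℝ) * (P₂.2 - 1)) +
      c₃ * ((P₃.2 : ℝ) * (P₃.2 - 1)) + c₄ * ((P₄.2 : ℝ) * (P₄.2 - 1)) ≤ ((p : ℝ) - 1) / lam) :
    lpValue p lam ≤ c₁ + c₂ + c₃ + c₄ := by
  have hs : ∀ (P : ℕ × ℕ) (c : ℝ), 0 ≤ c → ∀ x, (0 : ℝ) ≤ Finsupp.single P c x := by
    intro P c hc x
    rw [Finsupp.single_apply]; split_ifs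
    · exact hc
    · exact le_rfl
  have hf : Feasible p lam (Finsupp.single P₁ c₁ + Finsupp.single P₂ c₂ + Finsupp.single P₃ c₃ +
      Finsupp.single P₄ c₄) := by
    refine ⟨?_, ?_, ?_, ?_⟩
    · intro x
      simp only [Finsupp.add_apply]
      have e1 := hs P₁ c₁ h₁ x
      have e2 := hs P₂ c₂ h₂ x
      have e3 := hs P₃ c₃ h₃ x
      have e4 := hs P₄ c₄ h₄ x
      linarith
    · rw [fsum_add, fsum_add, fsum_add, fsum_single P₁ c₁ (fun x => (x.1 : ℝ) * (x.2 : ℝ)),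
        fsum_single P₂ c₂ (fun x => (x.1 : ℝ) * (x.2 : ℝ)),
        fsum_single P₃ c₃ (fun x => (x.1 : ℝ) * (x.2 : ℝ)),
        fsum_single P₄ c₄ (fun x => (x.1 : ℝ) * (x.2 : ℝ))]
      exact hc
    · rw [fsum_add, fsum_add, fsum_add, fsum_single P₁ c₁ (fun x => (x.1 : ℝ) * ((x.1 : ℝ) - 1)),
        fsum_single P₂ c₂ (fun x => (x.1 : ℝ) * ((x.1 : ℝ) - 1)),
        fsum_single P₃ c₃ (fun x => (x.1 : ℝ) * ((x.1 : ℝ) - 1)),
        fsum_single P₄ c₄ (fun x => (x.1 : ℝ) * ((x.1 : ℝ) - 1))]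
      exact hL
    · rw [fsum_add, fsum_add, fsum_add, fsum_single P₁ c₁ (fun x => (x.2 : ℝ) * ((x.2 : ℝ) - 1)),
        fsum_single P₂ c₂ (fun x => (x.2 : ℝ) * ((x.2 : ℝ) - 1)),
        fsum_single P₃ c₃ (fun x => (x.2 : ℝ) * ((x.2 : ℝ) - 1)),
        fsum_single P₄ c₄ (fun x => (x.2 : ℝ) * ((x.2 : ℝ) - 1))]
      exact hR
  have := lpValue_le hf
  rw [fsum_add_one, fsum_add_one, fsum_add_one, fsum_single_one, fsum_single_one,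
    fsum_single_one, fsum_single_one] at this
  exact this

/-- symmetry of the value -/
theorem lpValue_inv_le {p : ℕ} (hp : 1 ≤ p) {lam : ℝ} (hl : 0 < lam) :
    lpValue p lam⁻¹ ≤ lpValue p lam := by
  refine le_lpValue hp hl (fun w hw => ?_)
  have hsum : ∀ β : ℕ × ℕ → ℝ, ((Finsupp.equivMapDomain (Equiv.prodComm ℕ ℕ) w).sum
      fun x c => c * β x) = w.sum fun x c => c * β (x.2, x.1) := by
    intro β
    rw [Finsupp.sum_equivMapDomain]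
    rfl
  have htot : ((Finsupp.equivMapDomain (Equiv.prodComm ℕ ℕ) w).sum fun _ c => c) =
      w.sum fun _ c => c := by
    rw [Finsupp.sum_equivMapDomain]
  have hf : Feasible p lam⁻¹ (Finsupp.equivMapDomain (Equiv.prodComm ℕ ℕ) w) := by
    refine ⟨?_, ?_, ?_, ?_⟩
    · intro x
      rw [Finsupp.equivMapDomain_apply]
      exact hw.nonneg _
    · rw [hsum (fun x => (x.1 : ℝ) * (x.2 : ℝ))]
      refine le_trans hw.cross (le_of_eq ?_)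
      congr 1
      funext x c
      ring
    · rw [hsum (fun x => (x.1 : ℝ) * ((x.1 : ℝ) - 1)), ← div_eq_mul_inv]
      exact hw.right
    · rw [hsum (fun x => (x.2 : ℝ) * ((x.2 : ℝ) - 1)), div_inv_eq_mul]
      exact hw.left
  have := lpValue_le hf
  rwa [htot] at this

theorem lpValue_inv {p : ℕ} (hp : 1 ≤ p) {lam : ℝ} (hl : 0 < lam) :
    lpValue p lam⁻¹ = lpValue p lam := by
  refine le_antisymm (lpValue_inv_le hp hl) ?_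
  have := lpValue_inv_le hp (inv_pos.mpr hl)
  rwa [inv_inv] at this

/-- products of consecutive integers are nonnegative -/
theorem consec_nonneg (d : ℤ) : (0 : ℝ) ≤ (d : ℝ) * ((d : ℝ) - 1) := by
  have h : 0 ≤ d * (d - 1) := by
    rcases le_or_gt d 0 with h | h
    · exact mul_nonneg_of_nonpos_of_nonpos h (by omega)
    · exact mul_nonneg h.le (by omega)
  exact_mod_cast h

/-- the even dual vertices for `p = 2` -/
theorem dual_even (K : ℕ) (hK : 1 ≤ K) (i j : ℕ) : (2 / ((K : ℝ) + 1)) * ((i : ℝ) * (j : ℝ)) ≤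
    1 + (1 / ((K : ℝ) * (K + 1))) * ((i : ℝ) * ((i : ℝ) - 1)) +
      ((3 * (K : ℝ) + 1) / (2 * (K + 1))) * ((j : ℝ) * ((j : ℝ) - 1)) := by
  have hKR : (1 : ℝ) ≤ K := by exact_mod_cast hK
  have h1 := consec_nonneg ((i : ℤ) - K * j)
  have h2 := consec_nonneg ((j : ℤ) - 1)
  push_cast at h1 h2
  have hU : (0 : ℝ) < K * (K + 1) := by positivity
  have key : (K : ℝ) * (K + 1) * (1 + (1 / ((K : ℝ) * (K + 1))) * ((i : ℝ) * ((i : ℝ) - 1)) +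
      ((3 * (K : ℝ) + 1) / (2 * (K + 1))) * ((j : ℝ) * ((j : ℝ) - 1)) -
      (2 / ((K : ℝ) + 1)) * ((i : ℝ) * (j : ℝ))) =
      ((i : ℝ) - K * j) * ((i : ℝ) - K * j - 1) +
      ((K : ℝ) * (K + 1) / 2) * (((j : ℝ) - 1) * ((j : ℝ) - 1 - 1)) := by
    field_simp
    ring
  have h3 : 0 ≤ (K : ℝ) * (K + 1) * (1 + (1 / ((K : ℝ) * (K + 1))) * ((i : ℝ) * ((i : ℝ) - 1)) +
      ((3 * (K : ℝ) + 1) / (2 * (K + 1))) * ((j : ℝ) * ((j : ℝ) - 1)) -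
      (2 / ((K : ℝ) + 1)) * ((i : ℝ) * (j : ℝ))) := by
    rw [key]
    have : (0 : ℝ) ≤ (K : ℝ) * (K + 1) / 2 := by positivity
    exact add_nonneg h1 (mul_nonneg this h2)
  have h4 := nonneg_of_mul_nonneg_right h3 hU
  linarith

/-- the odd dual vertices for `p = 2` -/
theorem dual_odd (k : ℕ) (i j : ℕ) : ((2 * (k : ℝ) + 1) / ((k : ℝ) + 1) ^ 2) * ((i : ℝ) * (j : ℝ)) ≤
    1 + (1 / ((k : ℝ) + 1) ^ 2) * ((i : ℝ) * ((i : ℝ) - 1)) +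
      ((3 * (k : ℝ) + 1) / (2 * (k + 1))) * ((j : ℝ) * ((j : ℝ) - 1)) := by
  have hkR : (0 : ℝ) ≤ k := Nat.cast_nonneg k
  have hU : (0 : ℝ) < 4 * ((k : ℝ) + 1) ^ 2 := by positivity
  have key : 4 * ((k : ℝ) + 1) ^ 2 * (1 + (1 / ((k : ℝ) + 1) ^ 2) * ((i : ℝ) * ((i : ℝ) - 1)) +
      ((3 * (k : ℝ) + 1) / (2 * (k + 1))) * ((j : ℝ) * ((j : ℝ) - 1)) -
      ((2 * (k : ℝ) + 1) / ((k : ℝ) + 1) ^ 2) * ((i : ℝ) * (j : ℝ))) =
      (2 * (i : ℝ) - (2 * k + 1) * j - 1) ^ 2 +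
      ((j : ℝ) - 1) * ((2 * (k : ℝ) ^ 2 + 4 * k + 1) * ((j : ℝ) - 2) - 1) := by
    field_simp
    ring
  have h3 : 0 ≤ 4 * ((k : ℝ) + 1) ^ 2 * (1 + (1 / ((k : ℝ) + 1) ^ 2) * ((i : ℝ) * ((i : ℝ) - 1)) +
      ((3 * (k : ℝ) + 1) / (2 * (k + 1))) * ((j : ℝ) * ((j : ℝ) - 1)) -
      ((2 * (k : ℝ) + 1) / ((k : ℝ) + 1) ^ 2) * ((i : ℝ) * (j : ℝ))) := by
    rw [key]
    rcases j with _ | _ | _ | j
    · push_cast
      have : (0 : ℝ) ≤ (2 * (i : ℝ) - (2 * k + 1) * 0 - 1) ^ 2 := sq_nonneg _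
      nlinarith
    · push_cast
      have : (0 : ℝ) ≤ (2 * (i : ℝ) - (2 * k + 1) * (0 + 1) - 1) ^ 2 := sq_nonneg _
      nlinarith
    · have h5 := consec_nonneg ((i : ℤ) - (2 * k + 1))
      push_cast at h5 ⊢
      nlinarith
    · push_cast
      have : (0 : ℝ) ≤ (2 * (i : ℝ) - (2 * k + 1) * (j + 1 + 1 + 1) - 1) ^ 2 := sq_nonneg _
      have hj : (0 : ℝ) ≤ j := Nat.cast_nonneg j
      have h6 : (0 : ℝ) ≤ (2 * (k : ℝ) ^ 2 + 4 * k + 1) * ((j : ℝ) + 1 + 1 + 1 - 2) - 1 := by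
        nlinarith [mul_nonneg hkR hj, mul_nonneg (mul_nonneg hkR hkR) hj]
      have h7 : (0 : ℝ) ≤ ((j : ℝ) + 1 + 1 + 1 - 1) * ((2 * (k : ℝ) ^ 2 + 4 * k + 1) *
          ((j : ℝ) + 1 + 1 + 1 - 2) - 1) := mul_nonneg (by linarith) h6
      linarith
  have h4 := nonneg_of_mul_nonneg_right h3 hU
  linarith

/-- the dual vertex for nearly balanced graphs -/
theorem dual_near (p : ℕ) (hp : 2 ≤ p) (i j : ℕ) : (2 / (p : ℝ)) * ((i : ℝ) * (j : ℝ)) ≤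
    1 + (1 / (p : ℝ)) * ((i : ℝ) * ((i : ℝ) - 1)) +
      (1 / ((p : ℝ) - 1)) * ((j : ℝ) * ((j : ℝ) - 1)) := by
  have hpR : (2 : ℝ) ≤ p := by exact_mod_cast hp
  have hp1 : (0 : ℝ) < (p : ℝ) - 1 := by linarith
  have h1 := consec_nonneg ((i : ℤ) - j)
  have h2 := consec_nonneg ((j : ℤ) - p + 1)
  push_cast at h1 h2
  have hU : (0 : ℝ) < p * (p - 1) := by positivity
  have key : (p : ℝ) * (p - 1) * (1 + (1 / (p : ℝ)) * ((i : ℝ) * ((i : ℝ) - 1)) +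
      (1 / ((p : ℝ) - 1)) * ((j : ℝ) * ((j : ℝ) - 1)) - (2 / (p : ℝ)) * ((i : ℝ) * (j : ℝ))) =
      ((p : ℝ) - 1) * (((i : ℝ) - j) * ((i : ℝ) - j - 1)) +
      (((j : ℝ) - p + 1) * ((j : ℝ) - p + 1 - 1)) := by
    field_simp
    ring
  have h3 : 0 ≤ (p : ℝ) * (p - 1) * (1 + (1 / (p : ℝ)) * ((i : ℝ) * ((i : ℝ) - 1)) +
      (1 / ((p : ℝ) - 1)) * ((j : ℝ) * ((j : ℝ) - 1)) - (2 / (p : ℝ)) * ((i : ℝ) * (j : ℝ))) := by
    rw [key]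
    exact add_nonneg (mul_nonneg hp1.le h1) h2
  have h4 := nonneg_of_mul_nonneg_right h3 hU
  linarith

end Pool.Agent.Lib_helper78.PI
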