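import Pool.Agent.Lib_helper78.PI.Closed

/-!
Closed forms of the value of the linear program, continued.
-/

set_option autoImplicit false

namespace Pool.Agent.Lib_helper78.PI

open Finset Filter Topology

/-- the expression with odd index -/
noncomputable def oddPiece (k : ℕ) (x : ℝ) : ℝ :=
  (4 * k + 2 - x) / (k + 1) ^ 2 - (3 * k + 1) / (2 * (k + 1) * x)

/-- the expression with even index -/
noncomputable def evenPiece (k : ℕ) (x : ℝ) : ℝ :=
  (4 * k + 4 - x) / ((k + 1) * (k + 2)) - (3 * k + 4) / (2 * (k + 2) * x)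

theorem odd_le {lam : ℝ} (hl : 0 < lam) (k : ℕ) : oddPiece k lam ≤ lpValue 2 lam := by
  have h := dual_bound (p := 2) (by norm_num) hl ((2 * (k : ℝ) + 1) / ((k : ℝ) + 1) ^ 2)
    (1 / ((k : ℝ) + 1) ^ 2) ((3 * (k : ℝ) + 1) / (2 * (k + 1))) (by positivity) (by positivity)
    (by positivity) (dual_odd k)
  refine le_trans (le_of_eq ?_) h
  unfold oddPiece
  push_cast
  field_simp
  ring

theorem even_le {lam : ℝ} (hl : 0 < lam) (k : ℕ) : evenPiece k lam ≤ lpValue 2 lam := by
  have hd := dual_even (k + 1) (by omega)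
  have h := dual_bound (p := 2) (by norm_num) hl (2 / (((k + 1 : ℕ) : ℝ) + 1))
    (1 / (((k + 1 : ℕ) : ℝ) * (((k + 1 : ℕ) : ℝ) + 1)))
    ((3 * ((k + 1 : ℕ) : ℝ) + 1) / (2 * (((k + 1 : ℕ) : ℝ) + 1))) (by positivity) (by positivity)
    (by positivity) hd
  refine le_trans (le_of_eq ?_) h
  unfold evenPiece
  push_cast
  have e1 : ((k : ℝ) + 1 + 1) = k + 2 := by ring
  rw [e1]
  field_simp
  ring

theorem le_odd {lam : ℝ} (hl : 1 ≤ lam) (k : ℕ) (h1 : 2 * (k : ℝ) ≤ lam)
    (h2 : lam ^ 2 - 2 * k * lam - (k + 1) ≤ 0) : lpValue 2 lam ≤ oddPiece k lam := by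
  have hl0 : 0 < lam := by linarith
  have hk : (0 : ℝ) ≤ k := Nat.cast_nonneg k
  have hk1 : (0 : ℝ) < (k : ℝ) + 1 := by linarith
  -- the weights
  set δ : ℝ := (lam - 2 * k) / (2 * (k + 1)) with hδ
  set γ : ℝ := 1 / (2 * lam) - δ with hγ
  set T : ℝ := (2 - (2 * k + 1) / lam - 2 * δ) / (k + 1) with hT
  have hδ0 : 0 ≤ δ := div_nonneg (by linarith) (by positivity)
  have hδ1 : δ ≤ 1 / (2 * lam) := by
    rw [hδ, div_le_div_iff₀ (by positivity) (by positivity)]
    nlinarith
  have hγ0 : 0 ≤ γ := by linarith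
  have hT0 : 0 ≤ T := by
    apply div_nonneg _ hk1.le
    have h3 : 2 * δ ≤ 1 / lam := by
      have : 2 * (1 / (2 * lam)) = 1 / lam := by field_simp
      linarith
    have h4 : (2 * (k : ℝ) + 1) / lam + 1 / lam ≤ 2 := by
      rw [← add_div, div_le_iff₀ hl0]
      rcases Nat.eq_zero_or_pos k with h0 | h0
      · subst h0; push_cast; linarith
      · have : (1 : ℝ) ≤ k := by exact_mod_cast h0
        linarith
    linarith
  have hb := primal_bound (p := 2) (lam := lam) (k + 1, 1) (2 * k + 1, 2) (2 * k + 2, 2) (0, 0)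
    T γ δ 0 hT0 hγ0 hδ0 le_rfl
    (by
      push_cast
      apply le_of_eq
      rw [hT, hγ]
      field_simp
      ring)
    (by
      push_cast
      apply le_of_eq
      rw [hT, hγ, hδ]
      field_simp
      ring)
    (by
      push_cast
      apply le_of_eq
      rw [hγ]
      field_simp
      ring)
  refine le_trans hb (le_of_eq ?_)
  rw [hT, hγ, hδ]
  unfold oddPiece
  field_simp
  ring

/-- four types in a parallelogram -/
theorem le_even {lam : ℝ} (hl : 1 ≤ lam) (k : ℕ) (h0 : 2 * (k : ℝ) ≤ lam) (h1 : lam ≤ 2 * k + 2)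
    (h2 : 0 ≤ lam ^ 2 - 2 * k * lam - (k + 1)) : lpValue 2 lam ≤ evenPiece k lam := by
  have hl0 : 0 < lam := by linarith
  have hk : (0 : ℝ) ≤ k := Nat.cast_nonneg k
  have hk1 : (0 : ℝ) < (k : ℝ) + 1 := by linarith
  have hk2 : (0 : ℝ) < (k : ℝ) + 2 := by linarith
  set s : ℝ := 1 / (2 * lam) with hs
  set T : ℝ := (4 * (k + 1) - lam - (k + 1) * (2 * (k + 1) + 1) / lam) / ((k + 1) * (k + 2)) with hT
  set R : ℝ := (2 - 2 * (k + 1) + lam - (k + 1) / lam) / (k + 2) with hR
  have hs0 : 0 < s := by positivity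
  have hR0 : 0 ≤ R := by
    apply div_nonneg _ hk2.le
    have : 2 - 2 * ((k : ℝ) + 1) + lam - (k + 1) / lam =
        (lam ^ 2 - 2 * k * lam - (k + 1)) / lam := by
      field_simp
      ring
    rw [this]
    exact div_nonneg h2 hl0.le
  have hT0 : 0 ≤ T := by
    apply div_nonneg _ (by positivity)
    have : 4 * ((k : ℝ) + 1) - lam - (k + 1) * (2 * (k + 1) + 1) / lam =
        (4 * (k + 1) * lam - lam ^ 2 - (k + 1) * (2 * (k + 1) + 1)) / lam := by
      field_simp
    rw [this]
    apply div_nonneg _ hl0.le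
    rcases Nat.lt_or_ge k 2 with hk3 | hk3
    · interval_cases k
      · push_cast at h0 h1 h2 ⊢
        nlinarith
      · push_cast at h0 h1 h2 ⊢
        nlinarith
    · have : (2 : ℝ) ≤ k := by exact_mod_cast hk3
      nlinarith
  have hRT : R ≤ T + 2 * s := by
    have : T + 2 * s - R = 2 - lam / (k + 1) := by
      rw [hT, hs, hR]
      field_simp
      ring
    have h3 : lam / (k + 1) ≤ 2 := by
      rw [div_le_iff₀ hk1]; linarith
    linarith
  have hTs : 0 < T + 2 * s := by linarith
  set t : ℝ := R / (T + 2 * s) with ht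
  have ht0 : 0 ≤ t := div_nonneg hR0 hTs.le
  have ht1 : t ≤ 1 := by
    rw [ht, div_le_one hTs]; exact hRT
  have htR : t * (T + 2 * s) = R := by
    rw [ht, div_mul_cancel₀ _ hTs.ne']
  have e1 : (k + 1) * T + 4 * (k + 1) * s + R = 2 := by
    rw [hT, hs, hR]
    field_simp
    ring
  have e2 : (k + 1) * k * T + 2 * (k + 1) * (2 * k + 1) * s + 2 * (k + 1) * R = lam := by
    rw [hT, hs, hR]
    field_simp
    ring
  have e3 : 2 * s = 1 / lam := by
    rw [hs]; field_simp
  have hb := primal_bound (p := 2) (lam := lam) (k + 1, 1) (k + 2, 1) (2 * k + 2, 2) (2 * k + 3, 2)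
    ((1 - t) * T) (t * T) ((1 - t) * s) (t * s) (mul_nonneg (by linarith) hT0)
    (mul_nonneg ht0 hT0) (mul_nonneg (by linarith) hs0.le) (mul_nonneg ht0 hs0.le)
    (by
      push_cast
      apply le_of_eq
      calc (2 : ℝ) = (k + 1) * T + 4 * (k + 1) * s + t * (T + 2 * s) := by rw [htR, e1]
        _ = _ := by ring)
    (by
      push_cast
      apply le_of_eq
      calc _ = (k + 1) * k * T + 2 * (k + 1) * (2 * k + 1) * s + 2 * (k + 1) * (t * (T + 2 * s)) := by
            ring
        _ = lam := by rw [htR, e2]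
        _ = _ := by ring)
    (by
      push_cast
      apply le_of_eq
      calc _ = 2 * s := by ring
        _ = 1 / lam := e3
        _ = _ := by ring)
  refine le_trans hb (le_of_eq ?_)
  have : (1 - t) * T + t * T + (1 - t) * s + t * s = T + s := by ring
  rw [this, hT, hs]
  unfold evenPiece
  field_simp
  ring

/-- closed form for `p = 2` and ratio at least `1` -/
theorem lp_two {lam : ℝ} (hl : 1 ≤ lam) : lpValue 2 lam =
    max (oddPiece ⌊lam / 2⌋₊ lam) (evenPiece ⌊lam / 2⌋₊ lam) := by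
  have hl0 : 0 < lam := by linarith
  apply le_antisymm
  · set k : ℕ := ⌊lam / 2⌋₊ with hk
    have h1 : (k : ℝ) ≤ lam / 2 := Nat.floor_le (by linarith)
    have h2 : lam / 2 < k + 1 := Nat.lt_floor_add_one _
    rcases le_total (lam ^ 2 - 2 * k * lam - (k + 1)) 0 with h | h
    · exact le_trans (le_odd hl k (by linarith) h) (le_max_left _ _)
    · exact le_trans (le_even hl k (by linarith) (by linarith) h) (le_max_right _ _)
  · exact max_le (odd_le hl0 _) (even_le hl0 _)

theorem lp_near {p : ℕ} (hp : 2 ≤ p) {lam : ℝ} (h1 : 1 ≤ lam) (h2 : lam ≤ (p : ℝ) / (p - 1)) :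
    lpValue p lam = 2 - ((p : ℝ) - 1) / p * lam - 1 / lam := by
  have hl0 : 0 < lam := by linarith
  have hpR : (2 : ℝ) ≤ p := by exact_mod_cast hp
  have hp1 : (0 : ℝ) < (p : ℝ) - 1 := by linarith
  have hp0 : (0 : ℝ) < p := by linarith
  have h2' : lam * (p - 1) ≤ p := by
    rwa [le_div_iff₀ hp1] at h2
  apply le_antisymm
  · set T : ℝ := 2 - ((p : ℝ) - 1) / p * lam - 1 / lam with hT
    set S1 : ℝ := (p * T - 1 / lam) / 2 with hS1
    set S2 : ℝ := (1 / lam - (p - 2) * T) / 2 with hS2
    set E : ℝ := (p - 1) * (lam - 1 / lam) / 2 with hE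
    have hTl : lam * p * T = 2 * p * lam - (p - 1) * lam ^ 2 - p := by
      rw [hT]; field_simp
    have hS1' : 2 * lam * S1 = (lam - 1) * ((p + 1) - (p - 1) * lam) := by
      have : 2 * lam * S1 = lam * p * T - 1 := by
        rw [hS1]; field_simp
      rw [this, hTl]; ring
    have hS10 : 0 ≤ S1 := by
      have h3 : 0 ≤ 2 * lam * S1 := by
        rw [hS1']
        exact mul_nonneg (by linarith) (by linarith)
      exact nonneg_of_mul_nonneg_right h3 (by positivity)
    have hS2' : 2 * lam * p * S2 = p - (p - 2) * (2 * p * lam - (p - 1) * lam ^ 2 - p) := by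
      have : 2 * lam * p * S2 = p - (p - 2) * (lam * p * T) := by
        rw [hS2]; field_simp
      rw [this, hTl]
    have hS20 : 0 ≤ S2 := by
      have h3 : 0 ≤ 2 * lam * p * S2 := by
        rw [hS2']
        have h4 : p - (p - 2) * (2 * p * lam - (p - 1) * lam ^ 2 - p) =
            (p - 2) * (p - 1) * (lam - p / (p - 1)) ^ 2 + p / (p - 1) := by
          field_simp
          ring
        rw [h4]
        have h5 : (0 : ℝ) ≤ (p - 2) * (p - 1) := mul_nonneg (by linarith) hp1.le
        positivity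
      exact nonneg_of_mul_nonneg_right h3 (by positivity)
    have hE0 : 0 ≤ E := by
      have h3 : 1 / lam ≤ 1 := by
        rw [div_le_iff₀ hl0]; linarith
      have h4 : 0 ≤ lam - 1 / lam := by linarith
      rw [hE]; positivity
    have hden : (p - 1) * S1 + p * S2 - E = p - (p - 1) * lam := by
      rw [hS1, hS2, hE, hT]; field_simp; ring
    have hEle : E ≤ (p - 1) * S1 + p * S2 := by linarith
    have hdpos : 0 < (p - 1) * S1 + p * S2 := by
      have h3 : (p - 1) * S1 + p * S2 = (p * T + 1 / lam) / 2 := by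
        rw [hS1, hS2]; ring
      have h4 : 0 < 1 / lam := by positivity
      have h5 : p * T = 2 * S1 + 1 / lam := by rw [hS1]; ring
      rw [h3, h5]; linarith
    set t : ℝ := E / ((p - 1) * S1 + p * S2) with ht
    have ht0 : 0 ≤ t := div_nonneg hE0 hdpos.le
    have ht1 : t ≤ 1 := by
      rw [ht, div_le_one hdpos]; exact hEle
    have htE : t * ((p - 1) * S1 + p * S2) = E := by
      rw [ht, div_mul_cancel₀ _ hdpos.ne']
    have e1 : (p - 1) ^ 2 * S1 + p ^ 2 * S2 + E = p := by
      rw [hS1, hS2, hE, hT]; field_simp; ring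
    have e2 : (p - 1) * (p - 2) * S1 + p * (p - 1) * S2 + 2 * E = (p - 1) * lam := by
      rw [hS1, hS2, hE, hT]; field_simp; ring
    have e3 : (p - 1) * (p - 2) * S1 + p * (p - 1) * S2 = (p - 1) / lam := by
      rw [hS1, hS2]; ring
    have hc1 : ((p - 1 : ℕ) : ℝ) = (p : ℝ) - 1 := by
      push_cast [Nat.cast_sub (show 1 ≤ p by omega)]; ring
    have hb := primal_bound (p := p) (lam := lam) (p - 1, p - 1) (p, p - 1) (p, p) (p + 1, p)
      ((1 - t) * S1) (t * S1) ((1 - t) * S2) (t * S2) (mul_nonneg (by linarith) hS10)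
      (mul_nonneg ht0 hS10) (mul_nonneg (by linarith) hS20) (mul_nonneg ht0 hS20)
      (by
        simp only [hc1]
        push_cast
        apply le_of_eq
        calc (p : ℝ) = (p - 1) ^ 2 * S1 + p ^ 2 * S2 + t * ((p - 1) * S1 + p * S2) := by
              rw [htE, e1]
          _ = _ := by ring)
      (by
        simp only [hc1]
        push_cast
        apply le_of_eq
        calc _ = (p - 1) * (p - 2) * S1 + p * (p - 1) * S2 +
              2 * (t * ((p - 1) * S1 + p * S2)) := by ring
          _ = (p - 1) * lam := by rw [htE, e2])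
      (by
        simp only [hc1]
        apply le_of_eq
        calc _ = (p - 1) * (p - 2) * S1 + p * (p - 1) * S2 := by ring
          _ = _ := e3)
    refine le_trans hb (le_of_eq ?_)
    have : (1 - t) * S1 + t * S1 + (1 - t) * S2 + t * S2 = S1 + S2 := by ring
    rw [this, hS1, hS2]
    ring
  · have h := dual_bound (p := p) (by omega) hl0 (2 / (p : ℝ)) (1 / (p : ℝ)) (1 / ((p : ℝ) - 1))
      (by positivity) (by positivity) (by positivity) (dual_near p hp)
    refine le_trans (le_of_eq ?_) h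
    field_simp
    ring

end Pool.Agent.Lib_helper78.PI
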