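import Pool.Agent.Lib_helper78.PI.Paley

/-!
Families of vertex subsets covering the pairs of a vertex set with two sides.
-/

set_option autoImplicit false

namespace Pool.Agent.Lib_helper78.PI

open Finset

/-- the number of blocks containing both `x` and `y` -/
def cnt {V ι : Type} [DecidableEq V] [Fintype ι] (F : ι → Finset V) (x y : V) : ℕ :=
  (univ.filter (fun k => x ∈ F k ∧ y ∈ F k)).card

theorem cnt_comm {V ι : Type} [DecidableEq V] [Fintype ι] (F : ι → Finset V) (x y : V) :
    cnt F x y = cnt F y x := by
  unfold cnt
  congr 1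
  ext k
  simp [and_comm]

/-- There is a family of at most `N` blocks such that distinct vertices on the same side lie
together in at most `m` blocks, and vertices on different sides in at least `r` blocks. -/
def CovOn {V : Type} [DecidableEq V] (side : V → Bool) (N m r : ℕ) : Prop :=
  ∃ (ι : Type) (_ : Fintype ι) (F : ι → Finset V), Fintype.card ι ≤ N ∧
    ∀ x y : V, x ≠ y → (side x = side y → cnt F x y ≤ m) ∧ (side x ≠ side y → r ≤ cnt F x y)

theorem CovOn.mono {V : Type} [DecidableEq V] {side : V → Bool} {N N' m r : ℕ}
    (h : CovOn side N m r) (hN : N ≤ N') : CovOn side N' m r := by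
  obtain ⟨ι, hι, F, hc, hF⟩ := h
  exact ⟨ι, hι, F, le_trans hc hN, hF⟩

theorem CovOn.comap {V V' : Type} [DecidableEq V] [DecidableEq V'] {side : V → Bool}
    {side' : V' → Bool} {N m r : ℕ} (h : CovOn side N m r) (f : V' → V)
    (hf : Function.Injective f) (hs : ∀ x, side (f x) = side' x) : CovOn side' N m r := by
  obtain ⟨ι, hι, F, hc, hF⟩ := h
  refine ⟨ι, hι, fun k => (F k).preimage f (hf.injOn), hc, ?_⟩
  intro x y hxy
  have h1 : cnt (fun k => (F k).preimage f (hf.injOn)) x y = cnt F (f x) (f y) := by
    unfold cnt
    simp only [Finset.mem_preimage]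
  rw [h1, ← hs, ← hs]
  exact hF _ _ (fun h => hxy (hf h))

/-- sum of two families -/
theorem cnt_sum {V ι₁ ι₂ : Type} [DecidableEq V] [Fintype ι₁] [Fintype ι₂]
    (F₁ : ι₁ → Finset V) (F₂ : ι₂ → Finset V) (x y : V) :
    cnt (Sum.elim F₁ F₂) x y = cnt F₁ x y + cnt F₂ x y := by
  unfold cnt
  simp only [Finset.card_filter]
  rw [Fintype.sum_sum_type]
  rfl

/-- number of nonzero squares -/
theorem card_squares (q : ℕ) [Fact q.Prime] (hq : q ≠ 2) :
    2 * Fintype.card {v : ZMod q // ch q v = 1} ≤ q := by
  classical
  have h0 := quadraticChar_sum_zero (ringChar_ne_two hq)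
  have h1 : ∀ v : ZMod q, (ch q v : ℤ) = 2 * (if ch q v = 1 then 1 else 0) -
      (if v = 0 then 0 else 1) := by
    intro v
    by_cases hv : v = 0
    · subst hv
      rw [ch_zero]; simp
    · rw [if_neg hv]
      rcases quadraticChar_dichotomy (F := ZMod q) hv with h | h
      · have h' : ch q v = 1 := h
        rw [h']; simp
      · have h' : ch q v = -1 := h
        rw [h']; simp
  have h2 : ∑ v : ZMod q, (ch q v : ℤ) = 0 := h0
  rw [Finset.sum_congr rfl (fun v _ => h1 v), Finset.sum_sub_distrib, ← Finset.mul_sum] at h2
  have h3 : ∑ v : ZMod q, (if v = 0 then (0 : ℤ) else 1) ≤ q := by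
    calc ∑ v : ZMod q, (if v = 0 then (0 : ℤ) else 1) ≤ ∑ v : ZMod q, (1 : ℤ) := by
          apply Finset.sum_le_sum
          intro v _
          split_ifs <;> norm_num
      _ = q := by simp
  have h4 : (Fintype.card {v : ZMod q // ch q v = 1} : ℤ) =
      ∑ v : ZMod q, (if ch q v = 1 then (1 : ℤ) else 0) := by
    rw [Fintype.card_subtype, Finset.card_filter]
    push_cast
    rfl
  have : 2 * (Fintype.card {v : ZMod q // ch q v = 1} : ℤ) ≤ q := by
    rw [h4]; linarith
  exact_mod_cast this

/-- splitting a finite set into two nearly equal parts -/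
theorem exists_half {ι : Type} [DecidableEq ι] (K : Finset ι) :
    ∃ K' ⊆ K, K'.card = K.card / 2 :=
  Finset.exists_subset_card_eq (Nat.div_le_self _ _)

/-- The halving step. -/
theorem halve {V : Type} [Fintype V] [DecidableEq V] (side : V → Bool) {N m r : ℕ}
    (h : CovOn side N (2 * m) (2 * r)) : ∃ Q0 : ℕ, ∀ (q : ℕ) [Fact q.Prime], Q0 ≤ q →
      ∃ N' : ℕ, CovOn (fun x : V × ZMod q => side x.1) N' m r ∧
        2 * N' ≤ N * q ^ 2 + 2 * (Fintype.card V ^ 2 * q * r) := by
  classical
  obtain ⟨ι, hι, F, hcard, hF⟩ := h
  obtain ⟨Q0, hQ0⟩ := labels (Fintype.card V) 1 one_pos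
  refine ⟨max Q0 3, ?_⟩
  intro q _ hq
  have hqQ0 : Q0 ≤ q := le_trans (le_max_left _ _) hq
  have hq2 : q ≠ 2 := by
    have : 3 ≤ q := le_trans (le_max_right _ _) hq
    omega
  let e : V ≃ Fin (Fintype.card V) := Fintype.equivFin V
  let K : V → V → Finset ι := fun u w => univ.filter (fun k => u ∈ F k ∧ w ∈ F k)
  have hK : ∀ u w, (K u w).card = cnt F u w := fun u w => rfl
  choose K' hK'sub hK'card using fun u w => exists_half (K u w)
  have hlab : ∀ k : ι, ∃ c : Fin (Fintype.card V) → ZMod q, ∀ i j, i < j →
      ch q (c j - c i) = sgn (decide (k ∈ K' (e.symm i) (e.symm j))) := by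
    intro k
    obtain ⟨c, _, hc⟩ := hQ0 q hqQ0 (fun _ => univ)
      (fun i => by simp [ZMod.card]) (fun i j => decide (k ∈ K' (e.symm i) (e.symm j)))
    exact ⟨c, hc⟩
  choose c hc using hlab
  -- the label of a vertex
  let l : ι → V → ZMod q := fun k u => c k (e u)
  have hl : ∀ k u w, e u < e w → ch q (l k w - l k u) = sgn (decide (k ∈ K' u w)) := by
    intro k u w huw
    have := hc k (e u) (e w) huw
    simpa using this
  have hlne : ∀ k u w, e u < e w → l k w - l k u ≠ 0 := by
    intro k u w huw h0
    have := hl k u w huw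
    rw [h0, ch_zero] at this
    rcases sgn_cases (decide (k ∈ K' u w)) with h | h <;> rw [h] at this <;> norm_num at this
  -- the two families
  let F₁ : ι × ZMod q × {v : ZMod q // ch q v = 1} → Finset (V × ZMod q) :=
    fun a => (F a.1).image (fun u => (u, a.2.1 + l a.1 u * a.2.2.1))
  let F₂ : {u : V // side u = true} × {w : V // side w = false} × ZMod q × Fin r →
      Finset (V × ZMod q) :=
    fun a => {(a.1.1, a.2.2.1), (a.2.1.1, a.2.2.1)}
  have hmem₁ : ∀ (a : ι × ZMod q × {v : ZMod q // ch q v = 1}) (u : V) (x : ZMod q),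
      (u, x) ∈ F₁ a ↔ (u ∈ F a.1 ∧ x = a.2.1 + l a.1 u * a.2.2.1) := by
    intro a u x
    simp only [F₁, Finset.mem_image, Prod.mk.injEq]
    constructor
    · rintro ⟨u', hu', rfl, rfl⟩
      exact ⟨hu', rfl⟩
    · rintro ⟨hu, rfl⟩
      exact ⟨u, hu, rfl, rfl⟩
  -- the class of a pair
  let Cl : V → V → Bool → Finset ι := fun u w b => (K u w).filter (fun k => decide (k ∈ K' u w) = b)
  have hCl_le : ∀ u w b, (K u w).card ≤ 2 * m → (Cl u w b).card ≤ m := by
    intro u w b hle
    have h1 := hK'card u w
    cases b with
    | true =>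
      have : Cl u w true = K' u w := by
        ext k
        simp only [Cl, Finset.mem_filter, decide_eq_true_eq]
        exact ⟨fun h => h.2, fun h => ⟨hK'sub u w h, h⟩⟩
      rw [this, h1]; omega
    | false =>
      have : Cl u w false = K u w \ K' u w := by
        ext k
        simp only [Cl, Finset.mem_filter, decide_eq_false_iff_not, Finset.mem_sdiff]
      rw [this, Finset.card_sdiff_of_subset (hK'sub u w), h1]; omega
  have hCl_ge : ∀ u w b, 2 * r ≤ (K u w).card → r ≤ (Cl u w b).card := by
    intro u w b hle
    have h1 := hK'card u w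
    cases b with
    | true =>
      have : Cl u w true = K' u w := by
        ext k
        simp only [Cl, Finset.mem_filter, decide_eq_true_eq]
        exact ⟨fun h => h.2, fun h => ⟨hK'sub u w h, h⟩⟩
      rw [this, h1]; omega
    | false =>
      have : Cl u w false = K u w \ K' u w := by
        ext k
        simp only [Cl, Finset.mem_filter, decide_eq_false_iff_not, Finset.mem_sdiff]
      rw [this, Finset.card_sdiff_of_subset (hK'sub u w), h1]; omega
  -- the class of a nonzero difference
  have hcls : ∀ d : ZMod q, d ≠ 0 → ch q d = sgn (decide (ch q d = 1)) := by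
    intro d hd
    rcases quadraticChar_dichotomy (F := ZMod q) hd with h | h
    · have h' : ch q d = 1 := h
      rw [h']; simp [sgn]
    · have h' : ch q d = -1 := h
      rw [h']; simp [sgn]
  have hsgn_inj : ∀ b b' : Bool, sgn b = sgn b' → b = b' := by
    intro b b' h
    cases b <;> cases b' <;> simp [sgn] at h ⊢
  -- upper bound for the main family
  have hup : ∀ u w x y, e u < e w →
      cnt F₁ (u, x) (w, y) ≤ (Cl u w (decide (ch q (y - x) = 1))).card := by
    intro u w x y huw
    unfold cnt
    apply Finset.card_le_card_of_injOn (fun a => a.1)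
    · intro a ha
      rw [Finset.mem_coe, Finset.mem_filter] at ha
      obtain ⟨_, h1, h2⟩ := ha
      rw [hmem₁] at h1 h2
      obtain ⟨hu, hx⟩ := h1
      obtain ⟨hw, hy⟩ := h2
      have hd : y - x = (l a.1 w - l a.1 u) * a.2.2.1 := by rw [hx, hy]; ring
      have hchd : ch q (y - x) = sgn (decide (a.1 ∈ K' u w)) := by
        rw [hd, map_mul, a.2.2.2, mul_one, hl _ _ _ huw]
      have hd0 : y - x ≠ 0 := by
        intro h0
        rw [h0, ch_zero] at hchd
        rcases sgn_cases (decide (a.1 ∈ K' u w)) with h | h <;> rw [h] at hchd <;>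
          norm_num at hchd
      rw [Finset.mem_coe]
      simp only [Cl, K, Finset.mem_filter, Finset.mem_univ, true_and]
      refine ⟨⟨hu, hw⟩, ?_⟩
      apply hsgn_inj
      rw [← hchd, ← hcls _ hd0]
    · rintro ⟨k, t, v⟩ ha ⟨k', t', v'⟩ ha' hkk
      simp only at hkk
      subst hkk
      rw [Finset.mem_coe, Finset.mem_filter] at ha ha'
      obtain ⟨_, h1, h2⟩ := ha
      obtain ⟨_, h1', h2'⟩ := ha'
      rw [hmem₁] at h1 h2 h1' h2'
      have hd : y - x = (l k w - l k u) * v.1 := by
        have ha := h1.2
        have hb := h2.2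
        simp only at ha hb
        rw [ha, hb]; ring
      have hd' : y - x = (l k w - l k u) * v'.1 := by
        have ha := h1'.2
        have hb := h2'.2
        simp only at ha hb
        rw [ha, hb]; ring
      have hv : v.1 = v'.1 := mul_left_cancel₀ (hlne k u w huw) (hd.symm.trans hd')
      have hv' : v = v' := Subtype.ext hv
      subst hv'
      have ht : t = t' := by
        have e1 := h1.2
        have e2 := h1'.2
        simp only at e1 e2
        have := e1.symm.trans e2
        exact add_right_cancel this
      rw [ht]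
  -- lower bound for the main family
  have hlow : ∀ u w x y, e u < e w → x ≠ y →
      (Cl u w (decide (ch q (y - x) = 1))).card ≤ cnt F₁ (u, x) (w, y) := by
    intro u w x y huw hxy
    have hd0 : y - x ≠ 0 := sub_ne_zero.mpr (Ne.symm hxy)
    have hch : ∀ k ∈ Cl u w (decide (ch q (y - x) = 1)),
        ch q ((y - x) / (l k w - l k u)) = 1 := by
      intro k hk
      have hk2 := (Finset.mem_filter.mp hk).2
      have h1 := hl k u w huw
      rw [hk2, ← hcls _ hd0] at h1
      have h2 : (y - x) / (l k w - l k u) * (l k w - l k u) = y - x :=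
        div_mul_cancel₀ _ (hlne k u w huw)
      have h3 : ch q ((y - x) / (l k w - l k u)) * ch q (l k w - l k u) = ch q (y - x) := by
        rw [← map_mul, h2]
      rw [h1] at h3
      have h4 := ch_sq hd0
      calc ch q ((y - x) / (l k w - l k u)) =
          ch q ((y - x) / (l k w - l k u)) * (ch q (y - x) * ch q (y - x)) := by
            rw [h4, mul_one]
        _ = (ch q ((y - x) / (l k w - l k u)) * ch q (y - x)) * ch q (y - x) := by ring
        _ = ch q (y - x) * ch q (y - x) := by rw [h3]
        _ = 1 := h4
    unfold cnt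
    rw [← Finset.card_attach]
    apply Finset.card_le_card_of_injOn (fun k => (k.1,
      x - l k.1 u * ((y - x) / (l k.1 w - l k.1 u)),
      ⟨(y - x) / (l k.1 w - l k.1 u), hch k.1 k.2⟩))
    · intro k _
      rw [Finset.mem_coe, Finset.mem_filter]
      have hk1 := (Finset.mem_filter.mp k.2).1
      simp only [K, Finset.mem_filter, Finset.mem_univ, true_and] at hk1
      refine ⟨Finset.mem_univ _, ?_, ?_⟩
      · rw [hmem₁]
        exact ⟨hk1.1, by simp⟩
      · rw [hmem₁]
        refine ⟨hk1.2, ?_⟩
        simp only
        have h2 : (l k.1 w - l k.1 u) * ((y - x) / (l k.1 w - l k.1 u)) = y - x :=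
          mul_div_cancel₀ _ (hlne k.1 u w huw)
        linear_combination -h2
    · intro k _ k' _ hkk
      have := congrArg Prod.fst hkk
      exact Subtype.ext this
  -- same group
  have hgrp : ∀ u x y, x ≠ y → cnt F₁ (u, x) (u, y) = 0 := by
    intro u x y hxy
    unfold cnt
    rw [Finset.card_eq_zero, Finset.filter_eq_empty_iff]
    intro a _ h
    rw [hmem₁, hmem₁] at h
    exact hxy (h.1.2.trans h.2.2.symm)
  -- extras on the same side
  have hext : ∀ X Y : V × ZMod q, X ≠ Y → side X.1 = side Y.1 → cnt F₂ X Y = 0 := by
    intro X Y hXY hs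
    unfold cnt
    rw [Finset.card_eq_zero, Finset.filter_eq_empty_iff]
    rintro ⟨u, w, x, i⟩ _ ⟨h1, h2⟩
    simp only [F₂, Finset.mem_insert, Finset.mem_singleton] at h1 h2
    have hu := u.2
    have hw := w.2
    rcases h1 with h1 | h1 <;> rcases h2 with h2 | h2
    · exact hXY (h1.trans h2.symm)
    · rw [h1, h2] at hs
      simp only at hs
      rw [hu, hw] at hs
      exact Bool.noConfusion hs
    · rw [h1, h2] at hs
      simp only at hs
      rw [hu, hw] at hs
      exact Bool.noConfusion hs
    · exact hXY (h1.trans h2.symm)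
  -- extras across
  have hext2 : ∀ u w x, side u = true → side w = false → r ≤ cnt F₂ (u, x) (w, x) := by
    intro u w x hu hw
    unfold cnt
    calc r = (univ : Finset (Fin r)).card := by simp
      _ ≤ _ := by
        apply Finset.card_le_card_of_injOn (fun i : Fin r =>
          ((⟨u, hu⟩, ⟨w, hw⟩, x, i) : {u : V // side u = true} × {w : V // side w = false} ×
            ZMod q × Fin r))
        · intro i _
          rw [Finset.mem_coe, Finset.mem_filter]
          refine ⟨Finset.mem_univ _, ?_, ?_⟩
          · simp [F₂]
          · simp [F₂]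
        · intro i _ i' _ h
          simpa using h
  refine ⟨Fintype.card ((ι × ZMod q × {v : ZMod q // ch q v = 1}) ⊕
    ({u : V // side u = true} × {w : V // side w = false} × ZMod q × Fin r)),
    ⟨_, inferInstance, Sum.elim F₁ F₂, le_rfl, ?_⟩, ?_⟩
  · rintro ⟨u, x⟩ ⟨w, y⟩ hne
    rw [cnt_sum]
    constructor
    · intro hs
      have h2 := hext (u, x) (w, y) hne hs
      simp only at hs
      rw [h2, add_zero]
      by_cases huw : u = w
      · subst huw
        have hxy : x ≠ y := by
          rintro rfl; exact hne rfl
        rw [hgrp u x y hxy]; exact Nat.zero_le _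
      · rcases lt_or_gt_of_ne (fun h => huw (e.injective h) : e u ≠ e w) with hlt | hgt
        · refine le_trans (hup u w x y hlt) (hCl_le _ _ _ ?_)
          rw [hK]; exact (hF u w huw).1 hs
        · rw [cnt_comm]
          refine le_trans (hup w u y x hgt) (hCl_le _ _ _ ?_)
          rw [hK]; exact (hF w u (Ne.symm huw)).1 hs.symm
    · intro hs
      simp only at hs
      have huw : u ≠ w := by
        rintro rfl; exact hs rfl
      by_cases hxy : x = y
      · subst hxy
        refine le_trans ?_ (Nat.le_add_left _ _)
        cases hu : side u with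
        | true =>
          have hw : side w = false := by
            cases hw : side w with
            | true => exact absurd (hu.trans hw.symm) hs
            | false => rfl
          exact hext2 u w x hu hw
        | false =>
          have hw : side w = true := by
            cases hw : side w with
            | true => rfl
            | false => exact absurd (hu.trans hw.symm) hs
          rw [cnt_comm]
          exact hext2 w u x hw hu
      · refine le_trans ?_ (Nat.le_add_right _ _)
        rcases lt_or_gt_of_ne (fun h => huw (e.injective h) : e u ≠ e w) with hlt | hgt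
        · refine le_trans (hCl_ge _ _ _ ?_) (hlow u w x y hlt hxy)
          rw [hK]; exact (hF u w huw).2 hs
        · rw [cnt_comm]
          refine le_trans (hCl_ge _ _ _ ?_) (hlow w u y x hgt (Ne.symm hxy))
          rw [hK]; exact (hF w u (Ne.symm huw)).2 (Ne.symm hs)
  · rw [Fintype.card_sum, Fintype.card_prod, Fintype.card_prod, Fintype.card_prod,
      Fintype.card_prod, Fintype.card_prod, ZMod.card, Fintype.card_fin]
    have h1 := card_squares q hq2
    have h2 : Fintype.card {u : V // side u = true} ≤ Fintype.card V := Fintype.card_subtype_le _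
    have h3 : Fintype.card {w : V // side w = false} ≤ Fintype.card V := Fintype.card_subtype_le _
    have h4 : 2 * (Fintype.card ι * (q * Fintype.card {v : ZMod q // ch q v = 1})) ≤
        N * q ^ 2 := by
      calc 2 * (Fintype.card ι * (q * Fintype.card {v : ZMod q // ch q v = 1}))
          = Fintype.card ι * (q * (2 * Fintype.card {v : ZMod q // ch q v = 1})) := by ring
        _ ≤ N * (q * q) := Nat.mul_le_mul hcard (Nat.mul_le_mul le_rfl h1)
        _ = N * q ^ 2 := by ring
    have h5 : Fintype.card {u : V // side u = true} * (Fintype.card {w : V // side w = false} *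
        (q * r)) ≤ Fintype.card V ^ 2 * q * r := by
      calc Fintype.card {u : V // side u = true} * (Fintype.card {w : V // side w = false} *
          (q * r)) ≤ Fintype.card V * (Fintype.card V * (q * r)) :=
            Nat.mul_le_mul h2 (Nat.mul_le_mul h3 le_rfl)
        _ = Fintype.card V ^ 2 * q * r := by ring
    omega

end Pool.Agent.Lib_helper78.PI
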