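import Pool.Agent.Lib_helper78.PI.Cover

/-!
Iterated halving and blow-up of covers of `K_{a,b}`.
-/

set_option autoImplicit false

namespace Pool.Agent.Lib_helper78.PI

open Finset

/-- covers for the vertex set `Fin a ⊕ Fin b` -/
def CovN (a b N m r : ℕ) : Prop := CovOn (V := Fin a ⊕ Fin b) (fun x => x.isLeft) N m r

theorem CovN.mono_left {a b a' b' N m r : ℕ} (h : CovN a b N m r) (ha : a' ≤ a) (hb : b' ≤ b) :
    CovN a' b' N m r := by
  refine CovOn.comap h (Sum.map (Fin.castLE ha) (Fin.castLE hb)) ?_ ?_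
  · exact Sum.map_injective.mpr ⟨Fin.castLE_injective ha, Fin.castLE_injective hb⟩
  · rintro (x | x) <;> rfl

/-- transport from `(Fin a ⊕ Fin b) × R` with `|R| = q` -/
theorem CovN.of_prod {a b q N m r : ℕ} {R : Type} [DecidableEq R] (e : R ≃ Fin q)
    (h : CovOn (V := (Fin a ⊕ Fin b) × R) (fun x => x.1.isLeft) N m r) :
    CovN (a * q) (b * q) N m r := by
  refine CovOn.comap h (Sum.elim
    (fun i => (Sum.inl (finProdFinEquiv.symm i).1, e.symm (finProdFinEquiv.symm i).2))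
    (fun i => (Sum.inr (finProdFinEquiv.symm i).1, e.symm (finProdFinEquiv.symm i).2))) ?_ ?_
  · rintro (x | x) (y | y) hxy
    · simp only [Sum.elim_inl, Prod.mk.injEq, Sum.inl.injEq, EmbeddingLike.apply_eq_iff_eq] at hxy
      have : finProdFinEquiv.symm x = finProdFinEquiv.symm y := Prod.ext hxy.1 hxy.2
      rw [finProdFinEquiv.symm.injective this]
    · simp at hxy
    · simp at hxy
    · simp only [Sum.elim_inr, Prod.mk.injEq, Sum.inr.injEq, EmbeddingLike.apply_eq_iff_eq] at hxy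
      have : finProdFinEquiv.symm x = finProdFinEquiv.symm y := Prod.ext hxy.1 hxy.2
      rw [finProdFinEquiv.symm.injective this]
  · rintro (x | x) <;> rfl

theorem halveN {a b N m r : ℕ} (h : CovN a b N (2 * m) (2 * r)) : ∃ Q0 : ℕ, ∀ (q : ℕ)
    [Fact q.Prime], Q0 ≤ q → ∃ N' : ℕ, CovN (a * q) (b * q) N' m r ∧
        2 * N' ≤ N * q ^ 2 + 2 * ((a + b) ^ 2 * q * r) := by
  obtain ⟨Q0, hQ0⟩ := halve _ h
  refine ⟨Q0, fun q _ hq => ?_⟩
  obtain ⟨N', h1, h2⟩ := hQ0 q hq
  refine ⟨N', CovN.of_prod ((Fintype.equivFin (ZMod q)).trans (finCongr (ZMod.card q))) h1, ?_⟩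
  simpa using h2

theorem iterate (k : ℕ) : ∀ (a b N m r : ℕ), CovN a b N (2 ^ k * m) (2 ^ k * r) →
    ∀ ε : ℝ, 0 < ε → ∃ s N' : ℕ, 1 ≤ s ∧ CovN (a * s) (b * s) N' m r ∧
      (N' : ℝ) ≤ (N / 2 ^ k + ε) * (s : ℝ) ^ 2 := by
  induction k with
  | zero =>
    intro a b N m r h ε hε
    refine ⟨1, N, le_rfl, by simpa using h, ?_⟩
    simp; exact hε.le
  | succ k ih =>
    intro a b N m r h ε hε
    have h' : CovN a b N (2 * (2 ^ k * m)) (2 * (2 ^ k * r)) := by
      have e1 : 2 ^ (k + 1) * m = 2 * (2 ^ k * m) := by ring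
      have e2 : 2 ^ (k + 1) * r = 2 * (2 ^ k * r) := by ring
      rwa [e1, e2] at h
    obtain ⟨Q0, hQ0⟩ := halveN h'
    -- the constant of the extra term
    set C : ℝ := ((a + b : ℕ) : ℝ) ^ 2 * r with hC
    obtain ⟨Q1, hQ1⟩ := exists_nat_gt (2 * C / ε)
    obtain ⟨q, hq, hqp⟩ := Nat.exists_infinite_primes (max Q0 (max Q1 1))
    have : Fact q.Prime := ⟨hqp⟩
    have hqQ0 : Q0 ≤ q := le_trans (le_max_left _ _) hq
    have hqQ1 : Q1 ≤ q := le_trans (le_trans (le_max_left _ _) (le_max_right _ _)) hq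
    have hq1 : 1 ≤ q := hqp.one_lt.le
    have hqR : (1 : ℝ) ≤ q := by exact_mod_cast hq1
    have hqpos : (0 : ℝ) < q := by linarith
    obtain ⟨N1, hN1, hN1le⟩ := hQ0 q hqQ0
    obtain ⟨s, N', hs, hcov, hN'⟩ := ih (a * q) (b * q) N1 m r hN1 (ε / 2) (by positivity)
    refine ⟨q * s, N', Nat.one_le_iff_ne_zero.mpr (by positivity), ?_, ?_⟩
    · rwa [mul_assoc, mul_assoc] at hcov
    · have hN1R : (2 : ℝ) * N1 ≤ N * (q : ℝ) ^ 2 + 2 * (((a + b : ℕ) : ℝ) ^ 2 * q * (2 ^ k * r)) := by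
        have := hN1le
        have h2 : ((2 * N1 : ℕ) : ℝ) ≤
            ((N * q ^ 2 + 2 * ((a + b) ^ 2 * q * (2 ^ k * r)) : ℕ) : ℝ) := by exact_mod_cast this
        push_cast at h2 ⊢
        linarith
      have hCq : 2 * C ≤ ε * q := by
        have h3 : 2 * C / ε < q := lt_of_lt_of_le hQ1 (by exact_mod_cast hqQ1)
        rw [div_lt_iff₀ hε] at h3
        linarith
      have h2k : (0 : ℝ) < 2 ^ k := by positivity
      have e1 : (N1 : ℝ) / 2 ^ k ≤ (N / 2 ^ (k + 1)) * (q : ℝ) ^ 2 + C * q := by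
        rw [div_le_iff₀ h2k]
        have e2 : ((N : ℝ) / 2 ^ (k + 1)) * (q : ℝ) ^ 2 * 2 ^ k = N * (q : ℝ) ^ 2 / 2 := by
          rw [pow_succ]; field_simp
        calc (N1 : ℝ) ≤ (N * (q : ℝ) ^ 2 + 2 * (((a + b : ℕ) : ℝ) ^ 2 * q * (2 ^ k * r))) / 2 := by
              linarith
          _ = N * (q : ℝ) ^ 2 / 2 + C * q * 2 ^ k := by rw [hC]; ring
          _ = ((N / 2 ^ (k + 1)) * (q : ℝ) ^ 2 + C * q) * 2 ^ k := by rw [add_mul, e2]
      have e3 : C * q ≤ ε / 2 * (q : ℝ) ^ 2 := by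
        have : C * q ≤ (ε * q / 2) * q := mul_le_mul_of_nonneg_right (by linarith) hqpos.le
        calc C * q ≤ (ε * q / 2) * q := this
          _ = ε / 2 * (q : ℝ) ^ 2 := by ring
      have hs2 : (0 : ℝ) ≤ (s : ℝ) ^ 2 := by positivity
      have e4 : (N1 : ℝ) / 2 ^ k + ε / 2 ≤ (N / 2 ^ (k + 1) + ε) * (q : ℝ) ^ 2 := by
        have h5 : ε / 2 ≤ ε / 2 * (q : ℝ) ^ 2 := by
          have : (1 : ℝ) ≤ (q : ℝ) ^ 2 := one_le_pow₀ hqR
          nlinarith
        calc (N1 : ℝ) / 2 ^ k + ε / 2 ≤ (N / 2 ^ (k + 1)) * (q : ℝ) ^ 2 + C * q + ε / 2 := by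
              linarith
          _ ≤ (N / 2 ^ (k + 1)) * (q : ℝ) ^ 2 + ε / 2 * (q : ℝ) ^ 2 + ε / 2 * (q : ℝ) ^ 2 := by
              linarith
          _ = (N / 2 ^ (k + 1) + ε) * (q : ℝ) ^ 2 := by ring
      calc (N' : ℝ) ≤ ((N1 : ℝ) / 2 ^ k + ε / 2) * (s : ℝ) ^ 2 := hN'
        _ ≤ (N / 2 ^ (k + 1) + ε) * (q : ℝ) ^ 2 * (s : ℝ) ^ 2 :=
            mul_le_mul_of_nonneg_right e4 hs2
        _ = (N / 2 ^ (k + 1) + ε) * ((q * s : ℕ) : ℝ) ^ 2 := by push_cast; ring

/-- Blow-up by the affine lines over `ZMod M`. -/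
theorem blowup {V : Type} [Fintype V] [DecidableEq V] (side : V → Bool) {N m r : ℕ}
    (h : CovOn side N m r) (M : ℕ) [NeZero M]
    (hM : ∀ d : ℕ, 0 < d → d < Fintype.card V → Nat.Coprime d M) :
    CovOn (fun x : V × ZMod M => side x.1) (N * M ^ 2) m r := by
  classical
  obtain ⟨ι, hι, F, hcard, hF⟩ := h
  let e : V ≃ Fin (Fintype.card V) := Fintype.equivFin V
  let l : V → ZMod M := fun u => ((e u : ℕ) : ZMod M)
  have hunit : ∀ u w, u ≠ w → IsUnit (l w - l u) := by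
    intro u w huw
    have hne : (e u : ℕ) ≠ (e w : ℕ) := fun h => huw (e.injective (Fin.ext h))
    rcases lt_or_gt_of_ne hne with hlt | hgt
    · have h1 : l w - l u = (((e w : ℕ) - (e u : ℕ) : ℕ) : ZMod M) := by
        rw [Nat.cast_sub hlt.le]
      rw [h1, ZMod.isUnit_iff_coprime]
      exact hM _ (by omega) (by have := (e w).2; omega)
    · have h1 : l w - l u = -(((e u : ℕ) - (e w : ℕ) : ℕ) : ZMod M) := by
        rw [Nat.cast_sub hgt.le]; ring
      rw [h1, IsUnit.neg_iff, ZMod.isUnit_iff_coprime]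
      exact hM _ (by omega) (by have := (e u).2; omega)
  let F₁ : ι × ZMod M × ZMod M → Finset (V × ZMod M) :=
    fun a => (F a.1).image (fun u => (u, a.2.1 + l u * a.2.2))
  have hmem₁ : ∀ (a : ι × ZMod M × ZMod M) (u : V) (x : ZMod M),
      (u, x) ∈ F₁ a ↔ (u ∈ F a.1 ∧ x = a.2.1 + l u * a.2.2) := by
    intro a u x
    simp only [F₁, Finset.mem_image, Prod.mk.injEq]
    constructor
    · rintro ⟨u', hu', rfl, rfl⟩
      exact ⟨hu', rfl⟩
    · rintro ⟨hu, rfl⟩
      exact ⟨u, hu, rfl, rfl⟩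
  have hup : ∀ u w x y, u ≠ w → cnt F₁ (u, x) (w, y) ≤ cnt F u w := by
    intro u w x y huw
    unfold cnt
    apply Finset.card_le_card_of_injOn (fun a => a.1)
    · intro a ha
      rw [Finset.mem_coe, Finset.mem_filter] at ha
      obtain ⟨_, h1, h2⟩ := ha
      rw [hmem₁] at h1 h2
      rw [Finset.mem_coe, Finset.mem_filter]
      exact ⟨Finset.mem_univ _, h1.1, h2.1⟩
    · rintro ⟨k, t, v⟩ ha ⟨k', t', v'⟩ ha' hkk
      simp only at hkk
      subst hkk
      rw [Finset.mem_coe, Finset.mem_filter] at ha ha'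
      obtain ⟨_, h1, h2⟩ := ha
      obtain ⟨_, h1', h2'⟩ := ha'
      rw [hmem₁] at h1 h2 h1' h2'
      have ha := h1.2
      have hb := h2.2
      have ha' := h1'.2
      have hb' := h2'.2
      simp only at ha hb ha' hb'
      have hd : (l w - l u) * v = (l w - l u) * v' := by
        have e1 : (l w - l u) * v = y - x := by rw [ha, hb]; ring
        have e2 : (l w - l u) * v' = y - x := by rw [ha', hb']; ring
        rw [e1, e2]
      have hv : v = v' := (hunit u w huw).mul_left_cancel hd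
      subst hv
      have ht : t = t' := add_right_cancel (ha.symm.trans ha')
      rw [ht]
  have hlow : ∀ u w x y, u ≠ w → cnt F u w ≤ cnt F₁ (u, x) (w, y) := by
    intro u w x y huw
    obtain ⟨d, hd⟩ := hunit u w huw
    unfold cnt
    apply Finset.card_le_card_of_injOn (fun k => (k,
      x - l u * (((d⁻¹ : (ZMod M)ˣ) : ZMod M) * (y - x)), ((d⁻¹ : (ZMod M)ˣ) : ZMod M) * (y - x)))
    · intro k hk
      rw [Finset.mem_coe, Finset.mem_filter] at hk ⊢
      refine ⟨Finset.mem_univ _, ?_, ?_⟩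
      · rw [hmem₁]
        exact ⟨hk.2.1, by simp⟩
      · rw [hmem₁]
        refine ⟨hk.2.2, ?_⟩
        simp only
        have h2 : (l w - l u) * (((d⁻¹ : (ZMod M)ˣ) : ZMod M) * (y - x)) = y - x := by
          rw [← hd, ← mul_assoc, Units.mul_inv, one_mul]
        linear_combination -h2
    · intro k _ k' _ hkk
      exact congrArg Prod.fst hkk
  refine ⟨_, inferInstance, F₁, ?_, ?_⟩
  · rw [Fintype.card_prod, Fintype.card_prod, ZMod.card]
    calc Fintype.card ι * (M * M) ≤ N * (M * M) := Nat.mul_le_mul_right _ hcard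
      _ = N * M ^ 2 := by ring
  · rintro ⟨u, x⟩ ⟨w, y⟩ hne
    constructor
    · intro hs
      simp only at hs
      by_cases huw : u = w
      · subst huw
        have hxy : x ≠ y := by
          rintro rfl; exact hne rfl
        have h0 : cnt F₁ (u, x) (u, y) = 0 := by
          unfold cnt
          rw [Finset.card_eq_zero, Finset.filter_eq_empty_iff]
          intro a _ h
          rw [hmem₁, hmem₁] at h
          exact hxy (h.1.2.trans h.2.2.symm)
        rw [h0]; exact Nat.zero_le _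
      · exact le_trans (hup u w x y huw) ((hF u w huw).1 hs)
    · intro hs
      simp only at hs
      have huw : u ≠ w := by
        rintro rfl; exact hs rfl
      exact le_trans ((hF u w huw).2 hs) (hlow u w x y huw)

theorem blowupN {a b N m r : ℕ} (h : CovN a b N m r) (M : ℕ)
    (hM : M % (a + b).factorial = 1 % (a + b).factorial) :
    CovN (a * M) (b * M) (N * M ^ 2) m r := by
  have hcop : ∀ d : ℕ, 0 < d → d < a + b → Nat.Coprime d M := by
    intro d hd hd2
    have hdvd : d ∣ (a + b).factorial := Nat.dvd_factorial hd hd2.le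
    have h1 : M ≡ 1 [MOD d] := Nat.ModEq.of_dvd hdvd hM
    have h2 := h1.gcd_eq
    rw [Nat.gcd_one_left] at h2
    rw [Nat.Coprime, Nat.gcd_comm]; exact h2
  rcases Nat.eq_zero_or_pos M with h0 | hpos
  · subst h0
    refine ⟨Fin 0, inferInstance, fun k => k.elim0, by simp, ?_⟩
    rintro (x | x) <;> exact absurd x.2 (by simp)
  · have : NeZero M := ⟨hpos.ne'⟩
    have := blowup _ h M (by simpa using hcop)
    exact CovN.of_prod ((Fintype.equivFin (ZMod M)).trans (finCongr (ZMod.card M))) this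

end Pool.Agent.Lib_helper78.PI
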