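import Mathlib

/-!
Definitions for the asymptotic `p`-intersection number of complete bipartite graphs.
-/

set_option autoImplicit false

namespace Pool.Agent.Lib_helper78.PI

/-- `S` is a `p`-intersection representation of the graph `G` on `t` points. -/
def IsRep {V : Type} (G : SimpleGraph V) (p t : ℕ) (S : V → Finset (Fin t)) : Prop :=
  ∀ u v : V, u ≠ v → (G.Adj u v ↔ p ≤ (S u ∩ S v).card)

/-- The `p`-intersection number of `G`: the least `t` for which there is a `p`-intersection
representation of `G` on `t` points. -/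
noncomputable def theta {V : Type} (p : ℕ) (G : SimpleGraph V) : ℕ :=
  sInf {t : ℕ | ∃ S : V → Finset (Fin t), IsRep G p t S}

/-- The constraints of the linear program: finitely many types `(i, j)` of natural numbers carry
weights `w (i, j) ≥ 0` with `∑ w i j ≥ p`, `∑ w i (i - 1) ≤ (p - 1) lam` and
`∑ w j (j - 1) ≤ (p - 1) / lam`. -/
structure Feasible (p : ℕ) (lam : ℝ) (w : ℕ × ℕ →₀ ℝ) : Prop where
  nonneg : ∀ x, 0 ≤ w x
  cross : (p : ℝ) ≤ w.sum fun x c => c * ((x.1 : ℝ) * (x.2 : ℝ))
  left : (w.sum fun x c => c * ((x.1 : ℝ) * ((x.1 : ℝ) - 1))) ≤ ((p : ℝ) - 1) * lam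
  right : (w.sum fun x c => c * ((x.2 : ℝ) * ((x.2 : ℝ) - 1))) ≤ ((p : ℝ) - 1) / lam

/-- The value of the linear program: the infimum of the total weight `∑ w (i, j)` over all
feasible `w`. -/
noncomputable def lpValue (p : ℕ) (lam : ℝ) : ℝ :=
  sInf {t : ℝ | ∃ w : ℕ × ℕ →₀ ℝ, Feasible p lam w ∧ t = w.sum fun _ c => c}

end Pool.Agent.Lib_helper78.PI
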