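import Mathlib

/-!
The finite linear program.
-/

set_option autoImplicit false

namespace Pool.Agent.Lib_helper78.PI

/-- The constraints of the linear program with types `(i, j)`, `0 ≤ i, j ≤ B`: the weights
`w i j` are nonnegative, `∑ w i j * i * j ≥ p`, `∑ w i j * i * (i - 1) ≤ (p - 1) * lam` and
`∑ w i j * j * (j - 1) ≤ (p - 1) / lam`. -/
structure BoxFeasible (p B : ℕ) (lam : ℝ) (w : Fin (B + 1) → Fin (B + 1) → ℝ) : Prop where
  nonneg : ∀ i j, 0 ≤ w i j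
  cross : (p : ℝ) ≤ ∑ i, ∑ j, w i j * (((i : ℕ) : ℝ) * ((j : ℕ) : ℝ))
  left : ∑ i, ∑ j, w i j * (((i : ℕ) : ℝ) * (((i : ℕ) : ℝ) - 1)) ≤ ((p : ℝ) - 1) * lam
  right : ∑ i, ∑ j, w i j * (((j : ℕ) : ℝ) * (((j : ℕ) : ℝ) - 1)) ≤ ((p : ℝ) - 1) / lam

/-- The possible total weights `∑ w i j` of feasible weights. -/
def boxValues (p B : ℕ) (lam : ℝ) : Set ℝ :=
  {t : ℝ | ∃ w : Fin (B + 1) → Fin (B + 1) → ℝ, BoxFeasible p B lam w ∧ t = ∑ i, ∑ j, w i j}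

/-- An explicit sufficient size of the box of types. -/
noncomputable def boxSize (p : ℕ) (lam : ℝ) : ℕ :=
  3 * ⌈2 * (p : ℝ) ^ 2 * (1 + lam) * (1 + 1 / lam)⌉₊ ^ 2

end Pool.Agent.Lib_helper78.PI
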