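import Pool.Agent.Lib_helper78.PI.Box2
import Pool.Agent.Lib_helper78.PI.FinDefs

/-!
The value of the linear program is the minimum of an explicit finite linear program.
-/

set_option autoImplicit false

namespace Pool.Agent.Lib_helper78.PI

open Finset Filter Topology

theorem sum_box (B : ℕ) (v : ℕ × ℕ →₀ ℝ) (hv : ∀ y, v y ≠ 0 → y.1 ≤ B ∧ y.2 ≤ B)
    (β : ℕ × ℕ → ℝ) : ∑ i : Fin (B + 1), ∑ j : Fin (B + 1), v ((i : ℕ), (j : ℕ)) * β ((i : ℕ), (j : ℕ)) =
      lin β v := by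
  have hsub : v.support ⊆ Finset.range (B + 1) ×ˢ Finset.range (B + 1) := by
    intro y hy
    rw [Finsupp.mem_support_iff] at hy
    have := hv y hy
    rw [Finset.mem_product, Finset.mem_range, Finset.mem_range]
    omega
  rw [lin_eq, fsum_eq v _ hsub β, Finset.sum_product, Finset.sum_range]
  refine Finset.sum_congr rfl (fun i _ => ?_)
  rw [Finset.sum_range]

/-- the Finsupp of a matrix -/
noncomputable def toF (B : ℕ) (w : Fin (B + 1) → Fin (B + 1) → ℝ) : ℕ × ℕ →₀ ℝ :=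
  ∑ i : Fin (B + 1), ∑ j : Fin (B + 1), Finsupp.single ((i : ℕ), (j : ℕ)) (w i j)

theorem lin_toF (B : ℕ) (w : Fin (B + 1) → Fin (B + 1) → ℝ) (β : ℕ × ℕ → ℝ) :
    lin β (toF B w) = ∑ i, ∑ j, w i j * β ((i : ℕ), (j : ℕ)) := by
  unfold toF
  rw [map_sum]
  refine Finset.sum_congr rfl (fun i _ => ?_)
  rw [map_sum]
  refine Finset.sum_congr rfl (fun j _ => ?_)
  rw [lin_single]

theorem toF_nonneg (B : ℕ) (w : Fin (B + 1) → Fin (B + 1) → ℝ) (hw : ∀ i j, 0 ≤ w i j) :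
    ∀ x, 0 ≤ toF B w x := by
  intro x
  unfold toF
  simp only [Finsupp.finsetSum_apply]
  refine Finset.sum_nonneg (fun i _ => Finset.sum_nonneg (fun j _ => ?_))
  rw [Finsupp.single_apply]
  split_ifs
  · exact hw i j
  · exact le_rfl

theorem BoxFeasible.toFeasible {p B : ℕ} {lam : ℝ} {w : Fin (B + 1) → Fin (B + 1) → ℝ}
    (h : BoxFeasible p B lam w) : Feasible p lam (toF B w) := by
  rw [feasible_iff]
  refine ⟨toF_nonneg B w h.nonneg, ?_, ?_, ?_⟩
  · rw [lin_toF]; exact h.cross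
  · rw [lin_toF]; exact h.left
  · rw [lin_toF]; exact h.right

theorem lpValue_le_box {p B : ℕ} {lam t : ℝ} (ht : t ∈ boxValues p B lam) : lpValue p lam ≤ t := by
  obtain ⟨w, hw, rfl⟩ := ht
  have := lpValue_le hw.toFeasible
  rw [total_eq, lin_toF] at this
  simpa [fT] using this

theorem Feasible.toBox {p B : ℕ} {lam : ℝ} {v : ℕ × ℕ →₀ ℝ} (h : Feasible p lam v)
    (hv : ∀ y, v y ≠ 0 → y.1 ≤ B ∧ y.2 ≤ B) : lin fT v ∈ boxValues p B lam := by
  rw [feasible_iff] at h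
  obtain ⟨h0, hP, hI, hJ⟩ := h
  refine ⟨fun i j => v ((i : ℕ), (j : ℕ)), ⟨fun i j => h0 _, ?_, ?_, ?_⟩, ?_⟩
  · rw [← sum_box B v hv] at hP
    exact hP
  · rw [← sum_box B v hv] at hI
    exact hI
  · rw [← sum_box B v hv] at hJ
    exact hJ
  · rw [← sum_box B v hv]
    simp [fT]

theorem one_mem_box {p B : ℕ} (hp : 1 ≤ p) (hB : 1 ≤ B) {lam : ℝ} (hl : 0 < lam) :
    (p : ℝ) ∈ boxValues p B lam := by
  have h := (feasible_one p hp lam hl).toBox (B := B) (by
    intro y hy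
    rw [Finsupp.single_apply] at hy
    split_ifs at hy with h
    · rw [← h]; exact ⟨hB, hB⟩
    · exact absurd rfl hy)
  rw [lin_single] at h
  simpa [fT] using h

/-- the minimum over the box is attained -/
theorem box_attained {p B : ℕ} (hp : 1 ≤ p) (hB : 1 ≤ B) {lam : ℝ} (hl : 0 < lam) :
    ∃ c, IsLeast (boxValues p B lam) c := by
  let tot : (Fin (B + 1) → Fin (B + 1) → ℝ) → ℝ := fun w => ∑ i, ∑ j, w i j
  let C : Set (Fin (B + 1) → Fin (B + 1) → ℝ) := {w | BoxFeasible p B lam w ∧ tot w ≤ p}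
  have htot : Continuous tot := by
    simp only [tot]; fun_prop
  have hclosed : IsClosed C := by
    have hC : C = ((⋂ i, ⋂ j, {w : Fin (B + 1) → Fin (B + 1) → ℝ | 0 ≤ w i j}) ∩
        {w | (p : ℝ) ≤ ∑ i, ∑ j, w i j * (((i : ℕ) : ℝ) * ((j : ℕ) : ℝ))} ∩
        {w | ∑ i, ∑ j, w i j * (((i : ℕ) : ℝ) * (((i : ℕ) : ℝ) - 1)) ≤ ((p : ℝ) - 1) * lam} ∩
        {w | ∑ i, ∑ j, w i j * (((j : ℕ) : ℝ) * (((j : ℕ) : ℝ) - 1)) ≤ ((p : ℝ) - 1) / lam}) ∩
        {w | tot w ≤ p} := by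
      ext w
      simp only [C, Set.mem_ofPred_eq, Set.mem_inter_iff, Set.mem_iInter]
      constructor
      · rintro ⟨⟨h1, h2, h3, h4⟩, h5⟩
        exact ⟨⟨⟨⟨h1, h2⟩, h3⟩, h4⟩, h5⟩
      · rintro ⟨⟨⟨⟨h1, h2⟩, h3⟩, h4⟩, h5⟩
        exact ⟨⟨h1, h2, h3, h4⟩, h5⟩
    rw [hC]
    refine IsClosed.inter (IsClosed.inter (IsClosed.inter (IsClosed.inter ?_ ?_) ?_) ?_) ?_
    · refine isClosed_iInter (fun i => isClosed_iInter (fun j => ?_))
      exact isClosed_le continuous_const (by fun_prop)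
    · exact isClosed_le continuous_const (by fun_prop)
    · exact isClosed_le (by fun_prop) continuous_const
    · exact isClosed_le (by fun_prop) continuous_const
    · exact isClosed_le htot continuous_const
  have hsub : C ⊆ Set.Icc (fun _ _ => (0 : ℝ)) (fun _ _ => (p : ℝ)) := by
    rintro w ⟨hw, hle⟩
    constructor
    · intro i j
      exact hw.nonneg i j
    · intro i j
      refine le_trans ?_ hle
      calc w i j ≤ ∑ j, w i j :=
            Finset.single_le_sum (f := fun j => w i j) (fun j _ => hw.nonneg i j) (Finset.mem_univ j)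
        _ ≤ ∑ i, ∑ j, w i j :=
            Finset.single_le_sum (f := fun i => ∑ j, w i j)
              (fun i _ => Finset.sum_nonneg (fun j _ => hw.nonneg i j)) (Finset.mem_univ i)
  have hcomp : IsCompact C := isCompact_Icc.of_isClosed_subset hclosed hsub
  obtain ⟨w1, hw1, hw1t⟩ := one_mem_box (p := p) (B := B) hp hB hl
  have hne : C.Nonempty := ⟨w1, hw1, by simp only [tot]; exact hw1t.symm.le⟩
  obtain ⟨w0, hw0, hmin⟩ := hcomp.exists_isMinOn hne htot.continuousOn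
  refine ⟨tot w0, ⟨w0, hw0.1, rfl⟩, ?_⟩
  rintro t ⟨w, hw, rfl⟩
  rcases le_total (tot w) p with h | h
  · exact hmin (show w ∈ C from ⟨hw, h⟩)
  · exact le_trans hw0.2 h

theorem isLeast_box {p B : ℕ} (hp : 1 ≤ p) {lam : ℝ} (hl : 0 < lam) (hB : boxSize p lam ≤ B) :
    IsLeast (boxValues p B lam) (lpValue p lam) := by
  have hB' : 3 * auxSize p lam ^ 2 ≤ B := hB
  have hB1 : 1 ≤ B := by
    have h1 := (auxSize_spec hp hl).2
    have hinv : 0 < 1 / lam := by positivity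
    have h2 : (4 : ℝ) ≤ auxSize p lam := by linarith
    have h3 : 4 ≤ auxSize p lam := by exact_mod_cast h2
    nlinarith
  obtain ⟨c, hc, hcl⟩ := box_attained (p := p) (B := B) hp hB1 hl
  have h1 : lpValue p lam ≤ c := lpValue_le_box hc
  have h2 : c ≤ lpValue p lam := by
    refine le_lpValue hp hl (fun w hw => ?_)
    obtain ⟨w', hw', hs, hle⟩ := to_box hp hl B hB' hw
    rw [total_eq]
    exact le_trans (hcl (hw'.toBox hs)) hle
  have h3 : lpValue p lam = c := le_antisymm h1 h2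
  rw [h3]
  exact ⟨hc, hcl⟩

end Pool.Agent.Lib_helper78.PI
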