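import Pool.Agent.Lib_helper78.PI.ToCov

/-!
The linear program.
-/

set_option autoImplicit false

namespace Pool.Agent.Lib_helper78.PI

open Finset Filter Topology

/-- value sum as a `Finset` sum over any larger set -/
theorem fsum_eq (w : ℕ × ℕ →₀ ℝ) (s : Finset (ℕ × ℕ)) (hs : w.support ⊆ s) (β : ℕ × ℕ → ℝ) :
    (w.sum fun x c => c * β x) = ∑ x ∈ s, w x * β x := by
  rw [Finsupp.sum]
  refine Finset.sum_subset hs (fun x _ hx => ?_)
  rw [Finsupp.notMem_support_iff] at hx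
  rw [hx, zero_mul]

theorem fsum_one (w : ℕ × ℕ →₀ ℝ) (s : Finset (ℕ × ℕ)) (hs : w.support ⊆ s) :
    (w.sum fun _ c => c) = ∑ x ∈ s, w x := by
  have := fsum_eq w s hs (fun _ => 1)
  simpa using this

theorem fsum_add (v w : ℕ × ℕ →₀ ℝ) (β : ℕ × ℕ → ℝ) :
    ((v + w).sum fun x c => c * β x) = (v.sum fun x c => c * β x) + (w.sum fun x c => c * β x) :=
  Finsupp.sum_add_index' (fun x => by simp) (fun x c d => by ring)

theorem fsum_add_one (v w : ℕ × ℕ →₀ ℝ) :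
    ((v + w).sum fun _ c => c) = (v.sum fun _ c => c) + (w.sum fun _ c => c) :=
  Finsupp.sum_add_index' (fun x => by simp) (fun x c d => by ring)

theorem fsum_smul (t : ℝ) (w : ℕ × ℕ →₀ ℝ) (β : ℕ × ℕ → ℝ) :
    ((t • w).sum fun x c => c * β x) = t * (w.sum fun x c => c * β x) := by
  rw [Finsupp.sum_smul_index' (fun x => by simp), Finsupp.mul_sum]
  simp only [smul_eq_mul, mul_assoc]

theorem fsum_smul_one (t : ℝ) (w : ℕ × ℕ →₀ ℝ) :
    ((t • w).sum fun _ c => c) = t * (w.sum fun _ c => c) := by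
  rw [Finsupp.sum_smul_index' (fun x => by simp), Finsupp.mul_sum]
  simp only [smul_eq_mul]

theorem fsum_single (x : ℕ × ℕ) (t : ℝ) (β : ℕ × ℕ → ℝ) :
    ((Finsupp.single x t).sum fun x c => c * β x) = t * β x :=
  Finsupp.sum_single_index (by simp)

theorem fsum_single_one (x : ℕ × ℕ) (t : ℝ) :
    ((Finsupp.single x t).sum fun _ c => c) = t :=
  Finsupp.sum_single_index (by simp)

theorem Feasible.total_nonneg {p : ℕ} {lam : ℝ} {w : ℕ × ℕ →₀ ℝ} (h : Feasible p lam w) :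
    0 ≤ w.sum fun _ c => c := by
  rw [fsum_one w w.support subset_rfl]
  exact Finset.sum_nonneg (fun x _ => h.nonneg x)

theorem bddBelow_values (p : ℕ) (lam : ℝ) :
    BddBelow {t : ℝ | ∃ w : ℕ × ℕ →₀ ℝ, Feasible p lam w ∧ t = w.sum fun _ c => c} := by
  refine ⟨0, ?_⟩
  rintro t ⟨w, hw, rfl⟩
  exact hw.total_nonneg

theorem lpValue_le {p : ℕ} {lam : ℝ} {w : ℕ × ℕ →₀ ℝ} (h : Feasible p lam w) :
    lpValue p lam ≤ w.sum fun _ c => c :=
  csInf_le (bddBelow_values p lam) ⟨w, h, rfl⟩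

/-- all weight on `(1,1)` -/
theorem feasible_one (p : ℕ) (hp : 1 ≤ p) (lam : ℝ) (hl : 0 < lam) :
    Feasible p lam (Finsupp.single (1, 1) (p : ℝ)) := by
  have hpR : (1 : ℝ) ≤ p := by exact_mod_cast hp
  refine ⟨?_, ?_, ?_, ?_⟩
  · intro x
    by_cases h : x = (1, 1)
    · subst h; simp
    · rw [Finsupp.single_apply, if_neg (Ne.symm h)]
  · rw [fsum_single (1, 1) (p : ℝ) (fun x => (x.1 : ℝ) * (x.2 : ℝ))]; simp
  · rw [fsum_single (1, 1) (p : ℝ) (fun x => (x.1 : ℝ) * ((x.1 : ℝ) - 1))]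
    simp
    exact mul_nonneg (by linarith) hl.le
  · rw [fsum_single (1, 1) (p : ℝ) (fun x => (x.2 : ℝ) * ((x.2 : ℝ) - 1))]
    simp
    exact div_nonneg (by linarith) hl.le

theorem values_nonempty (p : ℕ) (hp : 1 ≤ p) (lam : ℝ) (hl : 0 < lam) :
    {t : ℝ | ∃ w : ℕ × ℕ →₀ ℝ, Feasible p lam w ∧ t = w.sum fun _ c => c}.Nonempty :=
  ⟨_, _, feasible_one p hp lam hl, rfl⟩

theorem exists_feasible_lt {p : ℕ} (hp : 1 ≤ p) {lam : ℝ} (hl : 0 < lam) {t : ℝ}
    (h : lpValue p lam < t) : ∃ w : ℕ × ℕ →₀ ℝ, Feasible p lam w ∧ (w.sum fun _ c => c) < t := by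
  obtain ⟨_, ⟨w, hw, rfl⟩, h2⟩ := exists_lt_of_csInf_lt (values_nonempty p hp lam hl) h
  exact ⟨w, hw, h2⟩

theorem le_lpValue {p : ℕ} (hp : 1 ≤ p) {lam : ℝ} (hl : 0 < lam) {t : ℝ}
    (h : ∀ w : ℕ × ℕ →₀ ℝ, Feasible p lam w → t ≤ w.sum fun _ c => c) : t ≤ lpValue p lam := by
  refine le_csInf (values_nonempty p hp lam hl) ?_
  rintro _ ⟨w, hw, rfl⟩
  exact h w hw

/-- mixing with the type `(1,1)` -/
theorem Feasible.mix {p : ℕ} {lam lam' : ℝ} {w : ℕ × ℕ →₀ ℝ} (h : Feasible p lam' w)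
    {θ τ : ℝ} (hθ : 0 ≤ θ) (hτ : 0 ≤ τ) (h1 : (p : ℝ) ≤ θ * p + τ)
    (h2 : θ * (((p : ℝ) - 1) * lam') ≤ ((p : ℝ) - 1) * lam)
    (h3 : θ * (((p : ℝ) - 1) / lam') ≤ ((p : ℝ) - 1) / lam) :
    Feasible p lam (θ • w + Finsupp.single (1, 1) τ) := by
  refine ⟨?_, ?_, ?_, ?_⟩
  · intro x
    have e1 : 0 ≤ θ * w x := mul_nonneg hθ (h.nonneg x)
    have e2 : (0 : ℝ) ≤ Finsupp.single ((1, 1) : ℕ × ℕ) τ x := by
      rw [Finsupp.single_apply]; split_ifs <;> linarith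
    simpa using add_nonneg e1 e2
  · rw [fsum_add, fsum_smul, fsum_single (1, 1) τ (fun x => (x.1 : ℝ) * (x.2 : ℝ))]
    have := mul_le_mul_of_nonneg_left h.cross hθ
    simp only [Nat.cast_one, mul_one]
    linarith
  · rw [fsum_add, fsum_smul, fsum_single (1, 1) τ (fun x => (x.1 : ℝ) * ((x.1 : ℝ) - 1))]
    have := mul_le_mul_of_nonneg_left h.left hθ
    simp only [Nat.cast_one, sub_self, mul_zero, add_zero]
    linarith
  · rw [fsum_add, fsum_smul, fsum_single (1, 1) τ (fun x => (x.2 : ℝ) * ((x.2 : ℝ) - 1))]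
    have := mul_le_mul_of_nonneg_left h.right hθ
    simp only [Nat.cast_one, sub_self, mul_zero, add_zero]
    linarith

theorem mix_total (w : ℕ × ℕ →₀ ℝ) (θ τ : ℝ) :
    ((θ • w + Finsupp.single (1, 1) τ).sum fun _ c => c) = θ * (w.sum fun _ c => c) + τ := by
  rw [fsum_add_one, fsum_smul_one, fsum_single_one]

/-- comparison of two ratios -/
theorem lpValue_compare {p : ℕ} (hp : 1 ≤ p) {lam lam' θ : ℝ} (hl : 0 < lam) (hl' : 0 < lam')
    (hθ : 0 < θ) (hθ1 : θ ≤ 1) (h1 : θ * lam' ≤ lam) (h2 : θ * lam ≤ lam') :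
    lpValue p lam ≤ θ * lpValue p lam' + (1 - θ) * p := by
  have hpR : (1 : ℝ) ≤ p := by exact_mod_cast hp
  have key : (lpValue p lam - (1 - θ) * p) / θ ≤ lpValue p lam' := by
    refine le_lpValue hp hl' (fun w hw => ?_)
    have hf : Feasible p lam (θ • w + Finsupp.single (1, 1) ((1 - θ) * p)) := by
      refine hw.mix hθ.le (mul_nonneg (by linarith) (by linarith)) (by linarith) ?_ ?_
      · calc θ * (((p : ℝ) - 1) * lam') = ((p : ℝ) - 1) * (θ * lam') := by ring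
          _ ≤ ((p : ℝ) - 1) * lam := mul_le_mul_of_nonneg_left h1 (by linarith)
      · rw [mul_div_assoc', div_le_div_iff₀ hl' hl]
        calc θ * ((p : ℝ) - 1) * lam = ((p : ℝ) - 1) * (θ * lam) := by ring
          _ ≤ ((p : ℝ) - 1) * lam' := mul_le_mul_of_nonneg_left h2 (by linarith)
    have := lpValue_le hf
    rw [mix_total] at this
    rw [div_le_iff₀ hθ]
    linarith
  rw [div_le_iff₀ hθ] at key
  linarith

/-- weights for `p = 1` -/
theorem one_le_total {lam : ℝ} {w : ℕ × ℕ →₀ ℝ} (h : Feasible 1 lam w) :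
    1 ≤ w.sum fun _ c => c := by
  have hc := h.cross
  have hL := h.left
  have hR := h.right
  rw [fsum_eq w w.support subset_rfl (fun x => (x.1 : ℝ) * (x.2 : ℝ))] at hc
  rw [fsum_eq w w.support subset_rfl (fun x => (x.1 : ℝ) * ((x.1 : ℝ) - 1))] at hL
  rw [fsum_eq w w.support subset_rfl (fun x => (x.2 : ℝ) * ((x.2 : ℝ) - 1))] at hR
  rw [fsum_one w w.support subset_rfl]
  have hint : ∀ i : ℕ, (0 : ℝ) ≤ (i : ℝ) * ((i : ℝ) - 1) := by
    intro i
    rcases Nat.eq_zero_or_pos i with h0 | h0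
    · subst h0; simp
    · have : (1 : ℝ) ≤ i := by exact_mod_cast h0
      exact mul_nonneg (by linarith) (by linarith)
  have hle : ∀ x : ℕ × ℕ, (x.1 : ℝ) * (x.2 : ℝ) ≤ 1 + (x.1 : ℝ) * ((x.1 : ℝ) - 1) +
      (x.2 : ℝ) * ((x.2 : ℝ) - 1) := by
    intro x
    nlinarith [sq_nonneg ((x.1 : ℝ) - 1), sq_nonneg ((x.2 : ℝ) - 1),
      sq_nonneg ((x.1 : ℝ) - (x.2 : ℝ))]
  have hsum : ∑ x ∈ w.support, w x * ((x.1 : ℝ) * (x.2 : ℝ)) ≤ ∑ x ∈ w.support, w x +
      ∑ x ∈ w.support, w x * ((x.1 : ℝ) * ((x.1 : ℝ) - 1)) +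
      ∑ x ∈ w.support, w x * ((x.2 : ℝ) * ((x.2 : ℝ) - 1)) := by
    rw [← Finset.sum_add_distrib, ← Finset.sum_add_distrib]
    refine Finset.sum_le_sum (fun x _ => ?_)
    have := mul_le_mul_of_nonneg_left (hle x) (h.nonneg x)
    linarith
  simp only [Nat.cast_one, sub_self, zero_mul, zero_div] at hc hL hR
  linarith

/-- all edges as blocks -/
theorem cov_edges (a b r : ℕ) : CovN a b (r * (a * b)) 0 r := by
  classical
  refine ⟨Fin r × Fin a × Fin b, inferInstance, fun k => {Sum.inl k.2.1, Sum.inr k.2.2}, ?_, ?_⟩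
  · simp
  · have hx : ∀ (u : Fin a) (v : Fin b), r ≤ cnt (fun k : Fin r × Fin a × Fin b =>
        ({Sum.inl k.2.1, Sum.inr k.2.2} : Finset (Fin a ⊕ Fin b))) (Sum.inl u) (Sum.inr v) := by
      intro u v
      unfold cnt
      calc r = (univ : Finset (Fin r)).card := by simp
        _ ≤ _ := by
          apply Finset.card_le_card_of_injOn (fun i : Fin r => ((i, u, v) : Fin r × Fin a × Fin b))
          · intro i _
            rw [Finset.mem_coe, Finset.mem_filter]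
            simp
          · intro i _ i' _ h
            simpa using h
    rintro (x | x) (y | y) hxy
    · refine ⟨fun _ => ?_, fun h => absurd rfl h⟩
      unfold cnt
      rw [Nat.le_zero, Finset.card_eq_zero, Finset.filter_eq_empty_iff]
      rintro k _ ⟨h1, h2⟩
      simp only [Finset.mem_insert, Finset.mem_singleton, Sum.inl.injEq, reduceCtorEq,
        or_false] at h1 h2
      exact hxy (by rw [h1, h2])
    · exact ⟨fun h => by simp at h, fun _ => hx x y⟩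
    · exact ⟨fun h => by simp at h, fun _ => by rw [cnt_comm]; exact hx y x⟩
    · refine ⟨fun _ => ?_, fun h => absurd rfl h⟩
      unfold cnt
      rw [Nat.le_zero, Finset.card_eq_zero, Finset.filter_eq_empty_iff]
      rintro k _ ⟨h1, h2⟩
      simp only [Finset.mem_insert, Finset.mem_singleton, Sum.inr.injEq, reduceCtorEq,
        false_or] at h1 h2
      exact hxy (by rw [h1, h2])

/-- covers from feasible weights -/
theorem exists_cov (p : ℕ) (hp : 1 ≤ p) (lam : ℝ) (hl : 0 < lam) (w : ℕ × ℕ →₀ ℝ)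
    (hw : Feasible p lam w) (δ : ℝ) (hδ : 0 < δ) :
    ∃ a0 b0 N0 : ℕ, 0 < a0 ∧ 0 < b0 ∧ CovN a0 b0 N0 (p - 1) p ∧
      (N0 : ℝ) ≤ ((w.sum fun _ c => c) + δ) * ((a0 : ℝ) * b0) ∧
      lam * b0 ≤ (1 + δ) * a0 ∧ (a0 : ℝ) ≤ (1 + δ) * (lam * b0) := by
  rcases Nat.lt_or_ge p 2 with hp2 | hp2
  · -- `p = 1`
    have hp1 : p = 1 := by omega
    subst hp1
    have hq : Tendsto (fun n : ℕ => ((⌈lam * (n : ℝ)⌉₊ : ℕ) : ℝ) / (n : ℝ)) atTop (𝓝 lam) :=
      (tendsto_nat_ceil_mul_div_atTop hl.le).comp tendsto_natCast_atTop_atTop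
    have hG : Tendsto (fun n : ℕ => ⌈lam * (n : ℝ)⌉₊) atTop atTop := by
      refine tendsto_nat_ceil_atTop.comp ?_
      exact tendsto_natCast_atTop_atTop.const_mul_atTop hl
    have e4 : ∀ᶠ n : ℕ in atTop, lam / (1 + δ) < ((⌈lam * (n : ℝ)⌉₊ : ℕ) : ℝ) / (n : ℝ) := by
      refine hq.eventually_const_lt ?_
      rw [div_lt_iff₀ (by positivity)]
      nlinarith
    have e5 : ∀ᶠ n : ℕ in atTop, ((⌈lam * (n : ℝ)⌉₊ : ℕ) : ℝ) / (n : ℝ) < (1 + δ) * lam := by
      refine hq.eventually_lt_const ?_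
      nlinarith
    obtain ⟨n, hn4, hn5, hn6, hn7⟩ := (e4.and (e5.and
      ((eventually_gt_atTop 0).and (hG.eventually_gt_atTop 0)))).exists
    have hgR : (1 : ℝ) ≤ ((⌈lam * (n : ℝ)⌉₊ : ℕ) : ℝ) := by exact_mod_cast hn7
    have hnR : (1 : ℝ) ≤ n := by exact_mod_cast hn6
    refine ⟨⌈lam * (n : ℝ)⌉₊, n, 1 * (⌈lam * (n : ℝ)⌉₊ * n), hn7, hn6, cov_edges _ _ _, ?_, ?_, ?_⟩
    · have := one_le_total hw
      push_cast
      have h5 : (0 : ℝ) ≤ ((⌈lam * (n : ℝ)⌉₊ : ℕ) : ℝ) * n := by positivity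
      nlinarith
    · rw [div_lt_div_iff₀ (by positivity) (by positivity)] at hn4
      linarith
    · rw [div_lt_iff₀ (by positivity)] at hn5
      linarith
  · -- `p ≥ 2`
    have hpR : (2 : ℝ) ≤ p := by exact_mod_cast hp2
    set W := w.sum fun _ c => c with hW
    have hW0 : 0 ≤ W := hw.total_nonneg
    set θ : ℝ := min (1 / 2) (δ / (2 * (p + 1))) with hθ
    have hθ0 : 0 < θ := by
      rw [hθ]; exact lt_min (by norm_num) (by positivity)
    have hθ1 : θ ≤ 1 / 2 := min_le_left _ _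
    have hθ2 : θ * (p + 1) ≤ δ / 2 := by
      have : θ ≤ δ / (2 * (p + 1)) := min_le_right _ _
      rw [le_div_iff₀ (by positivity)] at this
      linarith
    set s : Finset (ℕ × ℕ) := insert (1, 1) w.support with hs
    set w1 : ℕ × ℕ →₀ ℝ := (1 - θ) • w + Finsupp.single (1, 1) (θ * p + θ) with hw1
    have hsup : w1.support ⊆ s := by
      intro x hx
      by_contra hxs
      rw [hs, Finset.mem_insert, not_or, Finsupp.notMem_support_iff] at hxs
      rw [Finsupp.mem_support_iff] at hx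
      apply hx
      simp [hw1, hxs.2, Ne.symm hxs.1]
    have hnn : ∀ x, 0 ≤ w1 x := by
      intro x
      have e1 : 0 ≤ (1 - θ) * w x := mul_nonneg (by linarith) (hw.nonneg x)
      have e2 : (0 : ℝ) ≤ Finsupp.single ((1, 1) : ℕ × ℕ) (θ * p + θ) x := by
        rw [Finsupp.single_apply]; split_ifs
        · positivity
        · exact le_rfl
      simpa [hw1] using add_nonneg e1 e2
    have h1 : ∑ x ∈ s, w1 x * ((x.1 : ℝ) * ((x.1 : ℝ) - 1)) < ((p : ℝ) - 1) * lam := by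
      rw [← fsum_eq w1 s hsup (fun x => (x.1 : ℝ) * ((x.1 : ℝ) - 1)), hw1, fsum_add, fsum_smul,
        fsum_single (1, 1) _ (fun x => (x.1 : ℝ) * ((x.1 : ℝ) - 1))]
      have e1 := mul_le_mul_of_nonneg_left hw.left (by linarith : (0 : ℝ) ≤ 1 - θ)
      have e2 : 0 < ((p : ℝ) - 1) * lam := mul_pos (by linarith) hl
      simp only [Nat.cast_one, sub_self, mul_zero, add_zero]
      nlinarith
    have h2 : ∑ x ∈ s, w1 x * ((x.2 : ℝ) * ((x.2 : ℝ) - 1)) < ((p : ℝ) - 1) / lam := by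
      rw [← fsum_eq w1 s hsup (fun x => (x.2 : ℝ) * ((x.2 : ℝ) - 1)), hw1, fsum_add, fsum_smul,
        fsum_single (1, 1) _ (fun x => (x.2 : ℝ) * ((x.2 : ℝ) - 1))]
      have e1 := mul_le_mul_of_nonneg_left hw.right (by linarith : (0 : ℝ) ≤ 1 - θ)
      have e2 : 0 < ((p : ℝ) - 1) / lam := div_pos (by linarith) hl
      simp only [Nat.cast_one, sub_self, mul_zero, add_zero]
      nlinarith
    have h3 : (p : ℝ) < ∑ x ∈ s, w1 x * ((x.1 : ℝ) * (x.2 : ℝ)) := by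
      rw [← fsum_eq w1 s hsup (fun x => (x.1 : ℝ) * (x.2 : ℝ)), hw1, fsum_add, fsum_smul,
        fsum_single (1, 1) _ (fun x => (x.1 : ℝ) * (x.2 : ℝ))]
      have e1 := mul_le_mul_of_nonneg_left hw.cross (by linarith : (0 : ℝ) ≤ 1 - θ)
      simp only [Nat.cast_one, mul_one]
      nlinarith
    obtain ⟨a0, b0, N0, ha0, hb0, hcov, hN0, h4, h5⟩ :=
      choose_n s (fun x => w1 x) hnn p hp lam hl h1 h2 h3 (δ / 2) (by positivity)
    have ha0R : (0 : ℝ) < a0 := by exact_mod_cast ha0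
    have hb0R : (0 : ℝ) < b0 := by exact_mod_cast hb0
    refine ⟨a0, b0, N0, ha0, hb0, hcov, ?_, ?_, ?_⟩
    · refine le_trans hN0 ?_
      apply mul_le_mul_of_nonneg_right _ (by positivity)
      rw [← fsum_one w1 s hsup, hw1, fsum_add_one, fsum_smul_one, fsum_single_one]
      nlinarith
    · nlinarith
    · have : 0 < lam * b0 := mul_pos hl hb0R
      nlinarith

end Pool.Agent.Lib_helper78.PI
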