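import Pool.Agent.Lib_helper78.PI.Lower

/-!
The limit theorem.
-/

set_option autoImplicit false

namespace Pool.Agent.Lib_helper78.PI

open Finset Filter Topology

/-- explicit lower bound for the value of the linear program -/
theorem lpValue_lower {p : ℕ} (hp : 1 ≤ p) {lam : ℝ} (hl : 0 < lam) :
    (2 * (p : ℝ) - 1) ^ 2 / (p * (p + (p - 1) * lam) * (p + (p - 1) / lam)) ≤ lpValue p lam := by
  have hpR : (1 : ℝ) ≤ p := by exact_mod_cast hp
  refine le_lpValue hp hl (fun w hw => ?_)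
  set A : ℝ := p + (p - 1) * lam with hA
  set B : ℝ := p + (p - 1) / lam with hB
  set D : ℝ := 2 * p - 1 with hD
  have hApos : 0 < A := by
    have : 0 ≤ ((p : ℝ) - 1) * lam := mul_nonneg (by linarith) hl.le
    linarith
  have hBpos : 0 < B := by
    have : 0 ≤ ((p : ℝ) - 1) / lam := div_nonneg (by linarith) hl.le
    linarith
  have hDpos : 0 < D := by linarith
  set i : ℝ := p * A / D with hi
  set j : ℝ := p * B / D with hj
  set x : ℝ := p * A * B / D ^ 2 with hx
  have hxpos : 0 < x := by positivity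
  have hipos : 0 < i := by positivity
  have hjpos : 0 < j := by positivity
  have hi1 : i - 1 = (p - 1) * lam * B / D := by
    rw [hi, eq_div_iff hDpos.ne', sub_mul, div_mul_cancel₀ _ hDpos.ne', hA, hB, hD]
    field_simp
    ring
  have hj1 : j - 1 = (p - 1) * A / (lam * D) := by
    rw [← div_div, hj, eq_div_iff hDpos.ne', sub_mul, div_mul_cancel₀ _ hDpos.ne', hA, hB, hD]
    field_simp
    ring
  have hi1' : 0 ≤ i - 1 := by
    rw [hi1]
    exact div_nonneg (mul_nonneg (mul_nonneg (by linarith) hl.le) hBpos.le) hDpos.le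
  have hj1' : 0 ≤ j - 1 := by
    rw [hj1]
    exact div_nonneg (mul_nonneg (by linarith) hApos.le) (by positivity)
  have e1 : i * (i - 1) = (p - 1) * lam * x := by
    rw [hi1, hi, hx]; field_simp
  have e2 : j * (j - 1) = (p - 1) / lam * x := by
    rw [hj1, hj, hx]; field_simp
  have e3 : i * j = p * x := by
    rw [hi, hj, hx]; field_simp
  set α : ℝ := 2 * i - 1 with hα
  set β : ℝ := 2 * j - 1 with hβ
  have hαpos : 0 < α := by linarith
  have hβpos : 0 < β := by linarith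
  set K : ℝ := i * j * (i + j - 1) with hK
  have hKpos : 0 < K := by
    have : 0 < i + j - 1 := by linarith
    positivity
  have hf : ∀ X Y : ℝ, α * β * (X * Y) ≤ K + j * β * (X * (X - 1)) + i * α * (Y * (Y - 1)) := by
    intro X Y
    have hid : 2 * (K + j * β * (X * (X - 1)) + i * α * (Y * (Y - 1)) - α * β * (X * Y)) =
        (β * (X - i) - α * (Y - j)) ^ 2 + β * (X - i) ^ 2 + α * (Y - j) ^ 2 := by
      rw [hK, hα, hβ]; ring
    have h1 : 0 ≤ β * (X - i) ^ 2 := by positivity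
    have h2 : 0 ≤ α * (Y - j) ^ 2 := by positivity
    nlinarith [sq_nonneg (β * (X - i) - α * (Y - j))]
  have hcross := hw.cross
  have hleft := hw.left
  have hright := hw.right
  rw [fsum_eq w w.support subset_rfl (fun x => (x.1 : ℝ) * (x.2 : ℝ))] at hcross
  rw [fsum_eq w w.support subset_rfl (fun x => (x.1 : ℝ) * ((x.1 : ℝ) - 1))] at hleft
  rw [fsum_eq w w.support subset_rfl (fun x => (x.2 : ℝ) * ((x.2 : ℝ) - 1))] at hright
  rw [fsum_one w w.support subset_rfl]
  have hsum : α * β * ∑ x ∈ w.support, w x * ((x.1 : ℝ) * (x.2 : ℝ)) ≤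
      K * ∑ x ∈ w.support, w x +
      j * β * ∑ x ∈ w.support, w x * ((x.1 : ℝ) * ((x.1 : ℝ) - 1)) +
      i * α * ∑ x ∈ w.support, w x * ((x.2 : ℝ) * ((x.2 : ℝ) - 1)) := by
    rw [Finset.mul_sum, Finset.mul_sum, Finset.mul_sum, Finset.mul_sum, ← Finset.sum_add_distrib,
      ← Finset.sum_add_distrib]
    refine Finset.sum_le_sum (fun x _ => ?_)
    have := mul_le_mul_of_nonneg_left (hf x.1 x.2) (hw.nonneg x)
    linarith
  have h1 : α * β * p ≤ α * β * ∑ x ∈ w.support, w x * ((x.1 : ℝ) * (x.2 : ℝ)) :=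
    mul_le_mul_of_nonneg_left hcross (by positivity)
  have h2 : j * β * ∑ x ∈ w.support, w x * ((x.1 : ℝ) * ((x.1 : ℝ) - 1)) ≤
      j * β * (((p : ℝ) - 1) * lam) := mul_le_mul_of_nonneg_left hleft (by positivity)
  have h3 : i * α * ∑ x ∈ w.support, w x * ((x.2 : ℝ) * ((x.2 : ℝ) - 1)) ≤
      i * α * (((p : ℝ) - 1) / lam) := mul_le_mul_of_nonneg_left hright (by positivity)
  have h4 : K = x * (α * β * p - j * β * (((p : ℝ) - 1) * lam) - i * α * (((p : ℝ) - 1) / lam)) := by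
    have e4 : x * (α * β * p - j * β * (((p : ℝ) - 1) * lam) - i * α * (((p : ℝ) - 1) / lam)) =
        α * β * (p * x) - j * β * ((p - 1) * lam * x) - i * α * ((p - 1) / lam * x) := by ring
    rw [e4, ← e1, ← e2, ← e3, hK, hα, hβ]
    ring
  have h5 : K ≤ x * (K * ∑ x ∈ w.support, w x) := by
    calc K = x * (α * β * p - j * β * (((p : ℝ) - 1) * lam) - i * α * (((p : ℝ) - 1) / lam)) := h4
      _ ≤ x * (K * ∑ x ∈ w.support, w x) := by
          apply mul_le_mul_of_nonneg_left _ hxpos.le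
          linarith
  have h6 : 1 ≤ x * ∑ x ∈ w.support, w x := by
    have : K * 1 ≤ K * (x * ∑ x ∈ w.support, w x) := by
      calc K * 1 = K := mul_one K
        _ ≤ x * (K * ∑ x ∈ w.support, w x) := h5
        _ = K * (x * ∑ x ∈ w.support, w x) := by ring
    exact le_of_mul_le_mul_left this hKpos
  have h7 : D ^ 2 / (p * A * B) = 1 / x := by
    rw [hx]; field_simp
  rw [h7, div_le_iff₀ hxpos]
  linarith

theorem lpValue_pos {p : ℕ} (hp : 1 ≤ p) {lam : ℝ} (hl : 0 < lam) : 0 < lpValue p lam := by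
  refine lt_of_lt_of_le ?_ (lpValue_lower hp hl)
  have hpR : (1 : ℝ) ≤ p := by exact_mod_cast hp
  have h1 : 0 ≤ ((p : ℝ) - 1) * lam := mul_nonneg (by linarith) hl.le
  have h2 : 0 ≤ ((p : ℝ) - 1) / lam := div_nonneg (by linarith) hl.le
  have h3 : 0 < 2 * (p : ℝ) - 1 := by linarith
  have h4 : 0 < (p : ℝ) + (p - 1) * lam := by linarith
  have h5 : 0 < (p : ℝ) + (p - 1) / lam := by linarith
  positivity

/-- lower half of the limit -/
theorem lower_half {p : ℕ} (hp : 1 ≤ p) {lam : ℝ} (hl : 0 < lam) (a b : ℕ → ℕ)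
    (ha : Tendsto a atTop atTop) (hab : Tendsto (fun n => (a n : ℝ) / (b n : ℝ)) atTop (𝓝 lam))
    {t : ℝ} (ht : t < lpValue p lam) :
    ∀ᶠ n in atTop, t < (theta p (completeBipartiteGraph (Fin (a n)) (Fin (b n))) : ℝ) /
      ((a n : ℝ) * (b n : ℝ)) := by
  -- the mixing parameter
  let θ : ℕ → ℝ := fun n => min (min (lam / ((a n : ℝ) / (b n : ℝ)))
    (((a n : ℝ) / (b n : ℝ)) / lam)) 1
  have hθ : Tendsto θ atTop (𝓝 1) := by
    have h1 : Tendsto (fun n => lam / ((a n : ℝ) / (b n : ℝ))) atTop (𝓝 1) := by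
      have := (tendsto_const_nhds (x := lam)).div hab hl.ne'
      rwa [div_self hl.ne'] at this
    have h2 : Tendsto (fun n => ((a n : ℝ) / (b n : ℝ)) / lam) atTop (𝓝 1) := by
      have := hab.div_const lam
      rwa [div_self hl.ne'] at this
    have h3 := (h1.min h2).min (tendsto_const_nhds (x := (1 : ℝ)))
    simpa using h3
  have hlim : Tendsto (fun n => (lpValue p lam - (1 - θ n) * p) / θ n) atTop
      (𝓝 (lpValue p lam)) := by
    have h1 : Tendsto (fun n => (lpValue p lam - (1 - θ n) * p) / θ n) atTop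
        (𝓝 ((lpValue p lam - (1 - 1) * p) / 1)) :=
      ((tendsto_const_nhds).sub (((tendsto_const_nhds).sub hθ).mul_const _)).div hθ one_ne_zero
    simpa using h1
  have hpos : ∀ᶠ n in atTop, 0 < (a n : ℝ) / (b n : ℝ) := hab.eventually_const_lt hl
  have hθpos : ∀ᶠ n in atTop, 0 < θ n := hθ.eventually_const_lt one_pos
  filter_upwards [hlim.eventually_const_lt ht, hpos, hθpos, ha.eventually_gt_atTop 0] with
    n h1 h2 h3 h4
  have hb : 0 < b n := by
    rcases Nat.eq_zero_or_pos (b n) with h0 | h0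
    · rw [h0] at h2; simp at h2
    · exact h0
  have haR : (0 : ℝ) < a n := by exact_mod_cast h4
  have hbR : (0 : ℝ) < b n := by exact_mod_cast hb
  refine lt_of_lt_of_le h1 ?_
  have h5 := lp_le_theta hp h4 hb
  rw [← le_div_iff₀ (by positivity)] at h5
  refine le_trans ?_ h5
  have e1 : θ n ≤ lam / ((a n : ℝ) / (b n : ℝ)) := le_trans (min_le_left _ _) (min_le_left _ _)
  have e2 : θ n ≤ ((a n : ℝ) / (b n : ℝ)) / lam := le_trans (min_le_left _ _) (min_le_right _ _)
  have e3 : θ n ≤ 1 := min_le_right _ _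
  rw [le_div_iff₀ h2] at e1
  rw [le_div_iff₀ hl] at e2
  have := lpValue_compare hp hl h2 h3 e3 e1 e2
  rw [div_le_iff₀ h3]
  linarith

/-- upper half of the limit -/
theorem upper_half {p : ℕ} (hp : 1 ≤ p) {lam : ℝ} (hl : 0 < lam) (a b : ℕ → ℕ)
    (ha : Tendsto a atTop atTop) (hab : Tendsto (fun n => (a n : ℝ) / (b n : ℝ)) atTop (𝓝 lam))
    {t : ℝ} (ht : lpValue p lam < t) :
    ∀ᶠ n in atTop, (theta p (completeBipartiteGraph (Fin (a n)) (Fin (b n))) : ℝ) /
      ((a n : ℝ) * (b n : ℝ)) < t := by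
  obtain ⟨w, hw, hwt⟩ := exists_feasible_lt hp hl ht
  set W := w.sum fun _ c => c with hW
  have hW0 : 0 ≤ W := hw.total_nonneg
  -- choice of δ
  obtain ⟨δ, hδ, hδt⟩ : ∃ δ : ℝ, 0 < δ ∧ (W + δ) * (1 + δ) < t := by
    have h1 : Tendsto (fun δ : ℝ => (W + δ) * (1 + δ)) (𝓝[>] 0) (𝓝 ((W + 0) * (1 + 0))) := by
      refine Tendsto.mono_left ?_ nhdsWithin_le_nhds
      exact Continuous.tendsto (by fun_prop) 0
    have h2 : ∀ᶠ δ : ℝ in 𝓝[>] 0, (W + δ) * (1 + δ) < t := by
      refine h1.eventually_lt_const ?_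
      simpa using hwt
    obtain ⟨δ, h3, h4⟩ := (h2.and self_mem_nhdsWithin).exists
    exact ⟨δ, h4, h3⟩
  obtain ⟨a0, b0, N0, ha0, hb0, hcov, hN0, hr1, hr2⟩ := exists_cov p hp lam hl w hw δ hδ
  have ha0R : (0 : ℝ) < a0 := by exact_mod_cast ha0
  have hb0R : (0 : ℝ) < b0 := by exact_mod_cast hb0
  -- the blow-up factor
  let Fc : ℕ := (a0 + b0).factorial
  have hFc : 0 < Fc := Nat.factorial_pos _
  let K : ℕ → ℕ := fun n => max (a n / a0 + 1) (b n / b0 + 1)
  let M : ℕ → ℕ := fun n => Fc * (K n / Fc + 1) + 1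
  have hMK : ∀ n, K n ≤ M n := by
    intro n
    have h1 : K n < Fc * (K n / Fc + 1) := Nat.lt_mul_div_succ (K n) hFc
    simp only [M]
    omega
  have hMle : ∀ n, M n ≤ K n + Fc + 1 := by
    intro n
    have h1 : Fc * (K n / Fc) ≤ K n := Nat.mul_div_le _ _
    simp only [M]
    rw [Nat.mul_add, mul_one]
    omega
  have hMmod : ∀ n, M n % (a0 + b0).factorial = 1 % (a0 + b0).factorial := by
    intro n
    simp only [M, Fc]
    rw [Nat.mul_add_mod]
  have hthe : ∀ n, theta p (completeBipartiteGraph (Fin (a n)) (Fin (b n))) ≤ N0 * M n ^ 2 := by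
    intro n
    have h1 := blowupN hcov (M n) (hMmod n)
    refine theta_le_of_cov hp (h1.mono_left ?_ ?_)
    · have h2 : a n < a0 * (a n / a0 + 1) := Nat.lt_mul_div_succ (a n) ha0
      have h3 : a n / a0 + 1 ≤ M n := le_trans (le_max_left _ _) (hMK n)
      exact le_trans h2.le (Nat.mul_le_mul_left _ h3)
    · have h2 : b n < b0 * (b n / b0 + 1) := Nat.lt_mul_div_succ (b n) hb0
      have h3 : b n / b0 + 1 ≤ M n := le_trans (le_max_right _ _) (hMK n)
      exact le_trans h2.le (Nat.mul_le_mul_left _ h3)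
  -- real bound for `M n`
  have haR : Tendsto (fun n => (a n : ℝ)) atTop atTop := tendsto_natCast_atTop_atTop.comp ha
  have hMr : ∀ n, (M n : ℝ) ≤ max ((a n : ℝ) / a0) ((b n : ℝ) / b0) + (Fc + 2) := by
    intro n
    have h1 : (M n : ℝ) ≤ ((K n + Fc + 1 : ℕ) : ℝ) := by exact_mod_cast hMle n
    have h2 : (K n : ℝ) ≤ max ((a n : ℝ) / a0) ((b n : ℝ) / b0) + 1 := by
      simp only [K]
      push_cast
      rw [max_add_add_right]
      gcongr
      · exact Nat.cast_div_le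
      · exact Nat.cast_div_le
    push_cast at h1
    linarith
  have hpos : ∀ᶠ n in atTop, 0 < (a n : ℝ) / (b n : ℝ) := hab.eventually_const_lt hl
  have hinv : Tendsto (fun n => (b n : ℝ) / (a n : ℝ)) atTop (𝓝 lam⁻¹) := by
    have := hab.inv₀ hl.ne'
    simpa using this
  let U : ℕ → ℝ := fun n => (W + δ) * ((a0 : ℝ) * b0) * (((a n : ℝ) / (b n : ℝ)) *
    (max (1 / (a0 : ℝ)) (((b n : ℝ) / (a n : ℝ)) / b0) + (Fc + 2) * (1 / (a n : ℝ))) ^ 2)
  have hU : Tendsto U atTop (𝓝 ((W + δ) * ((a0 : ℝ) * b0) * (lam *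
      (max (1 / (a0 : ℝ)) (lam⁻¹ / b0) + (Fc + 2) * 0) ^ 2))) := by
    refine Tendsto.const_mul _ (hab.mul (Tendsto.pow (Tendsto.add ?_ ?_) 2))
    · exact (tendsto_const_nhds).max (hinv.div_const _)
    · refine Tendsto.const_mul _ ?_
      simp only [one_div]
      exact haR.inv_tendsto_atTop
  have hUt : (W + δ) * ((a0 : ℝ) * b0) * (lam *
      (max (1 / (a0 : ℝ)) (lam⁻¹ / b0) + (Fc + 2) * 0) ^ 2) < t := by
    refine lt_of_le_of_lt ?_ hδt
    rw [mul_zero, add_zero, mul_assoc]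
    apply mul_le_mul_of_nonneg_left _ (by linarith)
    rcases le_total (1 / (a0 : ℝ)) (lam⁻¹ / b0) with h | h
    · rw [max_eq_right h]
      have e : (a0 : ℝ) * b0 * (lam * (lam⁻¹ / b0) ^ 2) = a0 / (lam * b0) := by
        field_simp
      rw [e, div_le_iff₀ (by positivity)]
      exact hr2
    · rw [max_eq_left h]
      have e : (a0 : ℝ) * b0 * (lam * (1 / a0) ^ 2) = lam * b0 / a0 := by
        field_simp
      rw [e, div_le_iff₀ (by positivity)]
      exact hr1
  filter_upwards [hU.eventually_lt_const hUt, hpos, ha.eventually_gt_atTop 0] with n h1 h2 h3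
  refine lt_of_le_of_lt ?_ h1
  have hb : 0 < b n := by
    rcases Nat.eq_zero_or_pos (b n) with h0 | h0
    · rw [h0] at h2; simp at h2
    · exact h0
  have hanR : (0 : ℝ) < a n := by exact_mod_cast h3
  have hbnR : (0 : ℝ) < b n := by exact_mod_cast hb
  have h4 : (theta p (completeBipartiteGraph (Fin (a n)) (Fin (b n))) : ℝ) ≤ N0 * (M n : ℝ) ^ 2 := by
    exact_mod_cast hthe n
  rw [div_le_iff₀ (by positivity)]
  have h5 : (M n : ℝ) ≤ (a n : ℝ) *
      (max (1 / (a0 : ℝ)) (((b n : ℝ) / (a n : ℝ)) / b0) + (Fc + 2) * (1 / (a n : ℝ))) := by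
    refine le_trans (hMr n) (le_of_eq ?_)
    rw [mul_add, mul_max_of_nonneg _ _ hanR.le]
    congr 1
    · congr 1
      · field_simp
      · field_simp
    · field_simp
  have hM0 : (0 : ℝ) ≤ (M n : ℝ) := Nat.cast_nonneg _
  calc (theta p (completeBipartiteGraph (Fin (a n)) (Fin (b n))) : ℝ) ≤ N0 * (M n : ℝ) ^ 2 := h4
    _ ≤ ((W + δ) * ((a0 : ℝ) * b0)) * ((a n : ℝ) *
      (max (1 / (a0 : ℝ)) (((b n : ℝ) / (a n : ℝ)) / b0) + (Fc + 2) * (1 / (a n : ℝ)))) ^ 2 := by
        apply mul_le_mul hN0 (pow_le_pow_left₀ hM0 h5 2) (by positivity) (by positivity)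
    _ = U n * ((a n : ℝ) * (b n : ℝ)) := by
        simp only [U]
        field_simp

theorem theta_tendsto {p : ℕ} (hp : 1 ≤ p) {lam : ℝ} (hl : 0 < lam) (a b : ℕ → ℕ)
    (ha : Tendsto a atTop atTop) (hab : Tendsto (fun n => (a n : ℝ) / (b n : ℝ)) atTop (𝓝 lam)) :
    Tendsto (fun n => (theta p (completeBipartiteGraph (Fin (a n)) (Fin (b n))) : ℝ) /
      ((a n : ℝ) * (b n : ℝ))) atTop (𝓝 (lpValue p lam)) :=
  tendsto_order.2 ⟨fun _ ht => lower_half hp hl a b ha hab ht,
    fun _ ht => upper_half hp hl a b ha hab ht⟩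

end Pool.Agent.Lib_helper78.PI
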