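import Pool.Agent.Lib_helper78.PI.LP

/-!
The counting lower bound and the relation with the `p`-intersection number.
-/

set_option autoImplicit false

namespace Pool.Agent.Lib_helper78.PI

open Finset Filter Topology

theorem sq_count {ι U : Type} [Fintype ι] [Fintype U] [DecidableEq U] (B : ι → U → Prop)
    [∀ k u, Decidable (B k u)] (m : ℕ)
    (h : ∀ u u', u ≠ u' → (univ.filter (fun k => B k u ∧ B k u')).card ≤ m) :
    ∑ k : ι, (((univ.filter (B k)).card : ℝ) * (((univ.filter (B k)).card : ℝ) - 1)) ≤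
      (Fintype.card U : ℝ) ^ 2 * m := by
  have h1 : ∀ k : ι, ((univ.filter (B k)).card : ℝ) = ∑ u : U, if B k u then (1 : ℝ) else 0 := by
    intro k
    rw [Finset.card_filter]
    push_cast
    rfl
  have h2 : ∀ k : ι, (((univ.filter (B k)).card : ℝ) * (((univ.filter (B k)).card : ℝ) - 1)) =
      ∑ u : U, ∑ u' : U, if u = u' then (0 : ℝ) else if B k u ∧ B k u' then 1 else 0 := by
    intro k
    have h3 : ∀ u : U, (∑ u' : U, if u = u' then (0 : ℝ) else if B k u ∧ B k u' then 1 else 0) =
        (if B k u then (1 : ℝ) else 0) * ((∑ u' : U, if B k u' then (1 : ℝ) else 0) - 1) := by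
      intro u
      have h4 : ∀ u' : U, (if u = u' then (0 : ℝ) else if B k u ∧ B k u' then 1 else 0) =
          (if B k u then (1 : ℝ) else 0) * (if B k u' then (1 : ℝ) else 0) -
          (if u = u' then (if B k u then (1 : ℝ) else 0) else 0) := by
        intro u'
        by_cases h5 : u = u'
        · subst h5
          by_cases h6 : B k u <;> simp [h6]
        · by_cases h6 : B k u <;> by_cases h7 : B k u' <;> simp [h5, h6, h7]
      rw [Finset.sum_congr rfl (fun u' _ => h4 u'), Finset.sum_sub_distrib, ← Finset.mul_sum,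
        Finset.sum_ite_eq, if_pos (Finset.mem_univ u)]
      ring
    rw [Finset.sum_congr rfl (fun u _ => h3 u), ← Finset.sum_mul, ← h1]
  rw [Finset.sum_congr rfl (fun k _ => h2 k), Finset.sum_comm]
  calc ∑ u : U, ∑ k : ι, ∑ u' : U, (if u = u' then (0 : ℝ) else if B k u ∧ B k u' then 1 else 0)
      ≤ ∑ u : U, ∑ u' : U, (m : ℝ) := by
        refine Finset.sum_le_sum (fun u _ => ?_)
        rw [Finset.sum_comm]
        refine Finset.sum_le_sum (fun u' _ => ?_)
        by_cases huu : u = u'
        · simp [huu]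
        · simp only [if_neg huu]
          have := h u u' huu
          rw [Finset.card_filter] at this
          have h8 : ((∑ k : ι, if B k u ∧ B k u' then 1 else 0 : ℕ) : ℝ) ≤ m := by
            exact_mod_cast this
          push_cast at h8
          exact h8
    _ = (Fintype.card U : ℝ) ^ 2 * m := by
        simp
        ring

theorem cross_count {ι U U' : Type} [Fintype ι] [Fintype U] [Fintype U'] (B : ι → U → Prop)
    (B' : ι → U' → Prop) [∀ k u, Decidable (B k u)] [∀ k u, Decidable (B' k u)] (r : ℕ)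
    (h : ∀ u u', r ≤ (univ.filter (fun k => B k u ∧ B' k u')).card) :
    (Fintype.card U : ℝ) * (Fintype.card U' : ℝ) * r ≤
      ∑ k : ι, (((univ.filter (B k)).card : ℝ) * ((univ.filter (B' k)).card : ℝ)) := by
  have h1 : ∀ k : ι, (((univ.filter (B k)).card : ℝ) * ((univ.filter (B' k)).card : ℝ)) =
      ∑ u : U, ∑ u' : U', if B k u ∧ B' k u' then (1 : ℝ) else 0 := by
    intro k
    rw [Finset.card_filter, Finset.card_filter]
    push_cast
    rw [Finset.sum_mul_sum]
    refine Finset.sum_congr rfl (fun u _ => Finset.sum_congr rfl (fun u' _ => ?_))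
    by_cases h6 : B k u <;> by_cases h7 : B' k u' <;> simp [h6, h7]
  rw [Finset.sum_congr rfl (fun k _ => h1 k), Finset.sum_comm]
  calc (Fintype.card U : ℝ) * (Fintype.card U' : ℝ) * r = ∑ u : U, ∑ u' : U', (r : ℝ) := by
        simp
        ring
    _ ≤ _ := by
        refine Finset.sum_le_sum (fun u _ => ?_)
        rw [Finset.sum_comm]
        refine Finset.sum_le_sum (fun u' _ => ?_)
        have := h u u'
        rw [Finset.card_filter] at this
        have h8 : (r : ℝ) ≤ ((∑ k : ι, if B k u ∧ B' k u' then 1 else 0 : ℕ) : ℝ) := by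
          exact_mod_cast this
        push_cast at h8
        exact h8

/-- counting bound -/
theorem lp_lower {a b N p : ℕ} (hp : 1 ≤ p) (ha : 0 < a) (hb : 0 < b)
    (h : CovN a b N (p - 1) p) : lpValue p ((a : ℝ) / b) * ((a : ℝ) * b) ≤ N := by
  classical
  obtain ⟨ι, hι, F, hcard, hF⟩ := h
  have haR : (0 : ℝ) < a := by exact_mod_cast ha
  have hbR : (0 : ℝ) < b := by exact_mod_cast hb
  have hpR : ((p - 1 : ℕ) : ℝ) = (p : ℝ) - 1 := by
    push_cast [Nat.cast_sub hp]; ring
  let l : ι → ℕ := fun k => (univ.filter (fun u : Fin a => Sum.inl u ∈ F k)).card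
  let r : ι → ℕ := fun k => (univ.filter (fun v : Fin b => Sum.inr v ∈ F k)).card
  let c : ℝ := 1 / ((a : ℝ) * b)
  have hc : 0 < c := by positivity
  let w : ℕ × ℕ →₀ ℝ := ∑ k : ι, Finsupp.single (l k, r k) c
  have hsum : ∀ β : ℕ × ℕ → ℝ, (w.sum fun x d => d * β x) = c * ∑ k : ι, β (l k, r k) := by
    intro β
    have := Finsupp.sum_finsetSum_index (s := (univ : Finset ι))
      (g := fun k => (Finsupp.single (l k, r k) c : ℕ × ℕ →₀ ℝ)) (h := fun x d => d * β x)
      (fun x => by simp) (fun x c d => by ring)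
    rw [← this, Finset.mul_sum]
    refine Finset.sum_congr rfl (fun k _ => ?_)
    rw [fsum_single]
  have htot : (w.sum fun _ d => d) = c * Fintype.card ι := by
    have := hsum (fun _ => 1)
    simpa using this
  have h1 := sq_count (fun (k : ι) (u : Fin a) => Sum.inl u ∈ F k) (p - 1) (by
    intro u u' huu
    exact (hF (Sum.inl u) (Sum.inl u') (fun h => huu (Sum.inl.inj h))).1 rfl)
  have h2 := sq_count (fun (k : ι) (u : Fin b) => Sum.inr u ∈ F k) (p - 1) (by
    intro u u' huu
    exact (hF (Sum.inr u) (Sum.inr u') (fun h => huu (Sum.inr.inj h))).1 rfl)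
  have h3 := cross_count (fun (k : ι) (u : Fin a) => Sum.inl u ∈ F k)
    (fun (k : ι) (u : Fin b) => Sum.inr u ∈ F k) p (by
    intro u u'
    exact (hF (Sum.inl u) (Sum.inr u') (by simp)).2 (by simp))
  rw [Fintype.card_fin, hpR] at h1 h2
  rw [Fintype.card_fin, Fintype.card_fin] at h3
  have hfeas : Feasible p ((a : ℝ) / b) w := by
    refine ⟨?_, ?_, ?_, ?_⟩
    · intro x
      simp only [w, Finsupp.finsetSum_apply]
      refine Finset.sum_nonneg (fun k _ => ?_)
      rw [Finsupp.single_apply]; split_ifs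
      · exact hc.le
      · exact le_rfl
    · rw [hsum (fun x => (x.1 : ℝ) * (x.2 : ℝ))]
      simp only [c]
      rw [one_div, inv_mul_eq_div, le_div_iff₀ (by positivity)]
      calc (p : ℝ) * ((a : ℝ) * b) = (a : ℝ) * b * p := by ring
        _ ≤ _ := h3
    · rw [hsum (fun x => (x.1 : ℝ) * ((x.1 : ℝ) - 1))]
      simp only [c]
      rw [one_div, inv_mul_eq_div, div_le_iff₀ (by positivity)]
      refine le_trans h1 (le_of_eq ?_)
      field_simp
    · rw [hsum (fun x => (x.2 : ℝ) * ((x.2 : ℝ) - 1))]
      simp only [c]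
      rw [one_div, inv_mul_eq_div, div_le_iff₀ (by positivity)]
      refine le_trans h2 (le_of_eq ?_)
      field_simp
  have h4 := lpValue_le hfeas
  rw [htot] at h4
  have h5 : (Fintype.card ι : ℝ) ≤ N := by exact_mod_cast hcard
  calc lpValue p ((a : ℝ) / b) * ((a : ℝ) * b) ≤ (c * Fintype.card ι) * ((a : ℝ) * b) :=
        mul_le_mul_of_nonneg_right h4 (by positivity)
    _ = Fintype.card ι := by simp only [c]; field_simp
    _ ≤ N := h5

theorem isRep_iff {a b t p : ℕ} (hp : 1 ≤ p) (S : Fin a ⊕ Fin b → Finset (Fin t)) :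
    IsRep (completeBipartiteGraph (Fin a) (Fin b)) p t S ↔
      ∀ x y : Fin a ⊕ Fin b, x ≠ y → (x.isLeft = y.isLeft → (S x ∩ S y).card ≤ p - 1) ∧
        (x.isLeft ≠ y.isLeft → p ≤ (S x ∩ S y).card) := by
  constructor
  · intro h x y hxy
    have := h x y hxy
    rw [completeBipartiteGraph_adj] at this
    constructor
    · intro hs
      have h1 : ¬ p ≤ (S x ∩ S y).card := by
        rw [← this]
        rcases x with x | x <;> rcases y with y | y <;> simp at hs ⊢
      omega
    · intro hs
      rw [← this]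
      rcases x with x | x <;> rcases y with y | y <;> simp at hs ⊢
  · intro h x y hxy
    have := h x y hxy
    rw [completeBipartiteGraph_adj]
    constructor
    · intro hs
      apply this.2
      rcases x with x | x <;> rcases y with y | y <;> simp at hs ⊢
    · intro hs
      by_contra hcon
      have h1 : x.isLeft = y.isLeft := by
        rcases x with x | x <;> rcases y with y | y <;> simp at hcon ⊢
      have := this.1 h1
      omega

theorem theta_le_of_cov {a b N p : ℕ} (hp : 1 ≤ p) (h : CovN a b N (p - 1) p) :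
    theta p (completeBipartiteGraph (Fin a) (Fin b)) ≤ N := by
  classical
  obtain ⟨ι, hι, F, hcard, hF⟩ := h
  refine le_trans (Nat.sInf_le ?_) hcard
  let e : ι ≃ Fin (Fintype.card ι) := Fintype.equivFin ι
  refine ⟨fun v => univ.filter (fun i => v ∈ F (e.symm i)), ?_⟩
  rw [isRep_iff hp]
  intro x y hxy
  have h1 : ((univ.filter (fun i => x ∈ F (e.symm i))) ∩
      (univ.filter (fun i => y ∈ F (e.symm i)))).card = cnt F x y := by
    unfold cnt
    rw [← Finset.filter_and]
    refine Finset.card_equiv e.symm (fun i => ?_)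
    simp
  rw [h1]
  exact hF x y hxy

theorem cov_theta {a b p : ℕ} (hp : 1 ≤ p) :
    CovN a b (theta p (completeBipartiteGraph (Fin a) (Fin b))) (p - 1) p := by
  classical
  have hne : {t : ℕ | ∃ S : Fin a ⊕ Fin b → Finset (Fin t),
      IsRep (completeBipartiteGraph (Fin a) (Fin b)) p t S}.Nonempty := by
    obtain ⟨ι, hι, F, hcard, hF⟩ := cov_edges a b p
    let e : ι ≃ Fin (Fintype.card ι) := Fintype.equivFin ι
    refine ⟨Fintype.card ι, fun v => univ.filter (fun i => v ∈ F (e.symm i)), ?_⟩
    rw [isRep_iff hp]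
    intro x y hxy
    have h1 : ((univ.filter (fun i => x ∈ F (e.symm i))) ∩
        (univ.filter (fun i => y ∈ F (e.symm i)))).card = cnt F x y := by
      unfold cnt
      rw [← Finset.filter_and]
      refine Finset.card_equiv e.symm (fun i => ?_)
      simp
    rw [h1]
    exact ⟨fun h => le_trans ((hF x y hxy).1 h) (Nat.zero_le _), (hF x y hxy).2⟩
  have hmem : ∃ S : Fin a ⊕ Fin b → Finset (Fin (theta p (completeBipartiteGraph (Fin a) (Fin b)))),
      IsRep (completeBipartiteGraph (Fin a) (Fin b)) p
        (theta p (completeBipartiteGraph (Fin a) (Fin b))) S := Nat.sInf_mem hne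
  obtain ⟨S, hS⟩ := hmem
  rw [isRep_iff hp] at hS
  refine ⟨Fin (theta p (completeBipartiteGraph (Fin a) (Fin b))), inferInstance,
    fun k => univ.filter (fun v => k ∈ S v), by simp, ?_⟩
  intro x y hxy
  have h1 : cnt (fun k => univ.filter (fun v => k ∈ S v)) x y = (S x ∩ S y).card := by
    unfold cnt
    congr 1
    ext k
    simp
  simp only
  rw [h1]
  exact hS x y hxy

/-- For all `a, b ≥ 1` the linear program bounds the `p`-intersection number from below. -/
theorem lp_le_theta {a b p : ℕ} (hp : 1 ≤ p) (ha : 0 < a) (hb : 0 < b) :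
    lpValue p ((a : ℝ) / b) * ((a : ℝ) * b) ≤
      (theta p (completeBipartiteGraph (Fin a) (Fin b)) : ℝ) :=
  lp_lower hp ha hb (cov_theta hp)

end Pool.Agent.Lib_helper78.PI
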