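import Mathlib

/-!
Existence of labels in `ZMod q` with prescribed quadratic characters of their differences
(elementary second moment argument).
-/

set_option autoImplicit false

namespace Pool.Agent.Lib_helper78.PI

open Finset

variable {q : ℕ} [Fact q.Prime]

/-- the quadratic character of `ZMod q` -/
noncomputable abbrev ch (q : ℕ) [Fact q.Prime] : MulChar (ZMod q) ℤ := quadraticChar (ZMod q)

theorem ringChar_ne_two (hq : q ≠ 2) : ringChar (ZMod q) ≠ 2 := by
  rw [ZMod.ringChar_zmod_n]; exact hq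

theorem ch_sq {x : ZMod q} (hx : x ≠ 0) : ch q x * ch q x = 1 := by
  have := quadraticChar_sq_one (F := ZMod q) hx
  rwa [sq] at this

theorem ch_zero : ch q (0 : ZMod q) = 0 := quadraticChar_zero

/-- correlation of two shifts -/
theorem corr (hq : q ≠ 2) {x x' : ZMod q} (h : x ≠ x') :
    ∑ c : ZMod q, ch q (x - c) * ch q (x' - c) = -1 := by
  have hne : x - x' ≠ 0 := sub_ne_zero.mpr h
  have hJ := jacobiSum_nontrivial_inv (quadraticChar_ne_one (ringChar_ne_two hq))
  have hinv : (quadraticChar (ZMod q))⁻¹ = quadraticChar (ZMod q) :=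
    MulChar.IsQuadratic.inv (quadraticChar_isQuadratic (ZMod q))
  rw [hinv] at hJ
  -- substitute `c = x - (x - x') * y`
  have hbij : ∑ c : ZMod q, ch q (x - c) * ch q (x' - c) =
      ∑ y : ZMod q, ch q (x - (x - (x - x') * y)) * ch q (x' - (x - (x - x') * y)) := by
    refine (Fintype.sum_bijective (fun y : ZMod q => x - (x - x') * y) ?_ _ _ (fun y => rfl)).symm
    constructor
    · intro y y' hy
      have : (x - x') * y = (x - x') * y' := by
        have := congrArg (fun z => x - z) hy
        simpa using this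
      exact mul_left_cancel₀ hne this
    · intro c
      refine ⟨(x - c) / (x - x'), ?_⟩
      simp only
      rw [mul_div_cancel₀ _ hne]
      ring
  rw [hbij]
  have hterm : ∀ y : ZMod q, ch q (x - (x - (x - x') * y)) * ch q (x' - (x - (x - x') * y)) =
      ch q (-1) * (ch q y * ch q (1 - y)) := by
    intro y
    have e1 : x - (x - (x - x') * y) = (x - x') * y := by ring
    have e2 : x' - (x - (x - x') * y) = (x - x') * (-1 * (1 - y)) := by ring
    rw [e1, e2, map_mul, map_mul, map_mul]
    have := ch_sq hne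
    calc ch q (x - x') * ch q y * (ch q (x - x') * (ch q (-1) * ch q (1 - y)))
        = (ch q (x - x') * ch q (x - x')) * (ch q (-1) * (ch q y * ch q (1 - y))) := by ring
      _ = _ := by rw [this, one_mul]
  rw [Finset.sum_congr rfl (fun y _ => hterm y), ← Finset.mul_sum]
  have hJ' : ∑ y : ZMod q, ch q y * ch q (1 - y) = -ch q (-1) := hJ
  rw [hJ']
  have h1 : (-1 : ZMod q) ≠ 0 := by simp
  have := ch_sq h1
  linarith

theorem sq_sum (x : ZMod q) : ∑ c : ZMod q, ch q (x - c) * ch q (x - c) = (q : ℤ) - 1 := by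
  have h : ∀ c : ZMod q, ch q (x - c) * ch q (x - c) = if c = x then 0 else 1 := by
    intro c
    split_ifs with hc
    · subst hc; simp
    · exact ch_sq (sub_ne_zero.mpr (Ne.symm hc))
  rw [Finset.sum_congr rfl (fun c _ => h c), Finset.sum_ite]
  simp only [Finset.sum_const_zero, zero_add, Finset.sum_const, nsmul_eq_mul, mul_one]
  have : (univ.filter (fun c : ZMod q => ¬ c = x)).card = q - 1 := by
    rw [Finset.filter_not, Finset.filter_eq' univ x, if_pos (mem_univ x),
      Finset.card_sdiff_of_subset (by simp), Finset.card_univ, ZMod.card]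
    simp
  rw [this]
  have hq : 1 ≤ q := (Fact.out : q.Prime).one_lt.le
  push_cast [Nat.cast_sub hq]
  ring

/-- second moment -/
theorem second_moment (hq : q ≠ 2) (X : Finset (ZMod q)) :
    ∑ c : ZMod q, (∑ x ∈ X, ch q (x - c)) ^ 2 = (q : ℤ) * X.card - (X.card : ℤ) ^ 2 := by
  classical
  have h1 : ∀ c : ZMod q, (∑ x ∈ X, ch q (x - c)) ^ 2 =
      ∑ x ∈ X, ∑ x' ∈ X, ch q (x - c) * ch q (x' - c) := by
    intro c
    rw [sq, Finset.sum_mul_sum]
  rw [Finset.sum_congr rfl (fun c _ => h1 c), Finset.sum_comm]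
  have h2 : ∀ x ∈ X, ∑ c : ZMod q, ∑ x' ∈ X, ch q (x - c) * ch q (x' - c) =
      (q : ℤ) - X.card := by
    intro x hx
    rw [Finset.sum_comm, ← Finset.add_sum_erase X _ hx, sq_sum]
    have h3 : ∀ x' ∈ X.erase x, ∑ c : ZMod q, ch q (x - c) * ch q (x' - c) = -1 := by
      intro x' hx'
      exact corr hq (Ne.symm (Finset.ne_of_mem_erase hx'))
    rw [Finset.sum_congr rfl h3, Finset.sum_const, nsmul_eq_mul, Finset.card_erase_of_mem hx]
    have : 1 ≤ X.card := Finset.card_pos.mpr ⟨x, hx⟩
    push_cast [Nat.cast_sub this]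
    ring
  rw [Finset.sum_congr rfl h2, Finset.sum_const, nsmul_eq_mul]
  ring

/-- For all but few `c`, both classes around `c` are well represented in `X`. -/
theorem bad_card (hq : q ≠ 2) (X : Finset (ZMod q)) :
    (univ.filter (fun c : ZMod q => (X.card : ℤ) ≤ 2 * |∑ x ∈ X, ch q (x - c)|)).card * X.card
      ≤ 4 * q := by
  classical
  rcases Nat.eq_zero_or_pos X.card with h0 | hpos
  · rw [h0]; simp
  set B := univ.filter (fun c : ZMod q => (X.card : ℤ) ≤ 2 * |∑ x ∈ X, ch q (x - c)|) with hB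
  have h1 : (B.card : ℤ) * (X.card : ℤ) ^ 2 ≤ 4 * ((q : ℤ) * X.card - (X.card : ℤ) ^ 2) := by
    rw [← second_moment hq X, Finset.mul_sum]
    calc (B.card : ℤ) * (X.card : ℤ) ^ 2 = ∑ c ∈ B, (X.card : ℤ) ^ 2 := by
          rw [Finset.sum_const, nsmul_eq_mul]
      _ ≤ ∑ c ∈ B, 4 * (∑ x ∈ X, ch q (x - c)) ^ 2 := by
          apply Finset.sum_le_sum
          intro c hc
          have hc' := (Finset.mem_filter.mp hc).2
          have h2 : (X.card : ℤ) ^ 2 ≤ (2 * |∑ x ∈ X, ch q (x - c)|) ^ 2 :=
            pow_le_pow_left₀ (by positivity) hc' 2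
          rw [mul_pow, sq_abs] at h2
          linarith
      _ ≤ ∑ c : ZMod q, 4 * (∑ x ∈ X, ch q (x - c)) ^ 2 :=
          Finset.sum_le_sum_of_subset_of_nonneg (Finset.subset_univ _)
            (fun c _ _ => by positivity)
  have hpos' : (0 : ℤ) < X.card := by exact_mod_cast hpos
  have h2 : (B.card : ℤ) * X.card ≤ 4 * q := by
    by_contra hcon
    push Not at hcon
    have h3 : 4 * (q : ℤ) * X.card < (B.card : ℤ) * X.card * X.card :=
      mul_lt_mul_of_pos_right hcon hpos'
    nlinarith [sq_nonneg (X.card : ℤ)]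
  exact_mod_cast h2

/-- lower bound on a class around `c` -/
theorem class_card (X : Finset (ZMod q)) (c : ZMod q) (s : ℤ) (hs : s = 1 ∨ s = -1) :
    (X.card : ℤ) - 1 + s * ∑ x ∈ X, ch q (x - c) ≤
      2 * ((X.filter (fun x => ch q (x - c) = s)).card : ℤ) := by
  classical
  have hss : s * s = 1 := by rcases hs with rfl | rfl <;> norm_num
  have h1 : 2 * ((X.filter (fun x => ch q (x - c) = s)).card : ℤ) =
      ∑ x ∈ X, (if ch q (x - c) = s then (2 : ℤ) else 0) := by
    rw [← Finset.sum_filter, Finset.sum_const, nsmul_eq_mul]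
    ring
  have h2 : (X.card : ℤ) - 1 + s * ∑ x ∈ X, ch q (x - c) ≤
      ∑ x ∈ X, ((1 : ℤ) + s * ch q (x - c) - if x = c then 1 else 0) := by
    rw [Finset.sum_sub_distrib, Finset.sum_add_distrib, Finset.sum_const, nsmul_eq_mul,
      ← Finset.mul_sum]
    have h3 : ∑ x ∈ X, (if x = c then (1 : ℤ) else 0) ≤ 1 := by
      rw [Finset.sum_ite_eq']
      split_ifs <;> norm_num
    linarith
  rw [h1]
  refine le_trans h2 (Finset.sum_le_sum ?_)
  intro x _
  by_cases hx : x = c
  · subst hx
    rw [sub_self, ch_zero]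
    simp only [if_true]
    split_ifs <;> norm_num
  · rw [if_neg hx]
    rcases quadraticChar_dichotomy (F := ZMod q) (sub_ne_zero.mpr hx) with h | h
    · have h' : ch q (x - c) = 1 := h
      rw [h']
      rcases hs with rfl | rfl <;> norm_num
    · have h' : ch q (x - c) = -1 := h
      rw [h']
      rcases hs with rfl | rfl <;> norm_num

/-- the sign prescribed by a Boolean -/
def sgn (b : Bool) : ℤ := if b then 1 else -1

theorem sgn_cases (b : Bool) : sgn b = 1 ∨ sgn b = -1 := by cases b <;> simp [sgn]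

theorem class_card' {X : Finset (ZMod q)} {c : ZMod q} {b : Bool}
    (hgood : 2 * |∑ x ∈ X, ch q (x - c)| < (X.card : ℤ)) (h4 : 4 ≤ X.card) :
    (X.card : ℝ) / 8 ≤ ((X.filter (fun x => ch q (x - c) = sgn b)).card : ℝ) := by
  have h1 := class_card X c (sgn b) (sgn_cases b)
  have h2 : -|∑ x ∈ X, ch q (x - c)| ≤ sgn b * ∑ x ∈ X, ch q (x - c) := by
    rcases sgn_cases b with h | h
    · rw [h, one_mul]; exact neg_abs_le _
    · rw [h, neg_one_mul]; exact neg_le_neg (le_abs_self _)
  have h3 : (X.card : ℤ) ≤ 8 * ((X.filter (fun x => ch q (x - c) = sgn b)).card : ℤ) := by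
    have h4' : (4 : ℤ) ≤ X.card := by exact_mod_cast h4
    omega
  have h5 : (X.card : ℝ) ≤ 8 * ((X.filter (fun x => ch q (x - c) = sgn b)).card : ℝ) := by
    exact_mod_cast h3
  linarith

/-- Labels with prescribed quadratic characters of the differences. -/
theorem labels (k : ℕ) : ∀ δ : ℝ, 0 < δ → ∃ Q0 : ℕ, ∀ (q : ℕ) [Fact q.Prime], Q0 ≤ q →
    ∀ (X : Fin k → Finset (ZMod q)), (∀ i, δ * q ≤ ((X i).card : ℝ)) →
    ∀ κ : Fin k → Fin k → Bool, ∃ c : Fin k → ZMod q, (∀ i, c i ∈ X i) ∧
      ∀ i j, i < j → ch q (c j - c i) = sgn (κ i j) := by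
  induction k with
  | zero =>
    intro δ _
    exact ⟨0, fun q _ _ X _ κ => ⟨Fin.elim0, fun i => i.elim0, fun i => i.elim0⟩⟩
  | succ k ih =>
    intro δ hδ
    obtain ⟨Q1, hQ1⟩ := ih (δ / 8) (by positivity)
    obtain ⟨Q2, hQ2⟩ := exists_nat_gt (4 * (k : ℝ) / δ / δ)
    obtain ⟨Q3, hQ3⟩ := exists_nat_gt (4 / δ)
    refine ⟨max (max Q1 Q2) (max Q3 3), ?_⟩
    intro q _ hq X hX κ
    have hqQ1 : Q1 ≤ q := le_trans (le_trans (le_max_left _ _) (le_max_left _ _)) hq
    have hqQ2 : Q2 ≤ q := le_trans (le_trans (le_max_right _ _) (le_max_left _ _)) hq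
    have hqQ3 : Q3 ≤ q := le_trans (le_trans (le_max_left _ _) (le_max_right _ _)) hq
    have hq3 : 3 ≤ q := le_trans (le_trans (le_max_right _ _) (le_max_right _ _)) hq
    have hq2 : q ≠ 2 := by omega
    have hqpos : (0 : ℝ) < q := by
      have : 0 < q := by omega
      exact_mod_cast this
    have h4 : ∀ i, 4 ≤ (X i).card := by
      intro i
      have h1 : (4 : ℝ) / δ < q := lt_of_lt_of_le hQ3 (by exact_mod_cast hqQ3)
      have h2 : (4 : ℝ) < δ * q := by
        rw [div_lt_iff₀ hδ] at h1; linarith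
      have h3 := hX i
      have h5 : (4 : ℝ) < (X i).card := by linarith
      exact_mod_cast h5.le
    classical
    -- bad sets
    let Bad : Fin k → Finset (ZMod q) := fun j =>
      univ.filter (fun c : ZMod q => ((X j.succ).card : ℤ) ≤ 2 * |∑ x ∈ X j.succ, ch q (x - c)|)
    have hBad : ∀ j, ((Bad j).card : ℝ) ≤ 4 / δ := by
      intro j
      have h1 := bad_card hq2 (X j.succ)
      have h2 : ((Bad j).card : ℝ) * (X j.succ).card ≤ 4 * q := by exact_mod_cast h1
      have h3 := hX j.succ
      rw [le_div_iff₀ hδ]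
      have h5 : ((Bad j).card : ℝ) * (δ * q) ≤ 4 * q :=
        le_trans (mul_le_mul_of_nonneg_left h3 (by positivity)) h2
      have h6 : (((Bad j).card : ℝ) * δ) * q ≤ 4 * q := by linarith
      exact le_of_mul_le_mul_right h6 hqpos
    have hU : ((univ.biUnion Bad).card : ℝ) ≤ k * (4 / δ) := by
      calc ((univ.biUnion Bad).card : ℝ) ≤ ((∑ j, (Bad j).card : ℕ) : ℝ) := by
            exact_mod_cast Finset.card_biUnion_le
        _ = ∑ j, ((Bad j).card : ℝ) := by push_cast; rfl
        _ ≤ ∑ j : Fin k, (4 / δ) := Finset.sum_le_sum (fun j _ => hBad j)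
        _ = k * (4 / δ) := by simp
    have hlt : ((univ.biUnion Bad).card : ℝ) < (X 0).card := by
      have h1 : 4 * (k : ℝ) / δ / δ < q := lt_of_lt_of_le hQ2 (by exact_mod_cast hqQ2)
      have h2 : 4 * (k : ℝ) / δ < δ * q := by
        rw [div_lt_iff₀ hδ] at h1; linarith
      have h3 := hX 0
      calc ((univ.biUnion Bad).card : ℝ) ≤ k * (4 / δ) := hU
        _ = 4 * (k : ℝ) / δ := by ring
        _ < δ * q := h2
        _ ≤ _ := h3
    have hlt' : (univ.biUnion Bad).card < (X 0).card := by exact_mod_cast hlt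
    obtain ⟨c0, hc0, hc0'⟩ := Finset.exists_mem_notMem_of_card_lt_card hlt'
    have hgood : ∀ j : Fin k, 2 * |∑ x ∈ X j.succ, ch q (x - c0)| < ((X j.succ).card : ℤ) := by
      intro j
      by_contra hcon
      push Not at hcon
      apply hc0'
      rw [Finset.mem_biUnion]
      exact ⟨j, mem_univ _, Finset.mem_filter.mpr ⟨mem_univ _, hcon⟩⟩
    -- the new sets
    obtain ⟨c', hc', hκ'⟩ := hQ1 q hqQ1
      (fun j => (X j.succ).filter (fun x => ch q (x - c0) = sgn (κ 0 j.succ)))
      (by
        intro j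
        have h1 := class_card' (b := κ 0 j.succ) (hgood j) (h4 j.succ)
        have h2 := hX j.succ
        calc δ / 8 * q = (δ * q) / 8 := by ring
          _ ≤ ((X j.succ).card : ℝ) / 8 := by linarith
          _ ≤ _ := h1)
      (fun i j => κ i.succ j.succ)
    refine ⟨Fin.cons c0 c', ?_, ?_⟩
    · intro i
      refine Fin.cases ?_ (fun i => ?_) i
      · simpa using hc0
      · simpa using (Finset.mem_filter.mp (hc' i)).1
    · intro i j hij
      induction i using Fin.cases with
      | zero =>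
        induction j using Fin.cases with
        | zero => exact absurd hij (lt_irrefl _)
        | succ j =>
          simpa using (Finset.mem_filter.mp (hc' j)).2
      | succ i =>
        induction j using Fin.cases with
        | zero => exact absurd hij (by simp)
        | succ j =>
          have := hκ' i j (by simpa using hij)
          simpa using this

end Pool.Agent.Lib_helper78.PI
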