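import Pool.Agent.Lib_helper78.PI.Base
import Pool.Agent.Lib_helper78.PI.Defs

/-!
From weights to covers.
-/

set_option autoImplicit false

namespace Pool.Agent.Lib_helper78.PI

open Finset Filter Topology

theorem tendsto_ceil_two_pow (α : ℝ) (hα : 0 ≤ α) :
    Tendsto (fun k : ℕ => ((⌈α * 2 ^ k⌉₊ : ℕ) : ℝ) / 2 ^ k) atTop (𝓝 α) :=
  (tendsto_nat_ceil_mul_div_atTop hα).comp
    (tendsto_pow_atTop_atTop_of_one_lt (one_lt_two : (1 : ℝ) < 2))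

/-- choice of the number of halvings -/
theorem choose_k (s : Finset (ℕ × ℕ)) (w : ℕ × ℕ → ℝ) (hw : ∀ x, 0 ≤ w x) (p g g' : ℕ)
    (hp : 1 ≤ p) (hg : 0 < g) (hg' : 0 < g')
    (h1 : ((g' : ℝ) / g) * ∑ x ∈ s, w x * ((x.1 : ℝ) * ((x.1 : ℝ) - 1)) < (p : ℝ) - 1)
    (h2 : ((g : ℝ) / g') * ∑ x ∈ s, w x * ((x.2 : ℝ) * ((x.2 : ℝ) - 1)) < (p : ℝ) - 1)
    (h3 : (p : ℝ) < ∑ x ∈ s, w x * ((x.1 : ℝ) * (x.2 : ℝ)) *
      (((g : ℝ) / ((g : ℝ) + (x.1 : ℝ))) * ((g' : ℝ) / ((g' : ℝ) + (x.2 : ℝ)))))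
    (δ : ℝ) (hδ : 0 < δ) :
    ∃ k N : ℕ, CovN g g' N (2 ^ k * (p - 1)) (2 ^ k * p) ∧
      (N : ℝ) / 2 ^ k ≤ (∑ x ∈ s, w x + δ) * ((g : ℝ) * g') := by
  have hgR : (0 : ℝ) < g := by exact_mod_cast hg
  have hgR' : (0 : ℝ) < g' := by exact_mod_cast hg'
  let α : ℕ × ℕ → ℝ := fun x => w x * ((g : ℝ) * g') / ((g : ℝ) ^ x.1 * (g' : ℝ) ^ x.2)
  have hα : ∀ x, 0 ≤ α x := fun x => by
    have := hw x
    positivity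
  have hT : ∀ x, Tendsto (fun k : ℕ => ((⌈α x * 2 ^ k⌉₊ : ℕ) : ℝ) / 2 ^ k) atTop (𝓝 (α x)) :=
    fun x => tendsto_ceil_two_pow _ (hα x)
  have hsum : ∀ β : ℕ × ℕ → ℝ, Tendsto (fun k : ℕ => ∑ x ∈ s, ((⌈α x * 2 ^ k⌉₊ : ℕ) : ℝ) / 2 ^ k *
      β x) atTop (𝓝 (∑ x ∈ s, α x * β x)) := by
    intro β
    exact tendsto_finsetSum _ (fun x _ => (hT x).mul_const _)
  have e1 : ∀ᶠ k : ℕ in atTop, ∑ x ∈ s, ((⌈α x * 2 ^ k⌉₊ : ℕ) : ℝ) / 2 ^ k *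
      (((x.1 : ℝ) * ((x.1 : ℝ) - 1)) * (g : ℝ) ^ x.1 * (g' : ℝ) ^ x.2 / (g : ℝ) ^ 2) <
      (p : ℝ) - 1 := by
    refine (hsum _).eventually_lt_const ?_
    refine lt_of_eq_of_lt ?_ h1
    rw [Finset.mul_sum]
    refine Finset.sum_congr rfl (fun x _ => ?_)
    simp only [α]
    field_simp
  have e2 : ∀ᶠ k : ℕ in atTop, ∑ x ∈ s, ((⌈α x * 2 ^ k⌉₊ : ℕ) : ℝ) / 2 ^ k *
      (((x.2 : ℝ) * ((x.2 : ℝ) - 1)) * (g : ℝ) ^ x.1 * (g' : ℝ) ^ x.2 / (g' : ℝ) ^ 2) <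
      (p : ℝ) - 1 := by
    refine (hsum _).eventually_lt_const ?_
    refine lt_of_eq_of_lt ?_ h2
    rw [Finset.mul_sum]
    refine Finset.sum_congr rfl (fun x _ => ?_)
    simp only [α]
    field_simp
  have e3 : ∀ᶠ k : ℕ in atTop, (p : ℝ) < ∑ x ∈ s, ((⌈α x * 2 ^ k⌉₊ : ℕ) : ℝ) / 2 ^ k *
      (((x.1 : ℝ) * (x.2 : ℝ)) * (g : ℝ) ^ x.1 * (g' : ℝ) ^ x.2 /
        (((g : ℝ) + (x.1 : ℝ)) * ((g' : ℝ) + (x.2 : ℝ)))) := by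
    refine (hsum _).eventually_const_lt ?_
    refine lt_of_lt_of_eq h3 ?_
    refine Finset.sum_congr rfl (fun x _ => ?_)
    simp only [α]
    have : (0 : ℝ) < (g : ℝ) + (x.1 : ℝ) := by positivity
    have : (0 : ℝ) < (g' : ℝ) + (x.2 : ℝ) := by positivity
    field_simp
  have e4 : ∀ᶠ k : ℕ in atTop, ∑ x ∈ s, ((⌈α x * 2 ^ k⌉₊ : ℕ) : ℝ) / 2 ^ k *
      ((g : ℝ) ^ x.1 * (g' : ℝ) ^ x.2) < (∑ x ∈ s, w x + δ) * ((g : ℝ) * g') := by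
    refine (hsum _).eventually_lt_const ?_
    have : ∑ x ∈ s, α x * ((g : ℝ) ^ x.1 * (g' : ℝ) ^ x.2) = (∑ x ∈ s, w x) * ((g : ℝ) * g') := by
      rw [Finset.sum_mul]
      refine Finset.sum_congr rfl (fun x _ => ?_)
      simp only [α]
      field_simp
    rw [this]
    apply mul_lt_mul_of_pos_right _ (by positivity)
    linarith
  obtain ⟨k, hk1, hk2, hk3, hk4⟩ := (e1.and (e2.and (e3.and e4))).exists
  have h2k : (0 : ℝ) < 2 ^ k := by positivity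
  have hmulk : ∀ β : ℕ × ℕ → ℝ, (∑ x ∈ s, ((⌈α x * 2 ^ k⌉₊ : ℕ) : ℝ) / 2 ^ k * β x) * 2 ^ k =
      ∑ x ∈ s, ((⌈α x * 2 ^ k⌉₊ : ℕ) : ℝ) * β x := by
    intro β
    rw [Finset.sum_mul]
    refine Finset.sum_congr rfl (fun x _ => ?_)
    field_simp
  have hp1 : ((p - 1 : ℕ) : ℝ) = (p : ℝ) - 1 := by
    push_cast [Nat.cast_sub hp]; ring
  refine ⟨k, ∑ x ∈ s, ⌈α x * 2 ^ k⌉₊ * (g ^ x.1 * g' ^ x.2),
    base_cover s (fun x => ⌈α x * 2 ^ k⌉₊) g g' _ _ hg hg' ?_ ?_ ?_, ?_⟩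
  · have := (mul_lt_mul_of_pos_right hk1 h2k).le
    rw [hmulk] at this
    push_cast
    rw [hp1]
    calc _ = ∑ x ∈ s, ((⌈α x * 2 ^ k⌉₊ : ℕ) : ℝ) *
      (((x.1 : ℝ) * ((x.1 : ℝ) - 1)) * (g : ℝ) ^ x.1 * (g' : ℝ) ^ x.2 / (g : ℝ) ^ 2) := by
          refine Finset.sum_congr rfl (fun x _ => ?_)
          ring
      _ ≤ ((p : ℝ) - 1) * 2 ^ k := this
      _ = _ := by ring
  · have := (mul_lt_mul_of_pos_right hk2 h2k).le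
    rw [hmulk] at this
    push_cast
    rw [hp1]
    calc _ = ∑ x ∈ s, ((⌈α x * 2 ^ k⌉₊ : ℕ) : ℝ) *
      (((x.2 : ℝ) * ((x.2 : ℝ) - 1)) * (g : ℝ) ^ x.1 * (g' : ℝ) ^ x.2 / (g' : ℝ) ^ 2) := by
          refine Finset.sum_congr rfl (fun x _ => ?_)
          ring
      _ ≤ ((p : ℝ) - 1) * 2 ^ k := this
      _ = _ := by ring
  · have := (mul_lt_mul_of_pos_right hk3 h2k).le
    rw [hmulk] at this
    push_cast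
    calc (2 : ℝ) ^ k * p = p * 2 ^ k := by ring
      _ ≤ _ := this
      _ = _ := by
          refine Finset.sum_congr rfl (fun x _ => ?_)
          ring
  · rw [div_le_iff₀ h2k]
    have := (mul_lt_mul_of_pos_right hk4 h2k).le
    rw [hmulk] at this
    push_cast
    exact this

/-- choice of the group sizes -/
theorem choose_n (s : Finset (ℕ × ℕ)) (w : ℕ × ℕ → ℝ) (hw : ∀ x, 0 ≤ w x) (p : ℕ)
    (hp : 1 ≤ p) (lam : ℝ) (hl : 0 < lam)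
    (h1 : ∑ x ∈ s, w x * ((x.1 : ℝ) * ((x.1 : ℝ) - 1)) < ((p : ℝ) - 1) * lam)
    (h2 : ∑ x ∈ s, w x * ((x.2 : ℝ) * ((x.2 : ℝ) - 1)) < ((p : ℝ) - 1) / lam)
    (h3 : (p : ℝ) < ∑ x ∈ s, w x * ((x.1 : ℝ) * (x.2 : ℝ)))
    (δ : ℝ) (hδ : 0 < δ) :
    ∃ a0 b0 N0 : ℕ, 0 < a0 ∧ 0 < b0 ∧ CovN a0 b0 N0 (p - 1) p ∧
      (N0 : ℝ) ≤ (∑ x ∈ s, w x + δ) * ((a0 : ℝ) * b0) ∧
      lam * b0 ≤ (1 + δ) * a0 ∧ (a0 : ℝ) ≤ (1 + δ) * (lam * b0) := by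
  have hG : Tendsto (fun n : ℕ => ⌈lam * (n : ℝ)⌉₊) atTop atTop := by
    refine tendsto_nat_ceil_atTop.comp ?_
    exact tendsto_natCast_atTop_atTop.const_mul_atTop hl
  have hq : Tendsto (fun n : ℕ => ((⌈lam * (n : ℝ)⌉₊ : ℕ) : ℝ) / (n : ℝ)) atTop (𝓝 lam) :=
    (tendsto_nat_ceil_mul_div_atTop hl.le).comp tendsto_natCast_atTop_atTop
  have hq' : Tendsto (fun n : ℕ => (n : ℝ) / ((⌈lam * (n : ℝ)⌉₊ : ℕ) : ℝ)) atTop (𝓝 (1 / lam)) := by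
    have := hq.inv₀ hl.ne'
    simpa [one_div] using this
  have e1 : ∀ᶠ n : ℕ in atTop, (n : ℝ) / ((⌈lam * (n : ℝ)⌉₊ : ℕ) : ℝ) *
      ∑ x ∈ s, w x * ((x.1 : ℝ) * ((x.1 : ℝ) - 1)) < (p : ℝ) - 1 := by
    refine (hq'.mul_const _).eventually_lt_const ?_
    rw [one_div, inv_mul_lt_iff₀ hl]
    linarith
  have e2 : ∀ᶠ n : ℕ in atTop, ((⌈lam * (n : ℝ)⌉₊ : ℕ) : ℝ) / (n : ℝ) *
      ∑ x ∈ s, w x * ((x.2 : ℝ) * ((x.2 : ℝ) - 1)) < (p : ℝ) - 1 := by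
    refine (hq.mul_const _).eventually_lt_const ?_
    rw [lt_div_iff₀ hl] at h2
    linarith
  have e3 : ∀ᶠ n : ℕ in atTop, (p : ℝ) < ∑ x ∈ s, w x * ((x.1 : ℝ) * (x.2 : ℝ)) *
      ((((⌈lam * (n : ℝ)⌉₊ : ℕ) : ℝ) / (((⌈lam * (n : ℝ)⌉₊ : ℕ) : ℝ) + (x.1 : ℝ))) *
      ((n : ℝ) / ((n : ℝ) + (x.2 : ℝ)))) := by
    have : Tendsto (fun n : ℕ => ∑ x ∈ s, w x * ((x.1 : ℝ) * (x.2 : ℝ)) *
      ((((⌈lam * (n : ℝ)⌉₊ : ℕ) : ℝ) / (((⌈lam * (n : ℝ)⌉₊ : ℕ) : ℝ) + (x.1 : ℝ))) *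
      ((n : ℝ) / ((n : ℝ) + (x.2 : ℝ))))) atTop
      (𝓝 (∑ x ∈ s, w x * ((x.1 : ℝ) * (x.2 : ℝ)) * (1 * 1))) := by
      refine tendsto_finsetSum _ (fun x _ => Tendsto.const_mul _ (Tendsto.mul ?_ ?_))
      · exact (tendsto_natCast_div_add_atTop (x.1 : ℝ)).comp hG
      · exact tendsto_natCast_div_add_atTop (x.2 : ℝ)
    refine this.eventually_const_lt ?_
    simpa using h3
  have e4 : ∀ᶠ n : ℕ in atTop, lam / (1 + δ) < ((⌈lam * (n : ℝ)⌉₊ : ℕ) : ℝ) / (n : ℝ) := by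
    refine hq.eventually_const_lt ?_
    rw [div_lt_iff₀ (by positivity)]
    nlinarith
  have e5 : ∀ᶠ n : ℕ in atTop, ((⌈lam * (n : ℝ)⌉₊ : ℕ) : ℝ) / (n : ℝ) < (1 + δ) * lam := by
    refine hq.eventually_lt_const ?_
    nlinarith
  obtain ⟨n, hn1, hn2, hn3, hn4, hn5, hn6, hn7⟩ := (e1.and (e2.and (e3.and (e4.and (e5.and
    ((eventually_gt_atTop 0).and (hG.eventually_gt_atTop 0))))))).exists
  set g : ℕ := ⌈lam * (n : ℝ)⌉₊ with hg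
  obtain ⟨k, N, hcov, hN⟩ := choose_k s w hw p g n hp hn7 hn6 hn1 hn2 hn3 (δ / 2) (by positivity)
  obtain ⟨t, N', ht, hcov', hN'⟩ := iterate k g n N (p - 1) p hcov (δ / 2) (by positivity)
  have hgR : (1 : ℝ) ≤ g := by exact_mod_cast hn7
  have hnR : (1 : ℝ) ≤ n := by exact_mod_cast hn6
  have htR : (1 : ℝ) ≤ t := by exact_mod_cast ht
  refine ⟨g * t, n * t, N', by positivity, by positivity, hcov', ?_, ?_, ?_⟩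
  · have h5 : (1 : ℝ) ≤ (g : ℝ) * n := by nlinarith
    calc (N' : ℝ) ≤ ((N : ℝ) / 2 ^ k + δ / 2) * (t : ℝ) ^ 2 := hN'
      _ ≤ ((∑ x ∈ s, w x + δ / 2) * ((g : ℝ) * n) + δ / 2 * ((g : ℝ) * n)) * (t : ℝ) ^ 2 := by
          apply mul_le_mul_of_nonneg_right _ (by positivity)
          have : δ / 2 ≤ δ / 2 * ((g : ℝ) * n) := by nlinarith
          linarith
      _ = _ := by push_cast; ring
  · rw [div_lt_div_iff₀ (by positivity) (by positivity)] at hn4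
    push_cast
    nlinarith
  · rw [div_lt_iff₀ (by positivity)] at hn5
    push_cast
    nlinarith

end Pool.Agent.Lib_helper78.PI
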