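import Mathlib

/-!
The explicit function for `p = 2`.
-/

set_option autoImplicit false

namespace Pool.Agent.Lib_helper78.PI

/-- With `k = ⌊x / 2⌋`, the larger of the numbers
`(4 k + 2 - x) / (k + 1)^2 - (3 k + 1) / (2 (k + 1) x)` and
`(4 k + 4 - x) / ((k + 1) (k + 2)) - (3 k + 4) / (2 (k + 2) x)`. -/
noncomputable def gTwo (x : ℝ) : ℝ :=
  max ((4 * (⌊x / 2⌋₊ : ℝ) + 2 - x) / ((⌊x / 2⌋₊ : ℝ) + 1) ^ 2 -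
      (3 * (⌊x / 2⌋₊ : ℝ) + 1) / (2 * ((⌊x / 2⌋₊ : ℝ) + 1) * x))
    ((4 * (⌊x / 2⌋₊ : ℝ) + 4 - x) / (((⌊x / 2⌋₊ : ℝ) + 1) * ((⌊x / 2⌋₊ : ℝ) + 2)) -
      (3 * (⌊x / 2⌋₊ : ℝ) + 4) / (2 * ((⌊x / 2⌋₊ : ℝ) + 2) * x))

end Pool.Agent.Lib_helper78.PI
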